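import Pool.Agent.W620.PO.Half

/-! # The cocycle argument -/

set_option autoImplicit false
set_option linter.unusedSectionVars false
set_option linter.unusedVariables false

open Polynomial

namespace Pool.Agent.W620.PO

namespace Hyp

variable {L K : Type} [Field L] [Field K] [Algebra L K] (H : Hyp L K)
variable [IsAlgClosed L] [CharZero L]

theorem two_tors_cl (ξ : PicGp L K) (h : (2 : ℤ) • ξ = 0) : ∃ n, ξ = cl (H.ws n) := by
  obtain ⟨D, rfl⟩ := cl_surj ξ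
  rw [← map_zsmul, cl_zero] at h
  obtain ⟨n, hn⟩ := H.two_torsion D h
  exact ⟨n, (cl_eq _ _).2 hn⟩

theorem two_w (i : Fin 5) :
    (2 : ℤ) • (cl (Finsupp.single (H.w i) 1) - cl (Finsupp.single H.winf 1)) = 0 := by
  rw [← map_sub, ← map_zsmul, cl_zero]
  have h1 : (2 : ℤ) • (Finsupp.single (H.w i) (1 : ℤ) - Finsupp.single H.winf 1)
      = H.dv (H.xa (H.β i)) := by
    rw [H.dv_xa_ram, smul_sub, Finsupp.smul_single, Finsupp.smul_single]
    rfl
  rw [h1]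
  exact H.dv_mem _ (H.xa_ne _)

theorem two_ws (n : Fin 5 → ℤ) : (2 : ℤ) • cl (H.ws n) = 0 := by
  have h1 : cl (H.ws n) = ∑ i, n i • (cl (Finsupp.single (H.w i) 1)
      - cl (Finsupp.single H.winf 1)) := by
    unfold ws
    rw [map_sum]
    refine Finset.sum_congr rfl fun i _ => ?_
    rw [map_zsmul, map_sub]
  rw [h1, Finset.smul_sum]
  apply Finset.sum_eq_zero
  intro i _
  rw [smul_comm, H.two_w, smul_zero]

section

variable (A : Subfield L) (τ : K ≃+* K) (hτ : IsSemi L τ) (hx : τ H.x = H.x)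
  (hfix : ∀ c ∈ A, τ (algebraMap L K c) = algebraMap L K c) (hβ : ∀ i, H.β i ∈ A)

include hx hfix hβ

theorem ws_fix (n : Fin 5 → ℤ) : divMap τ hτ (H.ws n) = H.ws n := by
  unfold ws
  rw [map_sum]
  refine Finset.sum_congr rfl fun i _ => ?_
  rw [map_zsmul, map_sub, divMap_single, divMap_single, H.w_fix τ hτ hx i (hfix _ (hβ i)),
    H.winf_fix τ hτ hx]

end

/-- The key step: commuting elements. -/
theorem core_aux (A : Subfield L) (hA : ∀ c : L, c ^ 2 ∈ A → c ∈ A) (hβ : ∀ i, H.β i ∈ A)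
    {Γ : Type} [Group Γ] (ρ : Γ → (K ≃+* K)) (hρ : ∀ g, IsSemi L (ρ g)) (σ φ : Γ)
    (hcomm : σ * φ = φ * σ) (c : Γ → PicGp L K)
    (hc : ∀ g h, c (g * h) = c g + picMap (ρ g) (hρ g) (c h))
    (hc2 : ∀ g, (2 : ℤ) • c g = cl (Finsupp.single (H.winf.map (ρ g) (hρ g)) 1)
      - cl (Finsupp.single H.winf 1))
    (hσx : ρ σ H.x = H.x) (hσy : ρ σ H.y = - H.y)
    (hσA : ∀ c ∈ A, ρ σ (algebraMap L K c) = algebraMap L K c)
    (hφ : H.IsW (H.winf.map (ρ φ) (hρ φ))) :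
    ∃ n, c σ = cl (H.ws n) ∧
      picMap (ρ φ) (hρ φ) (cl (Finsupp.single H.winf 1) + c σ)
        = cl (Finsupp.single H.winf 1) + c σ := by
  have h1 : (2 : ℤ) • c σ = 0 := by
    rw [hc2, H.winf_fix _ (hρ σ) hσx, sub_self]
  obtain ⟨n, hn⟩ := H.two_tors_cl _ h1
  refine ⟨n, hn, ?_⟩
  have h2 : picMap (ρ σ) (hρ σ) (c φ) = - c φ := by
    rcases hφ with h | ⟨j, h⟩
    · have h3 : (2 : ℤ) • c φ = 0 := by rw [hc2, h, sub_self]
      obtain ⟨m, hm⟩ := H.two_tors_cl _ h3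
      have h4 : picMap (ρ σ) (hρ σ) (c φ) = c φ := by
        rw [hm, picMap_cl, H.ws_fix A (ρ σ) (hρ σ) hσx hσA hβ]
      rw [h4, eq_neg_iff_add_eq_zero, ← two_smul ℤ, h3]
    · obtain ⟨η, -, h3, h4⟩ := H.halve_ram j A hA hβ
      have h5 := h4 (ρ σ) (hρ σ) hσx hσy hσA
      have h6 : (2 : ℤ) • (c φ - cl η) = 0 := by
        rw [smul_sub, hc2, h, ← map_zsmul, ← map_sub, ← map_sub, cl_zero]
        exact h3
      obtain ⟨m, hm⟩ := H.two_tors_cl _ h6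
      have h7 : c φ = cl η + cl (H.ws m) := by rw [← hm]; abel
      have h8 : cl (divMap (ρ σ) (hρ σ) η) = - cl η := by
        rw [eq_neg_iff_add_eq_zero, ← map_add, cl_zero]
        exact h5
      have h9 := H.two_ws m
      rw [h7, map_add, picMap_cl, picMap_cl, H.ws_fix A (ρ σ) (hρ σ) hσx hσA hβ, h8]
      have h10 : cl (H.ws m) = - cl (H.ws m) := by
        rw [eq_neg_iff_add_eq_zero, ← two_smul ℤ, h9]
      rw [neg_add, ← h10]
  have h3 := hc σ φ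
  rw [hcomm, hc φ σ, h2] at h3
  have h4 := hc2 φ
  rw [map_add, picMap_cl, divMap_single]
  have h5 : cl (Finsupp.single (H.winf.map (ρ φ) (hρ φ)) 1) = (2 : ℤ) • c φ
      + cl (Finsupp.single H.winf 1) := by rw [h4]; abel
  have h6 : picMap (ρ φ) (hρ φ) (c σ) = c σ - c φ - c φ := by
    calc picMap (ρ φ) (hρ φ) (c σ) = (c φ + picMap (ρ φ) (hρ φ) (c σ)) - c φ := by abel
      _ = (c σ + -c φ) - c φ := by rw [h3]
      _ = _ := by abel
  rw [h5, h6, two_smul]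
  abel

/-- The divisor `w_∞ + ∑ nᵢ (wᵢ - w_∞)`. -/
noncomputable def M (n : Fin 5 → ℤ) : Div L K := Finsupp.single H.winf 1 + H.ws n

theorem M_winf (n : Fin 5 → ℤ) : H.M n H.winf
    = 1 - (n 0 + n 1 + n 2 + n 3 + n 4) := by
  classical
  unfold M ws
  have h : ∀ i, H.w i ≠ H.winf := H.w_ne_winf
  simp only [Fin.sum_univ_five, Finsupp.add_apply, Finsupp.smul_apply, Finsupp.sub_apply,
    Finsupp.single_apply, smul_eq_mul, h, if_true, if_false]
  ring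

theorem M_w (n : Fin 5 → ℤ) (j : Fin 5) : H.M n (H.w j) = n j := by
  classical
  unfold M ws
  have h : ∀ i, H.winf ≠ H.w i := fun i => (H.w_ne_winf i).symm
  rw [Finsupp.add_apply, Finsupp.single_apply, if_neg (h j), zero_add, Finsupp.finsetSum_apply,
    Finset.sum_eq_single j]
  · rw [Finsupp.smul_apply, Finsupp.sub_apply, Finsupp.single_apply, Finsupp.single_apply,
      if_pos rfl, if_neg (h j)]
    simp
  · intro i _ hi
    rw [Finsupp.smul_apply, Finsupp.sub_apply, Finsupp.single_apply, Finsupp.single_apply,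
      if_neg (fun h => hi (H.w_inj h)), if_neg (h j)]
    simp
  · intro h
    exact absurd (Finset.mem_univ j) h

theorem M_supp (n : Fin 5 → ℤ) (P : Place L K) (hP : ¬ H.IsW P) :
    H.M n P = 0 := by
  classical
  have h1 : H.winf ≠ P := fun h => hP (Or.inl h.symm)
  have h2 : ∀ i, H.w i ≠ P := fun i h => hP (Or.inr ⟨i, h.symm⟩)
  unfold M ws
  simp only [Fin.sum_univ_five, Finsupp.add_apply, Finsupp.smul_apply, Finsupp.sub_apply,
    Finsupp.single_apply, smul_eq_mul, h1, h2, if_false]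
  ring

theorem map_symm_of (τ : K ≃+* K) (hτ : IsSemi L τ) {P Q : Place L K} (h : P.map τ hτ = Q) :
    Q.map τ.symm hτ.symm = P := by
  rw [← h]
  apply Place.ext
  funext g
  rw [Place.map_ord, Place.map_ord]
  simp

theorem core_par (τ : K ≃+* K) (hτ : IsSemi L τ) (n : Fin 5 → ℤ)
    (h : picMap τ hτ (cl (Finsupp.single H.winf 1) + cl (H.ws n))
      = cl (Finsupp.single H.winf 1) + cl (H.ws n))
    (hW : ∀ P, H.IsW P → H.IsW (P.map τ hτ))
    (P0 : Place L K) (hP0 : H.IsW P0) (hP0' : P0.map τ hτ = P0)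
    (P Q : Place L K) (hP : H.IsW P) (hQ : P.map τ hτ = Q) :
    Even (H.M n P - H.M n Q) := by
  rw [← map_add, picMap_cl, cl_eq] at h
  change divMap τ hτ (H.M n) - H.M n ∈ Prin L K at h
  have h1 := H.same_parity _ h (fun R hR => by
    rw [Finsupp.sub_apply, divMap_apply, H.M_supp n R hR, H.M_supp n, sub_zero]
    intro h2
    apply hR
    have h3 := hW _ h2
    have h4 : (R.map τ.symm hτ.symm).map τ hτ = R := by
      apply Place.ext
      funext g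
      rw [Place.map_ord, Place.map_ord]
      simp
    rwa [h4] at h3) P0 Q hP0 (by rw [← hQ]; exact hW P hP)
  rw [Finsupp.sub_apply, Finsupp.sub_apply, divMap_apply, divMap_apply, map_symm_of τ hτ hQ,
    map_symm_of τ hτ hP0', sub_self] at h1
  exact h1.1 (by decide)

theorem core (A : Subfield L) (hA : ∀ c : L, c ^ 2 ∈ A → c ∈ A) (hβ : ∀ i, H.β i ∈ A)
    {Γ : Type} [Group Γ] (ρ : Γ → (K ≃+* K)) (hρ : ∀ g, IsSemi L (ρ g))
    (hact : ∀ g h ξ, picMap (ρ (g * h)) (hρ (g * h)) ξ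
      = picMap (ρ g) (hρ g) (picMap (ρ h) (hρ h) ξ)) (σ φ1 φ2 : Γ)
    (hcomm1 : σ * φ1 = φ1 * σ) (hcomm2 : σ * φ2 = φ2 * σ) (c : Γ → PicGp L K)
    (hc : ∀ g h, c (g * h) = c g + picMap (ρ g) (hρ g) (c h))
    (D : Div L K) (hD : D.degree = 1)
    (hc2 : ∀ g, (2 : ℤ) • c g = picMap (ρ g) (hρ g) (cl D) - cl D)
    (hσx : ρ σ H.x = H.x) (hσy : ρ σ H.y = - H.y)
    (hσA : ∀ c ∈ A, ρ σ (algebraMap L K c) = algebraMap L K c)
    (hW1 : ∀ P, H.IsW P → H.IsW (P.map (ρ φ1) (hρ φ1)))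
    (hW2 : ∀ P, H.IsW P → H.IsW (P.map (ρ φ2) (hρ φ2)))
    (a1 : H.winf.map (ρ φ1) (hρ φ1) = H.w 0) (a2 : (H.w 1).map (ρ φ1) (hρ φ1) = H.w 1)
    (a3 : (H.w 3).map (ρ φ1) (hρ φ1) = H.w 4)
    (b1 : H.winf.map (ρ φ2) (hρ φ2) = H.winf) (b2 : (H.w 1).map (ρ φ2) (hρ φ2) = H.w 2) :
    False := by
  obtain ⟨η, hη, h1⟩ := H.halve D
  rw [hD, one_smul, sub_sub, ← cl_eq, map_add, map_zsmul] at h1
  let c' : Γ → PicGp L K := fun g => c g - (picMap (ρ g) (hρ g) (cl η) - cl η)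
  have hc' : ∀ g h, c' (g * h) = c' g + picMap (ρ g) (hρ g) (c' h) := by
    intro g h
    change c (g * h) - _ = (c g - _) + picMap (ρ g) (hρ g) (c h - _)
    rw [hc, hact, map_sub, map_sub]
    abel
  have hc2' : ∀ g, (2 : ℤ) • c' g = cl (Finsupp.single (H.winf.map (ρ g) (hρ g)) 1)
      - cl (Finsupp.single H.winf 1) := by
    intro g
    change (2 : ℤ) • (c g - _) = _
    rw [smul_sub, hc2, h1, map_add, map_zsmul, smul_sub]
    have h2 : picMap (ρ g) (hρ g) (cl (Finsupp.single H.winf 1))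
        = cl (Finsupp.single (H.winf.map (ρ g) (hρ g)) 1) := by
      rw [picMap_cl, divMap_single]
    rw [h2]
    abel
  obtain ⟨n, hn, h2⟩ := H.core_aux A hA hβ ρ hρ σ φ1 hcomm1 c' hc' hc2' hσx hσy hσA
    (hW1 _ (Or.inl rfl))
  obtain ⟨-, -, h3⟩ := H.core_aux A hA hβ ρ hρ σ φ2 hcomm2 c' hc' hc2' hσx hσy hσA
    (hW2 _ (Or.inl rfl))
  rw [hn] at h2 h3
  have e1 := H.core_par _ (hρ φ1) n h2 hW1 (H.w 1) (Or.inr ⟨1, rfl⟩) a2 H.winf (H.w 0)
    (Or.inl rfl) a1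
  have e2 := H.core_par _ (hρ φ1) n h2 hW1 (H.w 1) (Or.inr ⟨1, rfl⟩) a2 (H.w 3) (H.w 4)
    (Or.inr ⟨3, rfl⟩) a3
  have e3 := H.core_par _ (hρ φ2) n h3 hW2 H.winf (Or.inl rfl) b1 (H.w 1) (H.w 2)
    (Or.inr ⟨1, rfl⟩) b2
  rw [H.M_winf, H.M_w] at e1
  rw [H.M_w, H.M_w] at e2 e3
  obtain ⟨k1, e1⟩ := e1
  obtain ⟨k2, e2⟩ := e2
  obtain ⟨k3, e3⟩ := e3
  omega

end Hyp

end Pool.Agent.W620.PO
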