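import Pool.Agent.W620.PO.PlaceDef

/-! # Genus two curves, the Galois module `J(k̄) = Pic⁰` and the class of `Pic¹` -/

set_option autoImplicit false
set_option linter.unusedSectionVars false

open Polynomial

namespace Pool.Agent.W620.PO

section

variable (k : Type) [Field k]

/-- The absolute Galois group `Gal(k̄/k)` of a field `k` of characteristic zero. -/
def GalGp : Type := Gal(AlgebraicClosure k/k)

noncomputable instance : Group (GalGp k) := AlgEquiv.aut

/-- The Krull topology. -/
noncomputable instance : TopologicalSpace (GalGp k) := krullTopology k (AlgebraicClosure k)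

variable {k}

/-- The element `g(c)` for `g` in the Galois group and `c` in the algebraic closure. -/
noncomputable def galApp (g : GalGp k) (c : AlgebraicClosure k) : AlgebraicClosure k :=
  DFunLike.coe (F := Gal(AlgebraicClosure k/k)) g c

end

/-- A smooth projective geometrically integral curve of genus two over a field `k` of characteristic
zero: the smooth projective curve with affine equation `y² = f(x)`, where `f` is a separable
polynomial of degree six over `k`.

The structure also contains a model `K = k̄(x, y)` of the function field of the curve over the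
algebraic closure `k̄` of `k`, with the action of the absolute Galois group of `k` on `K`, through
the coefficients. (Up to isomorphism there is exactly one such model.) -/
structure GenusTwoCurve (k : Type) [Field k] where
  /-- the characteristic is zero -/
  charZero : CharZero k
  /-- the polynomial `f` -/
  f : k[X]
  natDegree_f : f.natDegree = 6
  separable_f : f.Separable
  /-- the function field over the algebraic closure -/
  K : Type
  [field : Field K]
  [algebra : Algebra (AlgebraicClosure k) K]
  /-- the function `x` -/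
  x : K
  /-- the function `y` -/
  y : K
  transcendental_x : Transcendental (AlgebraicClosure k) x
  equation : y ^ 2 = (f.map (algebraMap k (AlgebraicClosure k))).eval₂
    (algebraMap (AlgebraicClosure k) K) x
  /-- `K` is generated by `x` and `y` over the algebraic closure -/
  gen : ∀ S : Subfield K, (∀ c : AlgebraicClosure k, algebraMap (AlgebraicClosure k) K c ∈ S) →
    x ∈ S → y ∈ S → ∀ z, z ∈ S
  /-- the action of the absolute Galois group on the function field -/
  act : GalGp k → K → K
  act_one : ∀ z, act 1 z = z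
  act_comp : ∀ g h z, act (g * h) z = act g (act h z)
  act_add : ∀ g z w, act g (z + w) = act g z + act g w
  act_mul : ∀ g z w, act g (z * w) = act g z * act g w
  act_const : ∀ g (c : AlgebraicClosure k),
    act g (algebraMap (AlgebraicClosure k) K c) = algebraMap (AlgebraicClosure k) K (galApp g c)
  act_x : ∀ g, act g x = x
  act_y : ∀ g, act g y = y

attribute [instance] GenusTwoCurve.field GenusTwoCurve.algebra

namespace GenusTwoCurve

variable {k : Type} [Field k] (X : GenusTwoCurve k)

theorem act_left_inv (g : GalGp k) : Function.LeftInverse (X.act g⁻¹) (X.act g) := by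
  intro z
  rw [← X.act_comp, inv_mul_cancel, X.act_one]

theorem act_right_inv (g : GalGp k) : Function.RightInverse (X.act g⁻¹) (X.act g) := by
  intro z
  rw [← X.act_comp, mul_inv_cancel, X.act_one]

/-- The action of an element of the Galois group on the function field. -/
noncomputable def aut (g : GalGp k) : X.K ≃+* X.K where
  toFun := X.act g
  invFun := X.act g⁻¹
  left_inv := X.act_left_inv g
  right_inv := X.act_right_inv g
  map_mul' := X.act_mul g
  map_add' := X.act_add g

theorem aut_apply (g : GalGp k) (z : X.K) : X.aut g z = X.act g z := rfl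

theorem act_semi (g : GalGp k) : IsSemi (AlgebraicClosure k) (X.aut g) := by
  refine ⟨fun c => ⟨galApp g c, X.act_const g c⟩, fun c => ⟨galApp g⁻¹ c, ?_⟩⟩
  rw [RingEquiv.symm_apply_eq, X.aut_apply, X.act_const]
  congr 1
  let h : Gal(AlgebraicClosure k/k) := g
  change c = h (h⁻¹ c)
  rw [← AlgEquiv.mul_apply, mul_inv_cancel]
  rfl

/-- The points of the curve over the algebraic closure. -/
def Pt : Type := Place (AlgebraicClosure k) X.K

/-- The Picard group of the curve over the algebraic closure. -/
def Pic : Type := PicGp (AlgebraicClosure k) X.K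

noncomputable instance : AddCommGroup X.Pic := instAddCommGroupPicGp (AlgebraicClosure k) X.K

/-- The degree of a divisor. -/
noncomputable def deg (D : X.Pt →₀ ℤ) : ℤ := Finsupp.degree D

/-- The class of a divisor. -/
noncomputable def cls (D : X.Pt →₀ ℤ) : X.Pic := cl (L := AlgebraicClosure k) (K := X.K) D

/-- The Galois action on the Picard group. -/
noncomputable def picAct (g : GalGp k) (ξ : X.Pic) : X.Pic := picMap (X.aut g) (X.act_semi g) ξ

/-- The element `ξ` of the Picard group is in `J(k̄) = Pic⁰`. -/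
def InPic0 (ξ : X.Pic) : Prop := ∃ D, X.deg D = 0 ∧ X.cls D = ξ

/-- Continuous 1-cocycles of the absolute Galois group with values in `J(k̄)`. -/
def IsCocycle (c : GalGp k → X.Pic) : Prop :=
  (∀ g, X.InPic0 (c g)) ∧ (∀ g h, c (g * h) = c g + X.picAct g (c h)) ∧ IsLocallyConstant c

/-- Coboundaries. -/
def IsCoboundary (c : GalGp k → X.Pic) : Prop := ∃ a, X.InPic0 a ∧ ∀ g, c g = X.picAct g a - a

theorem picAct_add (g : GalGp k) (ξ η : X.Pic) :
    X.picAct g (ξ + η) = X.picAct g ξ + X.picAct g η := map_add (picMap _ _) _ _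

theorem picAct_sub (g : GalGp k) (ξ η : X.Pic) :
    X.picAct g (ξ - η) = X.picAct g ξ - X.picAct g η := map_sub (picMap _ _) _ _

theorem picAct_neg (g : GalGp k) (ξ : X.Pic) : X.picAct g (-ξ) = - X.picAct g ξ :=
  map_neg (picMap _ _) _

theorem picAct_zero (g : GalGp k) : X.picAct g 0 = 0 := map_zero (picMap _ _)

theorem cls_add (D D' : X.Pt →₀ ℤ) : X.cls (D + D') = X.cls D + X.cls D' := map_add cl _ _
theorem cls_sub (D D' : X.Pt →₀ ℤ) : X.cls (D - D') = X.cls D - X.cls D' := map_sub cl _ _
theorem cls_neg (D : X.Pt →₀ ℤ) : X.cls (-D) = - X.cls D := map_neg cl _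
theorem cls_zero : X.cls 0 = 0 := map_zero cl
theorem deg_add (D D' : X.Pt →₀ ℤ) : X.deg (D + D') = X.deg D + X.deg D' := map_add _ _ _
theorem deg_sub (D D' : X.Pt →₀ ℤ) : X.deg (D - D') = X.deg D - X.deg D' := map_sub _ _ _
theorem deg_neg (D : X.Pt →₀ ℤ) : X.deg (-D) = - X.deg D := map_neg _ _
theorem deg_zero : X.deg 0 = 0 := map_zero _

theorem inPic0_zero : X.InPic0 0 := ⟨0, X.deg_zero, X.cls_zero⟩

theorem inPic0_add {ξ η : X.Pic} (h : X.InPic0 ξ) (h' : X.InPic0 η) : X.InPic0 (ξ + η) := by
  obtain ⟨D, h1, rfl⟩ := h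
  obtain ⟨D', h2, rfl⟩ := h'
  exact ⟨D + D', by rw [X.deg_add, h1, h2, add_zero], X.cls_add D D'⟩

theorem inPic0_neg {ξ : X.Pic} (h : X.InPic0 ξ) : X.InPic0 (-ξ) := by
  obtain ⟨D, h1, rfl⟩ := h
  exact ⟨-D, by rw [X.deg_neg, h1, neg_zero], X.cls_neg D⟩

theorem isCocycle_zero : X.IsCocycle 0 :=
  ⟨fun _ => X.inPic0_zero, fun g _ => by
    rw [Pi.zero_apply, Pi.zero_apply, Pi.zero_apply, picAct_zero, add_zero],
    IsLocallyConstant.const 0⟩

theorem isCocycle_add {c d : GalGp k → X.Pic} (h : X.IsCocycle c) (h' : X.IsCocycle d) :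
    X.IsCocycle (c + d) := by
  obtain ⟨h1, h2, h3⟩ := h
  obtain ⟨h4, h5, h6⟩ := h'
  refine ⟨fun g => X.inPic0_add (h1 g) (h4 g), fun g h => ?_, h3.add h6⟩
  rw [Pi.add_apply, Pi.add_apply, Pi.add_apply, h2, h5, X.picAct_add]
  abel

theorem isCocycle_neg {c : GalGp k → X.Pic} (h : X.IsCocycle c) : X.IsCocycle (-c) := by
  obtain ⟨h1, h2, h3⟩ := h
  refine ⟨fun g => X.inPic0_neg (h1 g), fun g h => ?_, h3.neg⟩
  rw [Pi.neg_apply, Pi.neg_apply, Pi.neg_apply, h2, X.picAct_neg]
  abel

theorem isCoboundary_zero : X.IsCoboundary 0 :=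
  ⟨0, X.inPic0_zero, fun g => by rw [Pi.zero_apply, picAct_zero, sub_zero]⟩

theorem isCoboundary_add {c d : GalGp k → X.Pic} (h : X.IsCoboundary c) (h' : X.IsCoboundary d) :
    X.IsCoboundary (c + d) := by
  obtain ⟨a, ha, h1⟩ := h
  obtain ⟨b, hb, h2⟩ := h'
  refine ⟨a + b, X.inPic0_add ha hb, fun g => ?_⟩
  rw [Pi.add_apply, h1, h2, X.picAct_add]
  abel

theorem isCoboundary_neg {c : GalGp k → X.Pic} (h : X.IsCoboundary c) : X.IsCoboundary (-c) := by
  obtain ⟨a, ha, h1⟩ := h
  refine ⟨-a, X.inPic0_neg ha, fun g => ?_⟩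
  rw [Pi.neg_apply, h1, X.picAct_neg]
  abel

/-- The group of continuous 1-cocycles of the absolute Galois group with values in `J(k̄)`. -/
noncomputable def Z1 : AddSubgroup (GalGp k → X.Pic) where
  carrier := {c | X.IsCocycle c}
  zero_mem' := X.isCocycle_zero
  add_mem' := X.isCocycle_add
  neg_mem' := X.isCocycle_neg

/-- The group of coboundaries. -/
noncomputable def B1 : AddSubgroup (GalGp k → X.Pic) where
  carrier := {c | X.IsCoboundary c}
  zero_mem' := X.isCoboundary_zero
  add_mem' := X.isCoboundary_add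
  neg_mem' := X.isCoboundary_neg

/-- The Galois cohomology group `H¹(k, J) = Z¹/B¹`. -/
def H1 : Type := X.Z1 ⧸ X.B1.addSubgroupOf X.Z1

noncomputable instance : AddCommGroup X.H1 :=
  QuotientAddGroup.Quotient.addCommGroup (X.B1.addSubgroupOf X.Z1)

/-- The cohomology class of a cocycle. -/
noncomputable def toH1 (c : GalGp k → X.Pic) (hc : X.IsCocycle c) : X.H1 :=
  QuotientAddGroup.mk (s := X.B1.addSubgroupOf X.Z1) ⟨c, hc⟩

/-- The element `ζ` of `H¹(k, J)` is the class of `Pic¹`: it is represented by the cocycle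
`g ↦ g [D] - [D]`, where `D` is a divisor of degree one over the algebraic closure. -/
def IsPicOneClass (ζ : X.H1) : Prop :=
  ∃ (D : X.Pt →₀ ℤ) (c : GalGp k → X.Pic) (hc : X.IsCocycle c), X.deg D = 1 ∧
    (∀ g, c g = X.picAct g (X.cls D) - X.cls D) ∧ X.toH1 c hc = ζ

end GenusTwoCurve

end Pool.Agent.W620.PO
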