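import Pool.Agent.W620.PO.Curve

/-! # Lemmas on the class of `Pic¹` -/

set_option autoImplicit false
set_option linter.unusedSectionVars false

open Polynomial

namespace Pool.Agent.W620.PO

namespace GenusTwoCurve

variable {k : Type} [Field k] (X : GenusTwoCurve k)

theorem sub_mem_Pic0 (D D' : X.Pt →₀ ℤ) (h : X.deg D = X.deg D') :
    X.InPic0 (X.cls D - X.cls D') :=
  ⟨D - D', by rw [X.deg_sub, h, sub_self], X.cls_sub D D'⟩

theorem toH1_eq {c c' : GalGp k → X.Pic} (hc : X.IsCocycle c) (hc' : X.IsCocycle c') :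
    X.toH1 c hc = X.toH1 c' hc' ↔ X.IsCoboundary (-c + c') :=
  QuotientAddGroup.eq

theorem toH1_add {c c' : GalGp k → X.Pic} (hc : X.IsCocycle c) (hc' : X.IsCocycle c') :
    X.toH1 c hc + X.toH1 c' hc' = X.toH1 (c + c') (X.isCocycle_add hc hc') := rfl

theorem toH1_surj (η : X.H1) : ∃ c hc, X.toH1 c hc = η := by
  obtain ⟨⟨c, hc⟩, h⟩ := QuotientAddGroup.mk_surjective (s := X.B1.addSubgroupOf X.Z1) η
  exact ⟨c, hc, h⟩

theorem picOne_unique (ζ ζ' : X.H1) (h : X.IsPicOneClass ζ) (h' : X.IsPicOneClass ζ') :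
    ζ = ζ' := by
  obtain ⟨D, c, hcZ, hD, hc, rfl⟩ := h
  obtain ⟨D', c', hcZ', hD', hc', rfl⟩ := h'
  rw [toH1_eq]
  refine ⟨X.cls D' - X.cls D, X.sub_mem_Pic0 _ _ (by rw [hD, hD']), fun g => ?_⟩
  rw [Pi.add_apply, Pi.neg_apply, hc, hc', X.picAct_sub]
  abel

theorem not_div_of (h : ∀ c : GalGp k → X.Pic,
    (∀ g h, c (g * h) = c g + X.picAct g (c h)) → ∀ D : X.Pt →₀ ℤ,
      X.deg D = 1 → (∀ g, (2 : ℤ) • c g = X.picAct g (X.cls D) - X.cls D) → False)
    (ζ : X.H1) (hζ : X.IsPicOneClass ζ) : ¬ ∃ η : X.H1, ζ = η + η := by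
  rintro ⟨η, h1⟩
  obtain ⟨D, c, hcZ, hD, hc, rfl⟩ := hζ
  obtain ⟨e, he, rfl⟩ := X.toH1_surj η
  rw [toH1_add, toH1_eq] at h1
  obtain ⟨a, ⟨Da, hDa, rfl⟩, h2⟩ := h1
  refine h e he.2.1 (D + Da) (by rw [X.deg_add, hD, hDa, add_zero]) (fun g => ?_)
  have h3 := h2 g
  rw [Pi.add_apply, Pi.neg_apply, Pi.add_apply, hc] at h3
  rw [two_smul, X.cls_add, X.picAct_add]
  calc e g + e g = (-(X.picAct g (X.cls D) - X.cls D) + (e g + e g))
        + (X.picAct g (X.cls D) - X.cls D) := by abel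
    _ = _ := by rw [h3]; abel

theorem eval_locConst (k : Type) [Field k] (z : AlgebraicClosure k) :
    IsLocallyConstant (fun g : Gal(AlgebraicClosure k/k) => g z) := by
  rw [IsLocallyConstant.iff_exists_open]
  intro g
  have h1 := stabilizer_isOpen_of_isIntegral (K := k) z
  refine ⟨(fun g' => g⁻¹ * g') ⁻¹' (MulAction.stabilizer Gal(AlgebraicClosure k/k) z : Set _),
    h1.preimage (continuous_const_mul _), ?_, ?_⟩
  · simp
  · intro g' hg'
    rw [Set.mem_preimage, SetLike.mem_coe, MulAction.mem_stabilizer_iff] at hg'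
    have h2 : (g⁻¹ * g') z = z := hg'
    have h3 := congrArg g h2
    rw [AlgEquiv.mul_apply, ← AlgEquiv.mul_apply, mul_inv_cancel] at h3
    exact h3

theorem map_mul' (P : Place (AlgebraicClosure k) X.K) (g h : GalGp k) :
    P.map (X.aut (g * h)) (X.act_semi (g * h))
      = (P.map (X.aut h) (X.act_semi h)).map (X.aut g) (X.act_semi g) := by
  apply Place.ext
  funext z
  rw [Place.map_ord, Place.map_ord, Place.map_ord]
  congr 1
  change X.act (g * h)⁻¹ z = X.act h⁻¹ (X.act g⁻¹ z)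
  rw [mul_inv_rev, X.act_comp]

theorem picAct_mul (g h : GalGp k) (ξ : X.Pic) :
    X.picAct (g * h) ξ = X.picAct g (X.picAct h ξ) := by
  obtain ⟨D, rfl⟩ := cl_surj ξ
  change cl (divMap _ _ D) = cl (divMap _ _ (divMap _ _ D))
  congr 1
  induction D using Finsupp.induction_linear with
  | zero => rw [map_zero, map_zero, map_zero]
  | add D D' h1 h2 => rw [map_add, map_add, map_add, h1, h2]
  | single P n => rw [divMap_single, divMap_single, divMap_single, X.map_mul']

theorem exists_of (P : Place (AlgebraicClosure k) X.K) (z : AlgebraicClosure k)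
    (Q : AlgebraicClosure k → Place (AlgebraicClosure k) X.K)
    (hQ : ∀ g : GalGp k, P.map (X.aut g) (X.act_semi g) = Q (galApp g z)) :
    ∃ ζ, X.IsPicOneClass ζ := by
  let c : GalGp k → X.Pic := fun g =>
    X.picAct g (X.cls (Finsupp.single P 1)) - X.cls (Finsupp.single P 1)
  have hc : ∀ g, c g = X.cls (Finsupp.single (Q (galApp g z)) 1) - X.cls (Finsupp.single P 1) := by
    intro g
    have h1 : divMap (X.aut g) (X.act_semi g) (Finsupp.single P 1)
        = Finsupp.single (Q (galApp g z)) 1 := by rw [divMap_single, hQ]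
    exact congrArg (fun D : Div (AlgebraicClosure k) X.K =>
      X.cls D - X.cls (Finsupp.single P 1)) h1
  have hcZ : X.IsCocycle c := by
    refine ⟨fun g => ?_, fun g h => ?_, ?_⟩
    · rw [hc]
      apply X.sub_mem_Pic0
      exact (Finsupp.degree_single _ _).trans (Finsupp.degree_single _ _).symm
    · change X.picAct (g * h) _ - _ = (X.picAct g _ - _) + X.picAct g (X.picAct h _ - _)
      rw [picAct_mul, X.picAct_sub]
      abel
    · have h1 : c = (fun w => X.cls (Finsupp.single (Q w) 1) - X.cls (Finsupp.single P 1)) ∘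
          (fun g : Gal(AlgebraicClosure k/k) => g z) := by
        funext g
        exact hc g
      rw [h1]
      exact (eval_locConst k z).comp _
  exact ⟨X.toH1 c hcZ, Finsupp.single P 1, c, hcZ, Finsupp.degree_single _ _,
    fun g => rfl, rfl⟩

end GenusTwoCurve

end Pool.Agent.W620.PO
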