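import Pool.Agent.W620.PO.Place2

/-! # Existence of places -/

set_option autoImplicit false
set_option linter.unusedSectionVars false
set_option linter.unusedVariables false
set_option linter.style.haveILetI false

open Polynomial IsDedekindDomain

namespace Pool.Agent.W620.PO

/-- The place given by a prime of a Dedekind domain containing the constants. -/
noncomputable def placeOfPrime {L K B : Type} [Field L] [Field K] [Algebra L K] [CommRing B]
    [IsDedekindDomain B] [Algebra B K] [IsFractionRing B K] (i : L →+* B)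
    (hi : ∀ c, algebraMap B K (i c) = algebraMap L K c) (v : HeightOneSpectrum B) :
    Place L K where
  ord h := - (WithZero.log (v.valuation K h))
  ord_zero := by simp
  ord_mul a b ha hb := by
    rw [map_mul, WithZero.log_mul ((Valuation.ne_zero_iff _).2 ha) ((Valuation.ne_zero_iff _).2 hb)]
    ring
  ord_add a b ha hb hab := by
    have h1 := (Valuation.ne_zero_iff (v.valuation K)).2 ha
    have h2 := (Valuation.ne_zero_iff (v.valuation K)).2 hb
    have h3 := (Valuation.ne_zero_iff (v.valuation K)).2 hab
    rcases le_max_iff.1 (Valuation.map_add (v.valuation K) a b) with h | h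
    · rw [← WithZero.log_le_log h3 h1] at h
      exact (min_le_left _ _).trans (neg_le_neg h)
    · rw [← WithZero.log_le_log h3 h2] at h
      exact (min_le_right _ _).trans (neg_le_neg h)
  ord_const c hc := by
    have h1 : v.valuation K (algebraMap L K c) ≤ 1 := by
      rw [← hi c]
      exact v.valuation_le_one _
    have h2 : v.valuation K (algebraMap L K c⁻¹) ≤ 1 := by
      rw [← hi c⁻¹]
      exact v.valuation_le_one _
    have h3 : v.valuation K (algebraMap L K c) * v.valuation K (algebraMap L K c⁻¹) = 1 := by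
      rw [← map_mul, ← map_mul, mul_inv_cancel₀ hc, map_one, map_one]
    have h4 : v.valuation K (algebraMap L K c) = 1 := by
      refine le_antisymm h1 ?_
      calc (1 : WithZero (Multiplicative ℤ)) = _ := h3.symm
        _ ≤ v.valuation K (algebraMap L K c) * 1 := by gcongr
        _ = _ := mul_one _
    rw [h4]
    simp
  exists_one := by
    obtain ⟨π, hπ⟩ := v.valuation_exists_uniformizer K
    refine ⟨π, ?_, ?_⟩
    · rintro rfl
      rw [map_zero] at hπ
      exact WithZero.exp_ne_zero hπ.symm
    · rw [hπ]
      simp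

theorem placeOfPrime_pos {L K B : Type} [Field L] [Field K] [Algebra L K] [CommRing B]
    [IsDedekindDomain B] [Algebra B K] [IsFractionRing B K] (i : L →+* B)
    (hi : ∀ c, algebraMap B K (i c) = algebraMap L K c) (v : HeightOneSpectrum B)
    (b : B) (hb0 : b ≠ 0) (hb : b ∈ v.asIdeal) :
    0 < (placeOfPrime i hi v).ord (algebraMap B K b) := by
  have h1 := (v.valuation_lt_one_iff_mem (K := K) b).2 hb
  have h2 : v.valuation K (algebraMap B K b) ≠ 0 := by
    rw [Valuation.ne_zero_iff]
    simpa using hb0
  have h3 := (WithZero.log_lt_log h2 one_ne_zero).2 h1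
  rw [WithZero.log_one] at h3
  exact neg_pos.2 h3

theorem exists_place {L K : Type} [Field L] [CharZero L] [Field K] [Algebra L K] (z y : K)
    (hz : ∀ p : L[X], aeval z p = 0 → p = 0)
    (hgen : ∀ h : K, ∃ A B D : L[X], D ≠ 0 ∧ h * aeval z D = aeval z A + aeval z B * y) :
    ∃ P : Place L K, 0 < P.ord z := by
  classical
  letI a1 : Algebra L[X] K := (aeval z : L[X] →ₐ[L] K).toRingHom.toAlgebra
  have ha1 : ∀ p : L[X], algebraMap L[X] K p = aeval z p := fun p => rfl
  have inj : Function.Injective (algebraMap L[X] K) := (injective_iff_map_eq_zero _).2 hz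
  let φ : RatFunc L →+* K := IsFractionRing.lift (A := L[X]) (K := RatFunc L) (L := K)
    (g := algebraMap L[X] K) inj
  letI a2 : Algebra (RatFunc L) K := φ.toAlgebra
  haveI tow : IsScalarTower L[X] (RatFunc L) K :=
    IsScalarTower.of_algebraMap_eq (fun p => (IsFractionRing.lift_algebraMap inj p).symm)
  haveI fin : Module.Finite (RatFunc L) K := by
    refine ⟨⟨{1, y}, ?_⟩⟩
    rw [eq_top_iff]
    rintro h -
    obtain ⟨A, B, D, hD, e⟩ := hgen h
    rw [Finset.coe_pair, Submodule.mem_span_pair]
    refine ⟨algebraMap L[X] (RatFunc L) A / algebraMap L[X] (RatFunc L) D,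
      algebraMap L[X] (RatFunc L) B / algebraMap L[X] (RatFunc L) D, ?_⟩
    have hD' : aeval z D ≠ 0 := fun h => hD (hz D h)
    rw [Algebra.smul_def, Algebra.smul_def, map_div₀, map_div₀,
      ← IsScalarTower.algebraMap_apply, ← IsScalarTower.algebraMap_apply,
      ← IsScalarTower.algebraMap_apply, ha1, ha1, ha1, mul_one]
    field_simp
    linear_combination -e
  haveI : CharZero (RatFunc L) := charZero_of_injective_algebraMap
    (algebraMap L (RatFunc L)).injective
  let B := integralClosure L[X] K
  haveI : IsDedekindDomain B := integralClosure.isDedekindDomain L[X] (RatFunc L) K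
  haveI : IsFractionRing B K := integralClosure.isFractionRing_of_finite_extension (RatFunc L) K
  have hinj : Function.Injective (algebraMap L[X] B) := by
    intro p q h
    apply inj
    exact congrArg (algebraMap B K) h
  haveI hmax : (Ideal.span {(X : L[X])}).IsMaximal :=
    PrincipalIdealRing.isMaximal_of_irreducible irreducible_X
  obtain ⟨M, hM, hcomap⟩ := Ideal.exists_ideal_over_maximal_of_isIntegral (S := B)
    (Ideal.span {(X : L[X])}) (by
      rw [(RingHom.injective_iff_ker_eq_bot _).1 hinj]
      exact bot_le)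
  have hX : algebraMap L[X] B X ∈ M := by
    rw [← Ideal.mem_comap, hcomap]
    exact Ideal.mem_span_singleton_self _
  have hX0 : algebraMap L[X] B X ≠ 0 := by
    intro h
    exact X_ne_zero (hinj (by rw [h, map_zero]))
  let v : HeightOneSpectrum B := ⟨M, hM.isPrime, by
    rintro rfl
    exact hX0 (Ideal.mem_bot.1 hX)⟩
  let i : L →+* B := (algebraMap L[X] B).comp C
  have hi : ∀ c, algebraMap B K (i c) = algebraMap L K c := by
    intro c
    change algebraMap L[X] K (C c) = _
    rw [ha1, aeval_C]
  refine ⟨placeOfPrime i hi v, ?_⟩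
  have h1 := placeOfPrime_pos i hi v _ hX0 hX
  have h2 : algebraMap B K (algebraMap L[X] B X) = z := by
    change algebraMap L[X] K X = z
    rw [ha1, aeval_X]
  rwa [h2] at h1

namespace Hyp

variable {L K : Type} [Field L] [Field K] [Algebra L K] (H : Hyp L K)

theorem place_fin [CharZero L] (a : L) : ∃ P : Place L K, 0 < P.ord (H.xa a) := by
  have key : ∀ p : L[X], aeval (H.xa a) (p.comp (X + C a)) = H.ev p := by
    intro p
    rw [aeval_comp]
    congr 2
    simp [xa]
  apply exists_place (H.xa a) H.y
  · intro p hp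
    have h1 := key (p.comp (X - C a))
    have h2 : (p.comp (X - C a)).comp (X + C a) = p := by
      rw [comp_assoc]
      simp
    rw [h2, hp] at h1
    have h3 := H.trans _ h1.symm
    have h4 : (p.comp (X - C a)).comp (X + C a) = 0 := by rw [h3, zero_comp]
    rwa [h2] at h4
  · intro h
    obtain ⟨A, B, D, hD, e⟩ := H.gen' h
    refine ⟨A.comp (X + C a), B.comp (X + C a), D.comp (X + C a), ?_, ?_⟩
    · intro h0
      apply hD
      have : D = (D.comp (X + C a)).comp (X - C a) := by
        rw [comp_assoc]; simp
      rw [this, h0, zero_comp]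
    · rw [key, key, key]
      exact e

theorem aeval_reflect (u : K) (hu : u ≠ 0) (p : L[X]) (n : ℕ) (hn : p.natDegree ≤ n) :
    aeval u⁻¹ (p.reflect n) * u ^ n = aeval u p := by
  letI := invertibleOfNonzero hu
  have h1 := eval₂_reflect_mul_pow (algebraMap L K) u n p hn
  rwa [invOf_eq_inv] at h1

theorem place_inf [CharZero L] : ∃ P : Place L K, P.ord H.x < 0 := by
  have hx : H.x ≠ 0 := by
    rw [← H.ev_X]; exact H.ev_ne X_ne_zero
  have key : ∀ p : L[X], ∀ n : ℕ, p.natDegree ≤ n →
      ∃ q : L[X], aeval H.x⁻¹ q * H.x ^ n = H.ev p ∧ (p ≠ 0 → q ≠ 0) := by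
    intro p n hn
    refine ⟨p.reflect n, aeval_reflect H.x hx p n hn, ?_⟩
    intro hp h0
    exact hp ((reflect_eq_zero_iff).1 h0)
  obtain ⟨P, hP⟩ := exists_place (L := L) H.x⁻¹ H.y (by
    intro p hp
    have h1 := aeval_reflect (L := L) H.x⁻¹ (inv_ne_zero hx) p p.natDegree le_rfl
    rw [hp, inv_inv] at h1
    have h2 := (mul_eq_zero.1 h1).resolve_right (pow_ne_zero _ (inv_ne_zero hx))
    exact (reflect_eq_zero_iff).1 (H.trans _ h2)) (by
    intro h
    obtain ⟨A, B, D, hD, e⟩ := H.gen' h
    let n := max A.natDegree (max B.natDegree D.natDegree)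
    obtain ⟨A', hA', -⟩ := key A n (le_max_left _ _)
    obtain ⟨B', hB', -⟩ := key B n ((le_max_left _ _).trans (le_max_right _ _))
    obtain ⟨D', hD', hD0⟩ := key D n ((le_max_right _ _).trans (le_max_right _ _))
    refine ⟨A', B', D', hD0 hD, ?_⟩
    rw [← hA', ← hB', ← hD'] at e
    refine mul_right_cancel₀ (pow_ne_zero n hx) ?_
    linear_combination e)
  refine ⟨P, ?_⟩
  rw [P.ord_inv _ hx] at hP
  omega

end Hyp

end Pool.Agent.W620.PO
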