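import Pool.Agent.W620.PO.Place3
import Pool.Agent.W620.PO.Exist

/-! # Divisors -/

set_option autoImplicit false
set_option linter.unusedSectionVars false
set_option linter.unusedVariables false

open Polynomial

namespace Pool.Agent.W620.PO

namespace Hyp

variable {L K : Type} [Field L] [Field K] [Algebra L K] (H : Hyp L K)
variable [IsAlgClosed L] [CharZero L]

theorem exists_β {a : L} (h : H.F.eval a = 0) : ∃ i, a = H.β i := by
  by_contra hc
  push Not at hc
  exact H.F_eval_ne hc h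

theorem fiber_fin (a : L) : {P : Place L K | 0 < P.ord (H.xa a)}.Finite := by
  obtain ⟨b, hb⟩ := IsAlgClosed.exists_pow_nat_eq (H.F.eval a) (n := 2) two_pos
  by_cases h0 : b = 0
  · obtain ⟨i, rfl⟩ := H.exists_β (a := a) (by rw [← hb, h0]; ring)
    apply Set.Subsingleton.finite
    intro P hP Q hQ
    exact H.ext_ram P Q hP hQ
  · have h1 : {P : Place L K | 0 < P.ord (H.xa a)} ⊆
        {P : Place L K | 0 < P.ord (H.xa a) ∧ 0 < P.ord (H.yb b)} ∪
          {P : Place L K | 0 < P.ord (H.xa a) ∧ 0 < P.ord (H.yb (-b))} := by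
      intro P hP
      obtain ⟨b', hb', h2⟩ := H.center P hP
      rw [← hb, sq_eq_sq_iff_eq_or_eq_neg] at hb'
      rcases hb' with rfl | rfl
      · exact Or.inl ⟨hP, h2⟩
      · exact Or.inr ⟨hP, h2⟩
    refine Set.Finite.subset (Set.Finite.union ?_ ?_) h1
    · apply Set.Subsingleton.finite
      rintro P ⟨hP, hP'⟩ Q ⟨hQ, hQ'⟩
      exact H.ext_unr P Q h0 hP hP' hQ hQ'
    · apply Set.Subsingleton.finite
      rintro P ⟨hP, hP'⟩ Q ⟨hQ, hQ'⟩
      exact H.ext_unr P Q (neg_ne_zero.2 h0) hP hP' hQ hQ'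

theorem inf_fin : {P : Place L K | P.ord H.x < 0}.Finite := by
  apply Set.Subsingleton.finite
  intro P hP Q hQ
  exact H.ext_inf P Q hP hQ

theorem supp_ev (p : L[X]) (hp : p ≠ 0) : (Function.support fun P : Place L K => P.ord (H.ev p)).Finite := by
  classical
  refine Set.Finite.subset (Set.Finite.union H.inf_fin
    (Set.Finite.biUnion (s := (p.roots.toFinset : Set L)) (Finset.finite_toSet _)
      (fun a _ => H.fiber_fin (K := K) a))) ?_
  intro P hP
  rw [Function.mem_support] at hP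
  rcases H.dich P with h | ⟨a, h⟩
  · exact Or.inl h
  · right
    rw [Set.mem_iUnion₂]
    refine ⟨a, ?_, h⟩
    rw [H.ord_ev_fin P h p hp] at hP
    have h1 : p.rootMultiplicity a ≠ 0 := by
      intro h2
      rw [h2] at hP
      simp at hP
    rw [Finset.mem_coe, Multiset.mem_toFinset, mem_roots hp]
    exact (rootMultiplicity_pos hp).1 (Nat.pos_of_ne_zero h1)

theorem supp_fin (H : Hyp L K) (h : K) : (Function.support fun P : Place L K => P.ord h).Finite := by
  by_cases hh : h = 0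
  · rw [hh]
    have : (Function.support fun P : Place L K => P.ord (0 : K)) = ∅ := by
      rw [Function.support_eq_empty_iff]
      funext P
      exact P.ord_zero
    rw [this]
    exact Set.finite_empty
  obtain ⟨A, B, D, hD, e⟩ := H.gen' h
  have hAB := H.AB_ne hh hD e
  refine Set.Finite.subset (Set.Finite.union (Set.Finite.union (H.supp_ev D hD)
    (H.supp_ev _ (H.norm_ne A B hAB))) H.inf_fin) ?_
  intro P hP
  rw [Function.mem_support] at hP
  by_contra hc
  rw [Set.mem_union, Set.mem_union, not_or, not_or, Function.mem_support, Function.mem_support,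
    not_not, not_not] at hc
  obtain ⟨⟨h1, h2⟩, h3⟩ := hc
  obtain ⟨a, ha⟩ := (H.dich P).resolve_left h3
  have h4 : ∀ A B : L[X], (A ≠ 0 ∨ B ≠ 0) → 0 ≤ P.ord (H.ev A + H.ev B * H.y) := by
    intro A B hAB
    refine P.le_ord_add _ _ 0 (H.conj_ne A B hAB) (fun h => ?_) (fun h => ?_)
    · refine H.ord_ev_nonneg P ha A ?_
      rintro rfl
      simp [ev] at h
    · rw [P.ord_mul _ _ (left_ne_zero_of_mul h) H.y_ne]
      refine add_nonneg (H.ord_ev_nonneg P ha B ?_) (H.ord_y_nonneg P ha)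
      rintro rfl
      simp [ev] at h
  have h5 := H.ord_conj P A B hAB
  rw [h2] at h5
  have h6 := h4 A B hAB
  have h7 := h4 A (-B) (hAB.imp id (fun h => neg_ne_zero.2 h))
  have e2 : H.ev (-B) = - H.ev B := map_neg _ _
  rw [e2, neg_mul, ← sub_eq_add_neg] at h7
  apply hP
  have h8 := H.ord_gen P hh hD e
  rw [h8, h1]
  omega

/-- The divisor of a function. -/
noncomputable def dv (h : K) : Div L K := Finsupp.ofSupportFinite (fun P => P.ord h) (H.supp_fin h)

theorem dv_apply (h : K) (P : Place L K) : H.dv h P = P.ord h := rfl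

theorem dv_mem (h : K) (hh : h ≠ 0) : H.dv h ∈ Prin L K := ⟨h, hh, fun P => rfl⟩

theorem dv_mul (h h' : K) (hh : h ≠ 0) (hh' : h' ≠ 0) : H.dv (h * h') = H.dv h + H.dv h' := by
  ext P
  rw [Finsupp.add_apply, H.dv_apply, H.dv_apply, H.dv_apply, P.ord_mul _ _ hh hh']

theorem dv_const (c : L) (hc : c ≠ 0) : H.dv (algebraMap L K c) = 0 := by
  ext P
  rw [H.dv_apply, P.ord_const c hc]
  rfl

theorem divMap_dv (τ : K ≃+* K) (hτ : IsSemi L τ) (h : K) :
    divMap τ hτ (H.dv h) = H.dv (τ h) := by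
  ext P
  rw [divMap_apply, H.dv_apply, H.dv_apply, Place.map_ord, RingEquiv.symm_symm]

theorem ι_semi : IsSemi L H.ι := by
  refine ⟨fun c => ⟨c, H.ι_const c⟩, fun c => ⟨c, ?_⟩⟩
  rw [RingEquiv.symm_apply_eq, H.ι_const]

theorem ι_ι (h : K) : H.ι (H.ι h) = h := by
  obtain ⟨A, B, D, hD, e⟩ := H.gen' h
  have h1 := congrArg (fun z => H.ι (H.ι z)) e
  simp only [map_mul, map_add, H.ι_ev, H.ι_y, map_neg, neg_neg] at h1
  rw [← e] at h1
  exact mul_right_cancel₀ (H.ev_ne hD) h1

theorem ι_symm (h : K) : H.ι.symm h = H.ι h := by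
  rw [RingEquiv.symm_apply_eq, H.ι_ι]

/-- The Weierstrass place over `β i`. -/
noncomputable def w (i : Fin 5) : Place L K := (H.place_fin (H.β i)).choose

theorem w_pos (i : Fin 5) : 0 < (H.w i).ord (H.xa (H.β i)) := (H.place_fin (H.β i)).choose_spec

/-- The Weierstrass place at infinity. -/
noncomputable def winf : Place L K := H.place_inf.choose

theorem winf_neg : H.winf.ord H.x < 0 := H.place_inf.choose_spec

theorem w_unique (i : Fin 5) (P : Place L K) (h : 0 < P.ord (H.xa (H.β i))) : P = H.w i :=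
  H.ext_ram P _ h (H.w_pos i)

theorem winf_unique (P : Place L K) (h : P.ord H.x < 0) : P = H.winf :=
  H.ext_inf P _ h H.winf_neg

theorem w_ne_winf (i : Fin 5) : H.w i ≠ H.winf := by
  intro h
  have h1 := H.w_pos i
  rw [h, H.ord_xa_inf _ H.winf_neg] at h1
  exact lt_asymm h1 H.winf_neg

theorem w_inj : Function.Injective H.w := by
  intro i j h
  by_contra hij
  have h1 := H.w_pos i
  rw [h, H.ord_xa_fin _ (H.w_pos j) (fun h => hij (H.β_inj h))] at h1
  exact lt_irrefl _ h1

/-- A degree `0` divisor statement for `x - a`. -/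
theorem dv_xa_ram (i : Fin 5) : H.dv (H.xa (H.β i)) =
    Finsupp.single (H.w i) 2 - Finsupp.single H.winf 2 := by
  classical
  ext P
  rw [H.dv_apply, Finsupp.sub_apply, Finsupp.single_apply, Finsupp.single_apply]
  by_cases h1 : P.ord H.x < 0
  · have h2 := H.winf_unique P h1
    rw [if_neg (by rw [h2]; exact H.w_ne_winf i), if_pos h2.symm, H.ord_xa_inf P h1,
      (H.inf_aux P h1).1]
    norm_num
  by_cases h2 : 0 < P.ord (H.xa (H.β i))
  · have h3 := H.w_unique i P h2
    rw [if_pos h3.symm, if_neg (by rw [h3]; exact (H.w_ne_winf i).symm), (H.ram_aux P h2).1]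
    norm_num
  · obtain ⟨a, ha⟩ := (H.dich P).resolve_left h1
    have hne : H.β i ≠ a := by
      rintro rfl
      exact h2 ha
    rw [H.ord_xa_fin P ha hne, if_neg, if_neg]
    · norm_num
    · rintro rfl; exact h1 H.winf_neg
    · rintro rfl; exact h2 (H.w_pos i)

theorem ι_center (P : Place L K) (b : L) :
    (P.map H.ι H.ι_semi).ord (H.yb b) = P.ord (H.yb (-b)) := by
  rw [Place.map_ord, H.ι_symm]
  unfold yb
  rw [map_sub, H.ι_y, H.ι_const, ← P.ord_neg]
  congr 1
  rw [map_neg]
  ring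

theorem ι_xa (P : Place L K) (a : L) : (P.map H.ι H.ι_semi).ord (H.xa a) = P.ord (H.xa a) := by
  rw [Place.map_ord, H.ι_symm, H.xa_eq, H.ι_ev]

theorem ι_x_ord (P : Place L K) : (P.map H.ι H.ι_semi).ord H.x = P.ord H.x := by
  rw [Place.map_ord, H.ι_symm, H.ι_x]

theorem yb_excl (P : Place L K) {b b' : L} (hne : b ≠ b') (h : 0 < P.ord (H.yb b)) :
    P.ord (H.yb b') = 0 := by
  have h1 : H.yb b' = algebraMap L K (b - b') + H.yb b := by
    unfold yb
    rw [map_sub]; ring
  have h2 : b - b' ≠ 0 := sub_ne_zero.2 hne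
  rw [h1, (P.ord_add_eq _ _ (const_ne h2) (Or.inr (by rw [P.ord_const _ h2]; exact h))).2,
    P.ord_const _ h2]

theorem ι_ne (P : Place L K) {b : L} (hb0 : b ≠ 0) (hb : 0 < P.ord (H.yb b)) :
    P.map H.ι H.ι_semi ≠ P := by
  intro h
  have h1 := H.ι_center P b
  rw [h] at h1
  have h2 : b ≠ -b := by
    intro h3
    apply hb0
    have : 2 * b = 0 := by linear_combination h3
    simpa using this
  rw [H.yb_excl P h2 hb] at h1
  omega

theorem dv_xa_unr {a b : L} (hb0 : b ≠ 0) (P : Place L K) (ha : 0 < P.ord (H.xa a))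
    (hb : 0 < P.ord (H.yb b)) : H.dv (H.xa a) =
    Finsupp.single P 1 + Finsupp.single (P.map H.ι H.ι_semi) 1 - Finsupp.single H.winf 2 := by
  classical
  have hbsq : b ^ 2 = H.F.eval a := by
    obtain ⟨b', hb', h2⟩ := H.center P ha
    have h3 : b = b' := by
      by_contra hne
      have := H.yb_excl P hne hb
      omega
    rw [h3, hb']
  ext Q
  rw [H.dv_apply, Finsupp.sub_apply, Finsupp.add_apply, Finsupp.single_apply,
    Finsupp.single_apply, Finsupp.single_apply]
  have haι : 0 < (P.map H.ι H.ι_semi).ord (H.xa a) := by rw [H.ι_xa]; exact ha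
  have hbι : 0 < (P.map H.ι H.ι_semi).ord (H.yb (-b)) := by
    rw [H.ι_center, neg_neg]; exact hb
  by_cases h1 : Q.ord H.x < 0
  · have h2 := H.winf_unique Q h1
    rw [if_neg, if_neg, if_pos h2.symm, H.ord_xa_inf Q h1, (H.inf_aux Q h1).1]
    · norm_num
    · rintro rfl
      rw [H.ord_xa_inf _ h1] at haι
      exact lt_asymm h1 haι
    · rintro rfl
      rw [H.ord_xa_inf _ h1] at ha
      exact lt_asymm h1 ha
  rw [if_neg (c := H.winf = Q) (by rintro rfl; exact h1 H.winf_neg), sub_zero]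
  by_cases h2 : 0 < Q.ord (H.xa a)
  · obtain ⟨b', hb', h3⟩ := H.center Q h2
    rw [← hbsq, sq_eq_sq_iff_eq_or_eq_neg] at hb'
    rcases hb' with rfl | rfl
    · have h4 : P = Q := H.ext_unr P Q hb0 ha hb h2 h3
      rw [← h4, if_pos rfl, if_neg (H.ι_ne P hb0 hb), H.unr P hb0 ha hb]
      norm_num
    · have h4 : P.map H.ι H.ι_semi = Q := H.ext_unr _ Q (neg_ne_zero.2 hb0) haι hbι h2 h3
      rw [if_pos h4, if_neg (by rw [← h4]; exact (H.ι_ne P hb0 hb).symm),
        H.unr Q (neg_ne_zero.2 hb0) h2 h3]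
      norm_num
  · obtain ⟨a', ha'⟩ := (H.dich Q).resolve_left h1
    have hne : a ≠ a' := by
      rintro rfl
      exact h2 ha'
    rw [H.ord_xa_fin Q ha' hne, if_neg, if_neg]
    · norm_num
    · rintro rfl; exact h2 haι
    · rintro rfl; exact h2 ha

theorem degree_dv_xa (a : L) : (H.dv (H.xa a)).degree = 0 := by
  by_cases h : ∃ i, a = H.β i
  · obtain ⟨i, rfl⟩ := h
    rw [H.dv_xa_ram, map_sub, Finsupp.degree_single, Finsupp.degree_single]
    norm_num
  · obtain ⟨P, hP⟩ := H.place_fin a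
    obtain ⟨b, hb, h1⟩ := H.center P hP
    have hb0 : b ≠ 0 := by
      rintro rfl
      exact h (H.exists_β (by rw [← hb]; ring))
    rw [H.dv_xa_unr hb0 P hP h1, map_sub, map_add, Finsupp.degree_single, Finsupp.degree_single,
      Finsupp.degree_single]
    norm_num

theorem degree_dv_prod (s : Multiset L) : (H.dv (s.map H.xa).prod).degree = 0 := by
  induction s using Multiset.induction_on with
  | empty =>
    rw [Multiset.map_zero, Multiset.prod_zero, ← map_one (algebraMap L K),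
      H.dv_const _ one_ne_zero, map_zero]
  | cons a s ih =>
    have h0 : (s.map H.xa).prod ≠ 0 := by
      apply Multiset.prod_ne_zero
      rw [Multiset.mem_map]
      rintro ⟨a, _, ha⟩
      exact H.xa_ne a ha
    rw [Multiset.map_cons, Multiset.prod_cons, H.dv_mul _ _ (H.xa_ne a) h0, map_add,
      H.degree_dv_xa, ih, add_zero]

theorem degree_dv_ev (p : L[X]) (hp : p ≠ 0) : (H.dv (H.ev p)).degree = 0 := by
  have h0 : (p.roots.map H.xa).prod ≠ 0 := by
    apply Multiset.prod_ne_zero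
    rw [Multiset.mem_map]
    rintro ⟨a, _, ha⟩
    exact H.xa_ne a ha
  rw [H.ev_roots, H.dv_mul _ _ (const_ne (leadingCoeff_ne_zero.2 hp)) h0,
    H.dv_const _ (leadingCoeff_ne_zero.2 hp), zero_add, H.degree_dv_prod]

/-- Principal divisors have degree zero. -/
theorem degree_dv (h : K) (hh : h ≠ 0) : (H.dv h).degree = 0 := by
  obtain ⟨A, B, D, hD, e⟩ := H.gen' h
  have hAB := H.AB_ne hh hD e
  have h1 : (H.dv h).degree + (H.dv (H.ι h)).degree + (H.dv (H.ev D)).degree
      + (H.dv (H.ev D)).degree = (H.dv (H.ev (A ^ 2 - B ^ 2 * H.F))).degree := by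
    have hι : H.ι h ≠ 0 := (_root_.map_ne_zero _).2 hh
    have hD' := H.ev_ne hD
    rw [← map_add, ← map_add, ← map_add, ← H.dv_mul _ _ hh hι,
      ← H.dv_mul _ _ (mul_ne_zero hh hι) hD',
      ← H.dv_mul _ _ (mul_ne_zero (mul_ne_zero hh hι) hD') hD']
    congr 2
    have e2 : H.ι h * H.ev D = H.ev A - H.ev B * H.y := by
      have := congrArg H.ι e
      rw [map_mul, H.ι_ev, map_add, map_mul, H.ι_ev, H.ι_ev, H.ι_y] at this
      linear_combination this
    rw [H.ev_sub, H.ev_mul, H.ev_pow, H.ev_pow, ← H.ysq]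
    linear_combination (H.ι h * H.ev D) * e + (H.ev A + H.ev B * H.y) * e2
  rw [H.degree_dv_ev D hD, H.degree_dv_ev _ (H.norm_ne A B hAB), ← H.divMap_dv H.ι H.ι_semi,
    degree_divMap] at h1
  omega

theorem degree_prin (H : Hyp L K) (D : Div L K) (hD : D ∈ Prin L K) : D.degree = 0 := by
  obtain ⟨h, hh, h1⟩ := hD
  have : D = H.dv h := by
    ext P
    rw [h1, H.dv_apply]
  rw [this, H.degree_dv h hh]

end Hyp

end Pool.Agent.W620.PO
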