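import Pool.Agent.W620.PO.Main

/-!
# A genus two curve for which the class of `Pic¹` is not divisible by two

Let `k = ℂ(s)(t)` and let `X` be the smooth projective curve of genus two over `k` with affine
equation `y² = t (x² - s) (x² - (s - 1)) (x² - s (s - 1))`.  We show that the class of `Pic¹_{X/k}`
is not divisible by `2` in `H¹(k, J)`, where `J` is the Jacobian of `X`.

## The definitions which are used

* `Place L K`: the normalised discrete valuations `K → ℤ` of the field `K` which are trivial on the
  subfield `L`.  If `L` is algebraically closed and `K` is the function field of a smooth projective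
  curve over `L`, these are the points of the curve.
* `Div L K = Place L K →₀ ℤ`: divisors; `Prin L K`: principal divisors;
  `PicGp L K = Div L K ⧸ Prin L K`: the Picard group; `cl D`: the class of the divisor `D`;
  `Finsupp.degree D`: the degree.
* `GenusTwoCurve k`: a separable polynomial `f` of degree six over the field `k` of characteristic
  zero; the curve `X` is the smooth projective curve with equation `y² = f(x)`. The structure also
  contains its function field `K = k̄(x, y)` over the algebraic closure `k̄` of `k`, and the action of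
  `Gal(k̄/k)` on `K` through the coefficients, fixing `x` and `y`.
* `X.Pt`, `X.Pic`, `X.picAct`: the points and the Picard group of `X` over `k̄`, with its Galois
  action; `X.InPic0 ξ`: the class `ξ` has degree zero, i.e. is in `J(k̄)`.
* `X.IsCocycle`, `X.IsCoboundary`, `X.H1`: continuous (i.e. locally constant) 1-cocycles of `Gal(k̄/k)`
  with values in `J(k̄)`, coboundaries of elements of `J(k̄)`, and `H¹(k, J) = Z¹/B¹`.
* `X.IsPicOneClass ζ`: the element `ζ` of `H¹(k, J)` is the class of the torsor `Pic¹_{X/k}`, i.e. the
  class of the cocycle `g ↦ g [D] - [D]`, where `D` is a divisor of degree one over `k̄`.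

## The proof

Let `w` be the class of a Weierstrass point, and suppose that `2 c_g = g D - D` for a cocycle `c` and
a class `D` of degree one.  Since `J(k̄)` is divisible we may suppose `D = w`.  Let `σ` be an
automorphism of `k̄` over `k` which maps `√t` to `-√t` and fixes `√s`, `√(s - 1)` and all elements
which are algebraic over `ℂ(s)`, and let `φ` be an automorphism which commutes with `σ`.  Then `σ`
acts on `J[2]` as the identity and on `c_φ` (which is in `J[4]`) as `-1`, so that
`2 c_φ = c_φ - σ c_φ = c_σ - φ c_σ` and `w + c_σ` is invariant under `φ`.  Here `c_σ` is in `J[2]`,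
so `w + c_σ` is a theta characteristic.  There are automorphisms `φ₁`, `φ₂` as above which generate a
group acting on the roots `±√s, ±√(s-1), ±√(s(s-1))` as a Klein four-group, and no theta
characteristic is invariant under both.
-/

open Polynomial Pool.Agent.W620.PO

namespace Pool.Agent.Results.MP_0fba91_ag.NotDivisible

/-- The field `ℂ(s)` of rational functions over the complex numbers. -/
def Cs : Type := RatFunc ℂ

noncomputable instance : Field Cs := RatFunc.instField ℂ

/-- The field `k = ℂ(s)(t)`. -/
def Kst : Type := RatFunc Cs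

noncomputable instance : Field Kst := RatFunc.instField Cs

/-- The variable `s`, as an element of `ℂ(s)`. -/
noncomputable def s₀ : Cs := (RatFunc.X : RatFunc ℂ)

/-- The variable `s`, as an element of `k = ℂ(s)(t)`. -/
noncomputable def s : Kst := (RatFunc.C s₀ : RatFunc Cs)

/-- The variable `t`, as an element of `k = ℂ(s)(t)`. -/
noncomputable def t : Kst := (RatFunc.X : RatFunc Cs)

/-- Let `k = ℂ(s)(t)` and let `X` be the genus two curve
`y² = t (x² - s) (x² - (s - 1)) (x² - s (s - 1))` over `k`. There is exactly one element of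
`H¹(k, J)` which is the class of `Pic¹`, and it is not divisible by two. -/
theorem result : ∃ Y : GenusTwoCurve Kst,
    Y.f = C t * (X ^ 2 - C s) * (X ^ 2 - C (s - 1)) * (X ^ 2 - C (s * (s - 1))) ∧
    (∃! ζ : Y.H1, Y.IsPicOneClass ζ) ∧
    ∀ ζ : Y.H1, Y.IsPicOneClass ζ → ¬ ∃ η : Y.H1, ζ = η + η := by
  have h0 : CharZero Cs := inferInstanceAs (CharZero (RatFunc ℂ))
  have h1 : ∀ r : Cs, r ^ 2 ≠ s₀ := not_sq_s
  have h2 : ∀ r : Cs, r ^ 2 ≠ s₀ - 1 := not_sq_s1
  have h3 : ∀ r : Cs, r ^ 2 ≠ s₀ * (s₀ - 1) := not_sq_ss1
  obtain ⟨Y, h4, h5⟩ := main (E0 := Cs) (algebraMap ℂ (RatFunc ℂ) : ℂ →+* RatFunc ℂ)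
    s₀ (s₀ - 1) h1 h2 h3
  refine ⟨Y, ?_, h5⟩
  have h6 : sextic s₀ (s₀ - 1) = C (RatFunc.X : RatFunc Cs) * (X ^ 2 - C (RatFunc.C s₀))
      * (X ^ 2 - C (RatFunc.C s₀ - 1)) * (X ^ 2 - C (RatFunc.C s₀ * (RatFunc.C s₀ - 1))) := by
    unfold sextic
    rw [map_mul (algebraMap Cs (RatFunc Cs)), map_sub (algebraMap Cs (RatFunc Cs)), map_one]
    rfl
  rw [h6] at h4
  exact h4

end Pool.Agent.Results.MP_0fba91_ag.NotDivisible
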