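import Mathlib

/-! # The function field of `y² = f(x)` -/

set_option autoImplicit false
set_option linter.style.haveILetI false

open Polynomial

namespace Pool.Agent.W620.PO

/-- A polynomial with a simple root is not a square. -/
theorem not_sq {L : Type} [Field L] (p : L[X]) (a : L) (h0 : p.eval a = 0)
    (h1 : p.derivative.eval a ≠ 0) (r : RatFunc L) :
    r ^ 2 ≠ algebraMap L[X] (RatFunc L) p := by
  intro h
  obtain ⟨q, hq⟩ := IsIntegrallyClosed.exists_algebraMap_eq_of_isIntegral_pow (R := L[X])
    (K := RatFunc L) (x := r) (n := 2) two_pos (by rw [h]; exact isIntegral_algebraMap)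
  have h2 : q ^ 2 = p := by
    apply IsFractionRing.injective L[X] (RatFunc L)
    rw [map_pow, hq, h]
  have h3 : q.eval a = 0 := by
    rw [← h2, eval_pow] at h0
    exact pow_eq_zero_iff (two_ne_zero) |>.1 h0
  apply h1
  rw [← h2, derivative_pow]
  simp [h3]

theorem exists_model (L : Type) [Field L] (f : L[X]) (a : L) (h0 : f.eval a = 0)
    (h1 : f.derivative.eval a ≠ 0) :
    ∃ (K : Type) (_ : Field K) (_ : Algebra L K) (x y : K), (∀ p : L[X], aeval x p = 0 → p = 0) ∧
      y ^ 2 = aeval x f ∧
      (∀ S : Subfield K, (∀ c : L, algebraMap L K c ∈ S) → x ∈ S → y ∈ S → S = ⊤) ∧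
      (∀ (τ : L ≃+* L) (ε : K), f.map (τ : L →+* L) = f → ε ^ 2 = 1 →
        ∃ φ : K →+* K, (∀ c, φ (algebraMap L K c) = algebraMap L K (τ c)) ∧ φ x = x ∧
          φ y = ε * y) := by
  let F : RatFunc L := algebraMap L[X] (RatFunc L) f
  haveI hirr : Fact (Irreducible (X ^ 2 - C F : (RatFunc L)[X])) :=
    ⟨X_pow_sub_C_irreducible_of_prime Nat.prime_two (fun r => not_sq f a h0 h1 r)⟩
  let K : Type := AdjoinRoot (X ^ 2 - C F : (RatFunc L)[X])
  let x : K := algebraMap (RatFunc L) K RatFunc.X
  let y : K := AdjoinRoot.root (X ^ 2 - C F : (RatFunc L)[X])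
  have hev : ∀ p : L[X], aeval x p = algebraMap (RatFunc L) K (algebraMap L[X] (RatFunc L) p) := by
    intro p
    have e1 : aeval (RatFunc.X : RatFunc L) p = algebraMap L[X] (RatFunc L) p := by
      rw [← RatFunc.algebraMap_X, aeval_algebraMap_apply, aeval_X_left_apply]
    rw [← e1]
    exact aeval_algebraMap_apply K RatFunc.X p
  have htrans : ∀ p : L[X], aeval x p = 0 → p = 0 := by
    intro p hp
    rw [hev] at hp
    have h2 := (_root_.map_eq_zero _).1 hp
    exact (IsFractionRing.injective L[X] (RatFunc L)) (by rw [h2, map_zero])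
  have hy : y ^ 2 = aeval x f := by
    have h2 : aeval y (X ^ 2 - C F : (RatFunc L)[X]) = 0 := AdjoinRoot.aeval_eq _ |>.trans
      AdjoinRoot.mk_self
    rw [map_sub, map_pow, aeval_X, aeval_C, sub_eq_zero] at h2
    rw [h2, hev]
  refine ⟨K, inferInstance, inferInstance, x, y, htrans, hy, ?_, ?_⟩
  · intro S hc hx hyS
    rw [eq_top_iff]
    rintro h -
    have hp : ∀ p : L[X], algebraMap (RatFunc L) K (algebraMap L[X] (RatFunc L) p) ∈ S := by
      intro p
      rw [← hev, aeval_eq_sum_range]
      refine S.sum_mem fun i _ => ?_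
      rw [Algebra.smul_def]
      exact S.mul_mem (hc _) (S.pow_mem hx _)
    have hR : ∀ r : RatFunc L, algebraMap (RatFunc L) K r ∈ S := by
      intro r
      obtain ⟨n, d, hd, rfl⟩ := IsFractionRing.div_surjective (A := L[X]) r
      rw [map_div₀]
      exact S.div_mem (hp n) (hp d)
    induction h using AdjoinRoot.induction_on with
    | ih p =>
      rw [← AdjoinRoot.aeval_eq, aeval_eq_sum_range]
      refine S.sum_mem fun i _ => ?_
      rw [Algebra.smul_def]
      exact S.mul_mem (hR _) (S.pow_mem hyS _)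
  · intro τ ε hτ hε
    let g : L[X] →+* K := eval₂RingHom ((algebraMap L K).comp (τ : L →+* L)) x
    have hg : ∀ p, g p = aeval x (p.map (τ : L →+* L)) := by
      intro p
      rw [aeval_def, eval₂_map]
      rfl
    have hginj : Function.Injective g := by
      rw [injective_iff_map_eq_zero]
      intro p hp
      rw [hg] at hp
      exact (Polynomial.map_eq_zero _).1 (htrans _ hp)
    let i : RatFunc L →+* K := IsFractionRing.lift (A := L[X]) (K := RatFunc L) (L := K) hginj
    have hi : ∀ p, i (algebraMap L[X] (RatFunc L) p) = aeval x (p.map (τ : L →+* L)) := by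
      intro p
      rw [← hg]
      exact IsFractionRing.lift_algebraMap hginj p
    refine ⟨AdjoinRoot.lift i (ε * y) ?_, ?_, ?_, ?_⟩
    · rw [eval₂_sub, eval₂_pow, eval₂_X, eval₂_C, mul_pow, hε, one_mul, hy]
      change _ - i (algebraMap L[X] (RatFunc L) f) = 0
      rw [hi, hτ, sub_self]
    · intro c
      have h2 : algebraMap L K c = AdjoinRoot.of (X ^ 2 - C F : (RatFunc L)[X])
          (algebraMap L[X] (RatFunc L) (C c)) := by
        rw [RatFunc.algebraMap_C]
        rfl
      rw [h2, AdjoinRoot.lift_of, hi, map_C, aeval_C]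
      rfl
    · change AdjoinRoot.lift i (ε * y) _ (AdjoinRoot.of _ (RatFunc.X)) = _
      rw [AdjoinRoot.lift_of, ← RatFunc.algebraMap_X, hi, map_X, aeval_X]
    · exact AdjoinRoot.lift_root _

end Pool.Agent.W620.PO
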