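import Pool.Agent.W620.PO.Rot
import Pool.Agent.W620.PO.Model

/-! # Commuting automorphisms of an algebraic closure of `ℂ(s)(t)` -/

set_option autoImplicit false
set_option linter.unusedSectionVars false
set_option linter.style.haveILetI false

open Polynomial

namespace Pool.Agent.W620.PO

open Pool.Agent.Helper165.P1 Pool.Agent.W620.SB

section

variable {E0 : Type} [Field E0] (i0 : ℂ →+* E0)

/-- The inclusion of the complex numbers. -/
noncomputable def iC : ℂ →+* AlgebraicClosure E0 := (algebraMap E0 (AlgebraicClosure E0)).comp i0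

/-- The character `q ↦ exp (2 π i q)`. -/
noncomputable def chi (q : ℚ) : AlgebraicClosure E0 :=
  iC i0 (Complex.exp (2 * Real.pi * Complex.I * q))

theorem chi_zero : chi i0 0 = 1 := by
  unfold chi
  simp

theorem chi_add (a b : ℚ) : chi i0 (a + b) = chi i0 a * chi i0 b := by
  unfold chi
  rw [← map_mul, ← Complex.exp_add]
  congr 2
  push_cast
  ring

theorem chi_one : chi i0 1 = 1 := by
  unfold chi
  rw [Rat.cast_one, mul_one, Complex.exp_two_pi_mul_I, map_one]

theorem chi_half : chi i0 (1 / 2) = -1 := by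
  unfold chi
  have : (2 * Real.pi * Complex.I * ((1 / 2 : ℚ) : ℂ)) = Real.pi * Complex.I := by
    push_cast; ring
  rw [this, Complex.exp_pi_mul_I, map_neg, map_one]

/-- The rotation. -/
noncomputable def rt : Pui (AlgebraicClosure E0) →+* Pui (AlgebraicClosure E0) :=
  rot (chi i0) (chi_zero i0) (chi_add i0)

/-- The inverse rotation. -/
noncomputable def rt' : Pui (AlgebraicClosure E0) →+* Pui (AlgebraicClosure E0) :=
  rot (fun q => chi i0 (-q)) (by rw [neg_zero, chi_zero]) (fun a b => by rw [neg_add, chi_add])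

theorem rt_rt' (x : Pui (AlgebraicClosure E0)) : rt i0 (rt' i0 x) = x := by
  apply cf_ext
  intro q
  change chi i0 q * (chi i0 (-q) * cf x q) = _
  rw [← mul_assoc, ← chi_add, add_neg_cancel, chi_zero, one_mul]

theorem rt'_rt (x : Pui (AlgebraicClosure E0)) : rt' i0 (rt i0 x) = x := by
  apply cf_ext
  intro q
  change chi i0 (-q) * (chi i0 q * cf x q) = _
  rw [← mul_assoc, ← chi_add, neg_add_cancel, chi_zero, one_mul]

variable (E0) in
/-- The evaluation of polynomials. -/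
noncomputable def evH : E0[X] →+* Pui (AlgebraicClosure E0) :=
  eval₂RingHom ((cst (E := AlgebraicClosure E0)).comp (algebraMap E0 (AlgebraicClosure E0))) tt

theorem evH_inj : Function.Injective (evH E0) := by
  rw [injective_iff_map_eq_zero]
  intro p hp
  ext n
  have h := cf_eval (algebraMap E0 (AlgebraicClosure E0)) p n
  have h2 : cf (eval₂ ((cst (E := AlgebraicClosure E0)).comp
      (algebraMap E0 (AlgebraicClosure E0))) tt p) (n : ℚ) = 0 := by
    have : eval₂ ((cst (E := AlgebraicClosure E0)).comp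
      (algebraMap E0 (AlgebraicClosure E0))) tt p = 0 := hp
    rw [this]
    rfl
  rw [h2] at h
  rw [coeff_zero]
  exact ((_root_.map_eq_zero _).1 h.symm)

variable (E0) in
/-- The inclusion of `E0(t)` in the field of Puiseux series. -/
noncomputable def kH : RatFunc E0 →+* Pui (AlgebraicClosure E0) :=
  IsFractionRing.lift (A := E0[X]) (K := RatFunc E0) (L := Pui (AlgebraicClosure E0)) evH_inj

theorem kH_poly (p : E0[X]) : kH E0 (algebraMap E0[X] (RatFunc E0) p) = evH E0 p :=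
  IsFractionRing.lift_algebraMap evH_inj p

/-- A ring homomorphism which fixes `E0` and `t` fixes `E0(t)`. -/
theorem fix_kH (f : Pui (AlgebraicClosure E0) →+* Pui (AlgebraicClosure E0))
    (h1 : ∀ c : E0, f (cst (algebraMap E0 (AlgebraicClosure E0) c))
      = cst (algebraMap E0 (AlgebraicClosure E0) c)) (h2 : f tt = tt) (r : RatFunc E0) :
    f (kH E0 r) = kH E0 r := by
  have h3 : ∀ p : E0[X], f (evH E0 p) = evH E0 p := by
    intro p
    have h4 : f.comp (evH E0) = evH E0 := by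
      refine Polynomial.ringHom_ext (fun c => ?_) ?_
      · simp [evH, h1]
      · simp [evH, h2]
    exact congrArg (fun g : E0[X] →+* Pui (AlgebraicClosure E0) => g p) h4
  obtain ⟨n, d, hd, rfl⟩ := IsFractionRing.div_surjective (A := E0[X]) r
  rw [map_div₀, kH_poly, kH_poly, map_div₀, h3, h3]

end

theorem exists_signs {E0 E1 : Type} [Field E0] [Field E1] [CharZero E0] [Algebra E0 E1]
    [IsAlgClosure E0 E1] (u v : E0) (hu : ∀ r : E0, r ^ 2 ≠ u) (hv : ∀ r : E0, r ^ 2 ≠ v)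
    (huv : ∀ r : E0, r ^ 2 ≠ u * v) (a b : E1) (ha : a ^ 2 = algebraMap E0 E1 u)
    (hb : b ^ 2 = algebraMap E0 E1 v) :
    (∃ φ : Gal(E1/E0), φ a = -a ∧ φ b = b) ∧ (∃ φ : Gal(E1/E0), φ a = a ∧ φ b = -b) := by
  haveI : IsAlgClosed E1 := IsAlgClosure.isAlgClosed E0
  haveI : Algebra.IsAlgebraic E0 E1 := IsAlgClosure.isAlgebraic
  haveI : Normal E0 E1 := IsAlgClosure.normal E0 E1
  haveI : IsGalois E0 E1 := {}
  have key : ∀ (w : E0) (z : E1), (∀ r : E0, r ^ 2 ≠ w) → z ^ 2 = algebraMap E0 E1 w →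
      ∃ φ : Gal(E1/E0), φ z ≠ z := by
    intro w z hw hz
    by_contra hc
    push Not at hc
    have h1 : z ∈ (⊥ : IntermediateField E0 E1) := (InfiniteGalois.mem_bot_iff_fixed z).2 hc
    obtain ⟨r, hr⟩ := IntermediateField.mem_bot.1 h1
    apply hw r
    apply (algebraMap E0 E1).injective
    rw [map_pow, hr, hz]
  have sgn : ∀ (w : E0) (z : E1), z ^ 2 = algebraMap E0 E1 w → ∀ φ : Gal(E1/E0),
      φ z = z ∨ φ z = -z := by
    intro w z hz φ
    apply sq_eq_sq_iff_eq_or_eq_neg.1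
    rw [← map_pow, hz, AlgEquiv.commutes]
  obtain ⟨g1, hg1⟩ := key u a hu ha
  obtain ⟨g2, hg2⟩ := key v b hv hb
  obtain ⟨g3, hg3⟩ := key (u * v) (a * b) huv (by rw [mul_pow, ha, hb, map_mul])
  have h1 := (sgn u a ha g1).resolve_left hg1
  have h2 := (sgn v b hb g2).resolve_left hg2
  have hab : (g3 a = -a ∧ g3 b = b) ∨ (g3 a = a ∧ g3 b = -b) := by
    rcases sgn u a ha g3 with h3 | h3 <;> rcases sgn v b hb g3 with h4 | h4
    · exact absurd (by rw [map_mul, h3, h4]) hg3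
    · exact Or.inr ⟨h3, h4⟩
    · exact Or.inl ⟨h3, h4⟩
    · exact absurd (by rw [map_mul, h3, h4, neg_mul_neg]) hg3
  constructor
  · rcases sgn v b hb g1 with h3 | h3
    · exact ⟨g1, h1, h3⟩
    rcases hab with h4 | ⟨h4, h5⟩
    · exact ⟨g3, h4⟩
    · refine ⟨g1 * g3, ?_, ?_⟩
      · rw [AlgEquiv.mul_apply, h4, h1]
      · rw [AlgEquiv.mul_apply, h5, map_neg, h3, neg_neg]
  · rcases sgn u a ha g2 with h3 | h3
    · exact ⟨g2, h3, h2⟩
    rcases hab with ⟨h4, h5⟩ | h4
    · refine ⟨g2 * g3, ?_, ?_⟩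
      · rw [AlgEquiv.mul_apply, h4, map_neg, h3, neg_neg]
      · rw [AlgEquiv.mul_apply, h5, h2]
    · exact ⟨g3, h4⟩

section

variable {E0 : Type} [Field E0]

theorem kH_t : kH E0 RatFunc.X = tt := by
  rw [← RatFunc.algebraMap_X, kH_poly]
  simp [evH]

theorem kH_const (c : E0) : kH E0 (algebraMap E0 (RatFunc E0) c)
    = cst (algebraMap E0 (AlgebraicClosure E0) c) := by
  have : algebraMap E0 (RatFunc E0) c = algebraMap E0[X] (RatFunc E0) (C c) := by
    rw [RatFunc.algebraMap_C]; rfl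
  rw [this, kH_poly]
  simp [evH]

end

theorem not_sq_s (r : RatFunc ℂ) : r ^ 2 ≠ RatFunc.X := by
  have h := not_sq (L := ℂ) X 0 (by simp) (by simp) r
  rwa [RatFunc.algebraMap_X] at h

theorem not_sq_s1 (r : RatFunc ℂ) : r ^ 2 ≠ RatFunc.X - 1 := by
  have h := not_sq (L := ℂ) (X - 1) 1 (by simp) (by simp) r
  rwa [map_sub, RatFunc.algebraMap_X, map_one] at h

theorem not_sq_ss1 (r : RatFunc ℂ) : r ^ 2 ≠ RatFunc.X * (RatFunc.X - 1) := by
  have h := not_sq (L := ℂ) (X * (X - 1)) 0 (by simp) (by simp) r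
  rwa [map_mul, map_sub, RatFunc.algebraMap_X, map_one] at h

section

variable {E0 : Type} [Field E0] [CharZero E0]

theorem exists_galois (i0 : ℂ →+* E0) (u v : E0)
    (hu : ∀ r : E0, r ^ 2 ≠ u) (hv : ∀ r : E0, r ^ 2 ≠ v) (huv : ∀ r : E0, r ^ 2 ≠ u * v) :
    ∃ (A : Subfield (AlgebraicClosure (RatFunc E0)))
    (σ φ1 φ2 : Gal(AlgebraicClosure (RatFunc E0)/RatFunc E0))
    (a b s : AlgebraicClosure (RatFunc E0)),
    a ^ 2 = algebraMap (RatFunc E0) (AlgebraicClosure (RatFunc E0)) (algebraMap E0 (RatFunc E0) u) ∧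
    b ^ 2 = algebraMap (RatFunc E0) (AlgebraicClosure (RatFunc E0)) (algebraMap E0 (RatFunc E0) v) ∧
    s ^ 2 = algebraMap (RatFunc E0) (AlgebraicClosure (RatFunc E0)) RatFunc.X ∧ a ∈ A ∧ b ∈ A ∧ (∀ c, c ^ 2 ∈ A → c ∈ A) ∧
    (∀ c ∈ A, σ c = c) ∧ σ s = -s ∧ φ1 a = -a ∧ φ1 b = b ∧ φ2 a = a ∧ φ2 b = -b ∧
    σ * φ1 = φ1 * σ ∧ σ * φ2 = φ2 * σ := by
  letI i1 : Algebra (RatFunc E0) (Pui (AlgebraicClosure E0)) := (kH E0).toAlgebra
  have hi1 : ∀ r, algebraMap (RatFunc E0) (Pui (AlgebraicClosure E0)) r = kH E0 r := fun r => rfl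
  haveI hcl : IsAlgClosed (Pui (AlgebraicClosure E0)) := inferInstance
  let j : (AlgebraicClosure (RatFunc E0)) →ₐ[(RatFunc E0)] Pui (AlgebraicClosure E0) := IsAlgClosed.lift
  letI i2 : Algebra (AlgebraicClosure (RatFunc E0)) (Pui (AlgebraicClosure E0)) := j.toRingHom.toAlgebra
  have hi2 : ∀ r, algebraMap (AlgebraicClosure (RatFunc E0)) (Pui (AlgebraicClosure E0)) r = j r := fun r => rfl
  haveI tow : IsScalarTower (RatFunc E0) (AlgebraicClosure (RatFunc E0)) (Pui (AlgebraicClosure E0)) :=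
    IsScalarTower.of_algebraMap_eq (fun r => (j.commutes r).symm)
  haveI hn : Normal (RatFunc E0) (AlgebraicClosure (RatFunc E0)) := IsAlgClosure.normal (RatFunc E0) (AlgebraicClosure (RatFunc E0))
  let res := AlgEquiv.restrictNormalHom (F := (RatFunc E0)) (K₁ := Pui (AlgebraicClosure E0)) (AlgebraicClosure (RatFunc E0))
  have hres : ∀ (g : Pui (AlgebraicClosure E0) ≃ₐ[(RatFunc E0)] Pui (AlgebraicClosure E0)) (x : (AlgebraicClosure (RatFunc E0))), j (res g x) = g (j x) := fun g x =>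
    AlgEquiv.restrictNormal_commutes g (AlgebraicClosure (RatFunc E0)) x
  have jinj : Function.Injective j := j.toRingHom.injective
  let A : Subfield (AlgebraicClosure (RatFunc E0)) := (cst (E := (AlgebraicClosure E0))).fieldRange.comap j.toRingHom
  have hA : ∀ c, c ∈ A ↔ ∃ e, cst e = j c := fun c => Iff.rfl
  have hsq : ∀ c, c ^ 2 ∈ A → c ∈ A := by
    intro c hc
    obtain ⟨e, he⟩ := (hA _).1 hc
    obtain ⟨e', he'⟩ := IsAlgClosed.exists_pow_nat_eq e (n := 2) two_pos
    rw [hA]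
    rw [← he', map_pow, map_pow, sq_eq_sq_iff_eq_or_eq_neg] at he
    rcases he with h | h
    · exact ⟨e', h⟩
    · exact ⟨-e', by rw [map_neg, h, neg_neg]⟩
  obtain ⟨a, ha⟩ := IsAlgClosed.exists_pow_nat_eq (algebraMap (RatFunc E0) (AlgebraicClosure (RatFunc E0)) (algebraMap E0 (RatFunc E0) u)) (n := 2) two_pos
  obtain ⟨b, hb⟩ := IsAlgClosed.exists_pow_nat_eq (algebraMap (RatFunc E0) (AlgebraicClosure (RatFunc E0)) (algebraMap E0 (RatFunc E0) v)) (n := 2) two_pos
  obtain ⟨s, hs⟩ := IsAlgClosed.exists_pow_nat_eq (algebraMap (RatFunc E0) (AlgebraicClosure (RatFunc E0)) RatFunc.X) (n := 2) two_pos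
  have hconst : ∀ c : E0, j (algebraMap (RatFunc E0) (AlgebraicClosure (RatFunc E0)) (algebraMap E0 (RatFunc E0) c)) = cst (algebraMap E0 (AlgebraicClosure E0) c) := by
    intro c
    rw [j.commutes, hi1, kH_const]
  have hconstA : ∀ c : E0, algebraMap (RatFunc E0) (AlgebraicClosure (RatFunc E0)) (algebraMap E0 (RatFunc E0) c) ∈ A := fun c =>
    (hA _).2 ⟨_, (hconst c).symm⟩
  have haA : a ∈ A := hsq a (by rw [ha]; exact hconstA _)
  have hbA : b ∈ A := hsq b (by rw [hb]; exact hconstA _)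
  obtain ⟨a', ha'⟩ := (hA a).1 haA
  obtain ⟨b', hb'⟩ := (hA b).1 hbA
  have cinj : Function.Injective (cst (E := (AlgebraicClosure E0))) := RingHom.injective _
  have ha2 : a' ^ 2 = algebraMap E0 (AlgebraicClosure E0) u := by
    apply cinj
    rw [map_pow, ha', ← map_pow, ha]
    exact hconst _
  have hb2 : b' ^ 2 = algebraMap E0 (AlgebraicClosure E0) v := by
    apply cinj
    rw [map_pow, hb', ← map_pow, hb]
    exact hconst _
  obtain ⟨⟨f1, hf1a, hf1b⟩, ⟨f2, hf2a, hf2b⟩⟩ := exists_signs u v hu hv huv a' b' ha2 hb2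
  -- the automorphisms of the field of Puiseux series
  let mk : ∀ (f g : Pui (AlgebraicClosure E0) →+* Pui (AlgebraicClosure E0)), (∀ x, f (g x) = x) → (∀ x, g (f x) = x) →
      (∀ c : E0, f (cst (algebraMap E0 (AlgebraicClosure E0) c)) = cst (algebraMap E0 (AlgebraicClosure E0) c)) → f tt = tt →
      (Pui (AlgebraicClosure E0) ≃ₐ[(RatFunc E0)] Pui (AlgebraicClosure E0)) := fun f g hfg hgf h1 h2 =>
    AlgEquiv.ofRingEquiv (f := RingEquiv.ofRingHom f g (RingHom.ext hfg) (RingHom.ext hgf))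
      (fun r => fix_kH f h1 h2 r)
  let R : Pui (AlgebraicClosure E0) ≃ₐ[(RatFunc E0)] Pui (AlgebraicClosure E0) := mk (rt i0) (rt' i0) (rt_rt' i0) (rt'_rt i0) (fun c => rot_cst _ _ _ _)
    (rot_tt _ _ _ (chi_one i0))
  have hR : ∀ x, R x = rt i0 x := fun x => rfl
  have act_inv : ∀ (f : Gal((AlgebraicClosure E0)/E0)) (x : Pui (AlgebraicClosure E0)), act (f : (AlgebraicClosure E0) →+* (AlgebraicClosure E0)) (act (f⁻¹ : Gal((AlgebraicClosure E0)/E0)) x) = x := by
    intro f x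
    apply cf_ext
    intro q
    rw [cf_act, cf_act]
    change f (f⁻¹ (cf x q)) = _
    rw [← AlgEquiv.mul_apply, mul_inv_cancel]
    rfl
  have act_inv' : ∀ (f : Gal((AlgebraicClosure E0)/E0)) (x : Pui (AlgebraicClosure E0)), act (f⁻¹ : Gal((AlgebraicClosure E0)/E0)) (act (f : (AlgebraicClosure E0) →+* (AlgebraicClosure E0)) x) = x := by
    intro f x
    have := act_inv f⁻¹ x
    rwa [inv_inv] at this
  let B : Gal((AlgebraicClosure E0)/E0) → (Pui (AlgebraicClosure E0) ≃ₐ[(RatFunc E0)] Pui (AlgebraicClosure E0)) := fun f => mk (act (f : (AlgebraicClosure E0) →+* (AlgebraicClosure E0)))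
    (act (f⁻¹ : Gal((AlgebraicClosure E0)/E0))) (act_inv f) (act_inv' f)
    (fun c => by rw [act_cst]; exact congrArg cst (f.commutes c)) (act_tt _)
  have hB : ∀ f x, B f x = act (f : (AlgebraicClosure E0) →+* (AlgebraicClosure E0)) x := fun f x => rfl
  have hRB : ∀ f, R * B f = B f * R := by
    intro f
    ext1 x
    rw [AlgEquiv.mul_apply, AlgEquiv.mul_apply, hR, hB, hR, hB]
    refine rot_act (chi i0) (chi_zero i0) (chi_add i0) _ (fun q => ?_) x
    exact f.commutes _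
  refine ⟨A, res R, res (B f1), res (B f2), a, b, s, ha, hb, hs, haA, hbA, hsq, ?_, ?_, ?_, ?_, ?_,
    ?_, ?_, ?_⟩
  · intro c hc
    apply jinj
    obtain ⟨e, he⟩ := (hA c).1 hc
    rw [hres, ← he, hR]
    exact rot_cst _ _ _ _
  · apply jinj
    rw [hres, map_neg, hR]
    have h1 : (j s) ^ 2 = (hh : Pui (AlgebraicClosure E0)) ^ 2 := by
      rw [← map_pow, hs, j.commutes, hi1, kH_t, hh_sq]
    have h2 : rt i0 (hh : Pui (AlgebraicClosure E0)) = -hh := rot_hh _ _ _ (chi_half i0)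
    rcases sq_eq_sq_iff_eq_or_eq_neg.1 h1 with h | h
    · rw [h, h2]
    · rw [h, map_neg, h2]
  · apply jinj
    rw [hres, map_neg, hB, ← ha', act_cst]
    change cst (f1 a') = _
    rw [hf1a, map_neg]
  · apply jinj
    rw [hres, hB, ← hb', act_cst]
    change cst (f1 b') = _
    rw [hf1b]
  · apply jinj
    rw [hres, hB, ← ha', act_cst]
    change cst (f2 a') = _
    rw [hf2a]
  · apply jinj
    rw [hres, map_neg, hB, ← hb', act_cst]
    change cst (f2 b') = _
    rw [hf2b, map_neg]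
  · rw [← map_mul, ← map_mul, hRB]
  · rw [← map_mul, ← map_mul, hRB]

end

end Pool.Agent.W620.PO
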