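import Pool.Agent.W620.PO.Tors

/-! # Halving divisor classes -/

set_option autoImplicit false
set_option linter.unusedSectionVars false
set_option linter.unusedVariables false

open Polynomial

namespace Pool.Agent.W620.PO

section

variable {L : Type} [Field L]

/-- elementary symmetric functions -/
def e1 (r : Fin 5 → L) : L := r 0 + r 1 + r 2 + r 3 + r 4
/-- elementary symmetric functions -/
def e2 (r : Fin 5 → L) : L := r 0 * r 1 + r 0 * r 2 + r 0 * r 3 + r 0 * r 4 + r 1 * r 2 + r 1 * r 3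
  + r 1 * r 4 + r 2 * r 3 + r 2 * r 4 + r 3 * r 4
/-- elementary symmetric functions -/
def e3 (r : Fin 5 → L) : L := r 0 * r 1 * r 2 + r 0 * r 1 * r 3 + r 0 * r 1 * r 4 + r 0 * r 2 * r 3
  + r 0 * r 2 * r 4 + r 0 * r 3 * r 4 + r 1 * r 2 * r 3 + r 1 * r 2 * r 4 + r 1 * r 3 * r 4
  + r 2 * r 3 * r 4
/-- elementary symmetric functions -/
def e4 (r : Fin 5 → L) : L := r 0 * r 1 * r 2 * r 3 + r 0 * r 1 * r 2 * r 4 + r 0 * r 1 * r 3 * r 4
  + r 0 * r 2 * r 3 * r 4 + r 1 * r 2 * r 3 * r 4
/-- elementary symmetric functions -/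
def e5 (r : Fin 5 → L) : L := r 0 * r 1 * r 2 * r 3 * r 4

/-- The polynomial `v`. -/
noncomputable def vp (a : L) (r : Fin 5 → L) : L[X] :=
  C (e5 r) + C (e3 r) * (C a - X) + C (e1 r) * (C a - X) ^ 2

/-- The polynomial `U`. -/
noncomputable def up (a : L) (r : Fin 5 → L) : L[X] :=
  C (e4 r) + C (e2 r) * (C a - X) + (C a - X) ^ 2

theorem vp_eval (a : L) (r : Fin 5 → L) : (vp a r).eval a = e5 r := by
  simp [vp]

theorem vp_natDegree (a : L) (r : Fin 5 → L) : (vp a r).natDegree ≤ 2 := by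
  unfold vp
  have h1 : (C a - X : L[X]).natDegree ≤ 1 := by
    refine (natDegree_sub_le _ _).trans ?_
    simp
  refine (natDegree_add_le _ _).trans (max_le ((natDegree_add_le _ _).trans (max_le ?_ ?_)) ?_)
  · simp
  · exact (natDegree_C_mul_le _ _).trans (h1.trans (by norm_num))
  · refine (natDegree_C_mul_le _ _).trans (natDegree_pow_le.trans ?_)
    omega

end

theorem exists_half {α : Type} (g : α →₀ ℤ) (h : ∀ x, Even (g x)) : ∃ E : α →₀ ℤ, (2 : ℤ) • E = g := by
  refine ⟨g.mapRange (· / 2) (by norm_num), ?_⟩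
  ext x
  rw [Finsupp.smul_apply, Finsupp.mapRange_apply, smul_eq_mul]
  obtain ⟨k, hk⟩ := h x
  omega

theorem two_smul_inj {α : Type} {g g' : α →₀ ℤ} (h : (2 : ℤ) • g = (2 : ℤ) • g') : g = g' := by
  ext x
  have h1 := congrArg (fun f : α →₀ ℤ => f x) h
  simp only [Finsupp.smul_apply, smul_eq_mul] at h1
  omega

namespace Hyp

variable {L K : Type} [Field L] [Field K] [Algebra L K] (H : Hyp L K)
variable [IsAlgClosed L] [CharZero L]

theorem exists_r (a b : L) (hb : b ^ 2 = H.F.eval a) :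
    ∃ r : Fin 5 → L, (∀ i, r i ^ 2 = a - H.β i) ∧ e5 r = b := by
  choose r hr using fun i => IsAlgClosed.exists_pow_nat_eq (a - H.β i) (n := 2) two_pos
  have h1 : (e5 r) ^ 2 = b ^ 2 := by
    rw [hb]
    unfold F
    rw [eval_prod, Fin.prod_univ_five]
    simp only [eval_sub, eval_X, eval_C, ← hr]
    unfold e5
    ring
  rcases sq_eq_sq_iff_eq_or_eq_neg.1 h1 with h | h
  · exact ⟨r, hr, h⟩
  · refine ⟨fun i => if i = 0 then - r 0 else r i, fun i => ?_, ?_⟩
    · dsimp only
      split_ifs with hi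
      · rw [hi, neg_sq, hr]
      · exact hr i
    · unfold e5 at h ⊢
      simp only [if_pos, Fin.isValue, one_ne_zero, if_false]
      rw [if_neg (by decide), if_neg (by decide), if_neg (by decide)]
      linear_combination -h

theorem F_eq (a : L) (r : Fin 5 → L) (hr : ∀ i, r i ^ 2 = a - H.β i) :
    H.F = (vp a r) ^ 2 + (X - C a) * (up a r) ^ 2 := by
  have hβ : ∀ i, C (H.β i) = C a - C (r i) ^ 2 := by
    intro i
    rw [← C_pow, hr, C_sub]
    ring
  unfold F
  rw [Fin.prod_univ_five, hβ, hβ, hβ, hβ, hβ]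
  unfold vp up e1 e2 e3 e4 e5
  simp only [C_add, C_mul]
  ring

theorem fv_ne (v : L[X]) : H.y - H.ev v ≠ 0 := by
  intro h
  have h1 : H.ev (-v) + H.ev 1 * H.y = 0 := by
    have e1 : H.ev (-v) = - H.ev v := map_neg _ _
    have e2 : H.ev 1 = 1 := map_one _
    rw [e1, e2]
    linear_combination h
  exact one_ne_zero (H.indep _ _ h1).2

theorem ord_fv_nonneg (Q : Place L K) {a : L} (ha : 0 < Q.ord (H.xa a)) (v : L[X]) :
    0 ≤ Q.ord (H.y - H.ev v) := by
  have h := H.fv_ne v
  rw [sub_eq_add_neg] at h ⊢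
  refine Q.le_ord_add _ _ 0 h (fun _ => H.ord_y_nonneg Q ha) (fun h => ?_)
  rw [Q.ord_neg]
  refine H.ord_ev_nonneg Q ha v ?_
  rintro rfl
  simp [ev] at h

theorem ord_fv_val (Q : Place L K) {a b : L} (ha : 0 < Q.ord (H.xa a)) (hb : 0 < Q.ord (H.yb b))
    (v : L[X]) (h : b ≠ v.eval a) : Q.ord (H.y - H.ev v) = 0 := by
  have h1 := H.ord_val Q ha hb (-v) 1 (by
    rw [eval_neg, eval_one, one_mul]
    intro h2
    exact h (by linear_combination h2))
  have e1 : H.ev (-v) = - H.ev v := map_neg _ _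
  have e2 : H.ev 1 = 1 := map_one _
  rw [e1, e2] at h1
  rw [← h1]
  congr 1
  ring

theorem ord_fv_inf (v : L[X]) (hv : v.natDegree ≤ 2) : H.winf.ord (H.y - H.ev v) = -5 := by
  have h1 := (H.inf_aux _ H.winf_neg).2
  rw [sub_eq_add_neg, ← h1]
  refine (H.winf.ord_add_eq _ _ H.y_ne ?_).2
  by_cases h0 : v = 0
  · left
    rw [h0]
    simp [ev]
  · right
    rw [H.winf.ord_neg, h1, H.ord_ev_inf _ H.winf_neg v h0, (H.inf_aux _ H.winf_neg).1]
    have : (v.natDegree : ℤ) ≤ 2 := by exact_mod_cast hv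
    omega

theorem ext_center (P Q : Place L K) {a b : L} (ha : 0 < P.ord (H.xa a)) (hb : 0 < P.ord (H.yb b))
    (ha' : 0 < Q.ord (H.xa a)) (hb' : 0 < Q.ord (H.yb b)) (hbb : b ^ 2 = H.F.eval a) : P = Q := by
  by_cases h0 : b = 0
  · obtain ⟨i, rfl⟩ := H.exists_β (a := a) (by rw [← hbb, h0]; ring)
    exact H.ext_ram P Q ha ha'
  · exact H.ext_unr P Q h0 ha hb ha' hb'

theorem parity (P : Place L K) {a b : L} (ha : 0 < P.ord (H.xa a)) (hb : 0 < P.ord (H.yb b))
    (hbb : b ^ 2 = H.F.eval a) (r : Fin 5 → L) (hr : ∀ i, r i ^ 2 = a - H.β i) (hr5 : e5 r = b)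
    (Q : Place L K) (hQ : Q ≠ H.winf) :
    (Odd (Q.ord (H.y - H.ev (vp a r))) ∧ P = Q) ∨
      (Even (Q.ord (H.y - H.ev (vp a r))) ∧ P ≠ Q) := by
  have hF := H.F_eq a r hr
  have hva : (vp a r).eval a = b := by rw [vp_eval, hr5]
  obtain ⟨c, hc⟩ := (H.dich Q).resolve_left (fun h => hQ (H.winf_unique Q h))
  obtain ⟨d, hd, hcd⟩ := H.center Q hc
  generalize vp a r = v at *
  generalize up a r = U at *
  have hU : U ≠ 0 := by
    rintro rfl
    have h1 : v ^ 2 = 1 ^ 2 * H.F := by rw [hF]; ring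
    exact one_ne_zero (H.poly_aux v 1 h1).2
  have hprod : (H.y - H.ev v) * (H.y - H.ev (-v)) = H.xa a * H.ev U ^ 2 := by
    have e1 : H.ev (-v) = - H.ev v := map_neg _ _
    rw [e1, H.xa_eq, ← H.ev_pow, ← H.ev_mul]
    have h1 : (X - C a) * U ^ 2 = H.F - v ^ 2 := by rw [hF]; ring
    rw [h1, H.ev_sub, ← H.ysq, H.ev_pow]
    ring
  have hsum : Q.ord (H.y - H.ev v) + Q.ord (H.y - H.ev (-v))
      = Q.ord (H.xa a) + 2 * Q.ord (H.ev U) := by
    rw [← Q.ord_mul _ _ (H.fv_ne v) (H.fv_ne (-v)), hprod,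
      Q.ord_mul _ _ (H.xa_ne a) (pow_ne_zero 2 (H.ev_ne hU)), Q.ord_pow _ (H.ev_ne hU)]
    norm_num
  by_cases h1 : d = v.eval c
  · by_cases h2 : d = 0
    · -- `Q` is a Weierstrass place
      obtain ⟨i, rfl⟩ := H.exists_β (a := c) (by rw [← hd, h2]; ring)
      have hv0 : v.eval (H.β i) = 0 := by rw [← h1, h2]
      by_cases h3 : H.β i = a
      · left
        subst h3
        refine ⟨?_, H.ext_ram P Q ha hc⟩
        have hy := (H.ram_aux Q hc).2
        have h4 : Q.ord (H.y - H.ev v) = 1 := by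
          rw [← hy, sub_eq_add_neg]
          refine (Q.ord_add_eq _ _ H.y_ne ?_).2
          by_cases hv : v = 0
          · left
            rw [hv]
            simp [ev]
          · right
            rw [hy, Q.ord_neg, H.ord_ev_fin Q hc v hv, (H.ram_aux Q hc).1]
            have : 0 < v.rootMultiplicity (H.β i) := (rootMultiplicity_pos hv).2 hv0
            omega
        rw [h4]
        decide
      · exfalso
        have h4 : U.eval (H.β i) = 0 := by
          have h5 := congrArg (eval (H.β i)) hF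
          rw [H.F_eval_β, eval_add, eval_pow, hv0, eval_mul, eval_pow, eval_sub, eval_X,
            eval_C] at h5
          have h6 : (H.β i - a) * U.eval (H.β i) ^ 2 = 0 := by linear_combination -h5
          have h7 := (mul_eq_zero.1 h6).resolve_left (sub_ne_zero.2 h3)
          exact pow_eq_zero_iff (two_ne_zero) |>.1 h7
        obtain ⟨v', hv'⟩ := dvd_iff_isRoot.2 hv0
        obtain ⟨U', hU'⟩ := dvd_iff_isRoot.2 h4
        have h8 : (X - C (H.β i)) ^ 2 ∣ H.F := by
          rw [hF, hv', hU']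
          exact ⟨v' ^ 2 + (X - C a) * U' ^ 2, by ring⟩
        have h9 := (le_rootMultiplicity_iff H.F_ne).2 h8
        rw [H.F_mult] at h9
        omega
    · have h3 : Q.ord (H.y - H.ev (-v)) = 0 := by
        refine H.ord_fv_val Q hc hcd (-v) ?_
        rw [eval_neg, ← h1]
        intro h3
        apply h2
        have : 2 * d = 0 := by linear_combination h3
        simpa using this
      rw [h3, add_zero] at hsum
      by_cases h4 : c = a
      · left
        subst h4
        have h5 : d = b := by rw [h1, hva]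
        subst h5
        refine ⟨?_, H.ext_center P Q ha hb hc hcd hbb⟩
        rw [hsum, H.unr Q h2 hc hcd]
        exact ⟨Q.ord (H.ev U), by ring⟩
      · right
        refine ⟨?_, ?_⟩
        · rw [hsum, H.ord_xa_fin Q hc (Ne.symm h4)]
          exact ⟨Q.ord (H.ev U), by ring⟩
        · rintro rfl
          rw [H.ord_xa_fin _ hc (Ne.symm h4)] at ha
          exact lt_irrefl _ ha
  · right
    refine ⟨?_, ?_⟩
    · rw [H.ord_fv_val Q hc hcd v h1]
      decide
    · rintro rfl
      have h2 : c = a := by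
        by_contra h3
        rw [H.ord_xa_fin _ hc (Ne.symm h3)] at ha
        exact lt_irrefl _ ha
      have h3 : d = b := by
        by_contra h4
        rw [H.yb_excl _ h4 hcd] at hb
        exact lt_irrefl _ hb
      apply h1
      rw [h2, h3, hva]

theorem halve_aux (P : Place L K) {a b : L} (ha : 0 < P.ord (H.xa a)) (hb : 0 < P.ord (H.yb b))
    (hbb : b ^ 2 = H.F.eval a) (r : Fin 5 → L) (hr : ∀ i, r i ^ 2 = a - H.β i) (hr5 : e5 r = b) :
    ∃ E : Div L K, (2 : ℤ) • E = H.dv (H.y - H.ev (vp a r)) - Finsupp.single P 1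
      + Finsupp.single H.winf 5 := by
  classical
  apply exists_half
  intro Q
  rw [Finsupp.add_apply, Finsupp.sub_apply, H.dv_apply, Finsupp.single_apply,
    Finsupp.single_apply]
  by_cases hQ : Q = H.winf
  · have h1 : P ≠ Q := by
      rintro rfl
      rw [hQ, H.ord_xa_inf _ H.winf_neg] at ha
      exact lt_asymm ha H.winf_neg
    rw [if_neg h1, if_pos hQ.symm, hQ, H.ord_fv_inf _ (vp_natDegree a r)]
    decide
  · rw [if_neg (Ne.symm hQ), add_zero]
    rcases H.parity P ha hb hbb r hr hr5 Q hQ with ⟨⟨k, h1⟩, h2⟩ | ⟨h1, h2⟩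
    · rw [if_pos h2, h1]
      exact ⟨k, by ring⟩
    · rw [if_neg h2, sub_zero]
      exact h1

theorem halve_place (P : Place L K) : ∃ η : Div L K, η.degree = 0 ∧
    Finsupp.single P 1 - Finsupp.single H.winf 1 - (2 : ℤ) • η ∈ Prin L K := by
  by_cases hP : P = H.winf
  · refine ⟨0, map_zero _, ?_⟩
    rw [hP, sub_self, smul_zero, sub_zero]
    exact (Prin L K).zero_mem
  obtain ⟨a, ha⟩ := (H.dich P).resolve_left (fun h => hP (H.winf_unique P h))
  obtain ⟨b, hbb, hb⟩ := H.center P ha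
  obtain ⟨r, hr, hr5⟩ := H.exists_r a b hbb
  obtain ⟨E, hE⟩ := H.halve_aux P ha hb hbb r hr hr5
  have hdeg : E.degree = 2 := by
    have h1 := congrArg Finsupp.degree hE
    rw [two_smul, map_add, map_add, map_sub, H.degree_dv _ (H.fv_ne _), Finsupp.degree_single,
      Finsupp.degree_single] at h1
    omega
  refine ⟨Finsupp.single H.winf 2 - E, ?_, ?_⟩
  · rw [map_sub, Finsupp.degree_single, hdeg, sub_self]
  · have h2 : Finsupp.single P 1 - Finsupp.single H.winf 1
        - (2 : ℤ) • (Finsupp.single H.winf 2 - E) = H.dv (H.y - H.ev (vp a r)) := by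
      rw [smul_sub, hE]
      have h3 : (2 : ℤ) • (Finsupp.single H.winf (2 : ℤ)) = Finsupp.single H.winf 4 := by
        rw [Finsupp.smul_single]; rfl
      have h4 : (Finsupp.single H.winf (5 : ℤ)) = Finsupp.single H.winf 4
          + Finsupp.single H.winf 1 := by
        rw [← Finsupp.single_add]; rfl
      rw [h3, h4]
      abel
    rw [h2]
    exact H.dv_mem _ (H.fv_ne _)

/-- Every divisor class of degree zero is divisible by two. -/
theorem halve (D : Div L K) : ∃ η : Div L K, η.degree = 0 ∧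
    D - D.degree • Finsupp.single H.winf 1 - (2 : ℤ) • η ∈ Prin L K := by
  induction D using Finsupp.induction_linear with
  | zero =>
    refine ⟨0, map_zero _, ?_⟩
    rw [map_zero, zero_smul, smul_zero, sub_zero, sub_zero]
    exact (Prin L K).zero_mem
  | add D D' ih ih' =>
    obtain ⟨η, h1, h2⟩ := ih
    obtain ⟨η', h3, h4⟩ := ih'
    refine ⟨η + η', by rw [map_add, h1, h3, add_zero], ?_⟩
    have h5 := (Prin L K).add_mem h2 h4
    rw [map_add, add_smul, smul_add]
    convert h5 using 1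
    abel
  | single P n =>
    obtain ⟨η, h1, h2⟩ := H.halve_place P
    refine ⟨n • η, by rw [map_zsmul, h1, smul_zero], ?_⟩
    have h3 := (Prin L K).zsmul_mem h2 n
    rw [smul_sub, smul_sub] at h3
    rw [Finsupp.degree_single]
    have h4 : n • (Finsupp.single P (1 : ℤ)) = Finsupp.single P n := by
      rw [Finsupp.smul_single, smul_eq_mul, mul_one]
    rw [h4, smul_comm n (2 : ℤ) η] at h3
    exact h3

theorem w_fix (τ : K ≃+* K) (hτ : IsSemi L τ) (hx : τ H.x = H.x) (j : Fin 5)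
    (hj : τ (algebraMap L K (H.β j)) = algebraMap L K (H.β j)) :
    (H.w j).map τ hτ = H.w j := by
  apply H.w_unique
  rw [Place.map_ord]
  have : τ.symm (H.xa (H.β j)) = H.xa (H.β j) := by
    rw [RingEquiv.symm_apply_eq]
    unfold xa
    rw [map_sub, hx, hj]
  rw [this]
  exact H.w_pos j

theorem winf_fix (τ : K ≃+* K) (hτ : IsSemi L τ) (hx : τ H.x = H.x) :
    H.winf.map τ hτ = H.winf := by
  apply H.winf_unique
  rw [Place.map_ord]
  have : τ.symm H.x = H.x := by
    rw [RingEquiv.symm_apply_eq, hx]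
  rw [this]
  exact H.winf_neg

/-- An explicit half of `w_j - w_∞`, which is anti-invariant under twisted automorphisms. -/
theorem halve_ram (j : Fin 5) (A : Subfield L) (hA : ∀ c : L, c ^ 2 ∈ A → c ∈ A)
    (hβ : ∀ i, H.β i ∈ A) : ∃ η : Div L K, η.degree = 0 ∧
    Finsupp.single (H.w j) 1 - Finsupp.single H.winf 1 - (2 : ℤ) • η ∈ Prin L K ∧
    ∀ (τ : K ≃+* K) (hτ : IsSemi L τ), τ H.x = H.x → τ H.y = - H.y →
      (∀ c ∈ A, τ (algebraMap L K c) = algebraMap L K c) → divMap τ hτ η + η ∈ Prin L K := by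
  have hbb : (0 : L) ^ 2 = H.F.eval (H.β j) := by rw [H.F_eval_β]; ring
  have ha := H.w_pos j
  obtain ⟨b, hb, hb'⟩ := H.center (H.w j) ha
  have hb0 : b = 0 := by
    rw [H.F_eval_β] at hb
    exact pow_eq_zero_iff (two_ne_zero) |>.1 hb
  subst hb0
  obtain ⟨r, hr, hr5⟩ := H.exists_r (H.β j) 0 hbb
  obtain ⟨E, hE⟩ := H.halve_aux (H.w j) ha hb' hbb r hr hr5
  have hdeg : E.degree = 2 := by
    have h1 := congrArg Finsupp.degree hE
    rw [two_smul, map_add, map_add, map_sub, H.degree_dv _ (H.fv_ne _), Finsupp.degree_single,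
      Finsupp.degree_single] at h1
    omega
  refine ⟨Finsupp.single H.winf 2 - E, ?_, ?_, ?_⟩
  · rw [map_sub, Finsupp.degree_single, hdeg, sub_self]
  · have h2 : Finsupp.single (H.w j) 1 - Finsupp.single H.winf 1
        - (2 : ℤ) • (Finsupp.single H.winf 2 - E) = H.dv (H.y - H.ev (vp (H.β j) r)) := by
      rw [smul_sub, hE]
      have h3 : (2 : ℤ) • (Finsupp.single H.winf (2 : ℤ)) = Finsupp.single H.winf 4 := by
        rw [Finsupp.smul_single]; rfl
      have h4 : (Finsupp.single H.winf (5 : ℤ)) = Finsupp.single H.winf 4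
          + Finsupp.single H.winf 1 := by
        rw [← Finsupp.single_add]; rfl
      rw [h3, h4]
      abel
    rw [h2]
    exact H.dv_mem _ (H.fv_ne _)
  · intro τ hτ hx hy hfix
    have hrA : ∀ i, r i ∈ A := by
      intro i
      apply hA
      rw [hr]
      exact A.sub_mem (hβ j) (hβ i)
    have hr' : ∀ i, τ (algebraMap L K (r i)) = algebraMap L K (r i) := fun i => hfix _ (hrA i)
    have hβ' := hfix _ (hβ j)
    have hv : τ (H.ev (vp (H.β j) r)) = H.ev (vp (H.β j) r) := by
      unfold vp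
      simp only [H.ev_add, H.ev_mul, H.ev_pow, H.ev_sub, H.ev_C, H.ev_X, map_add, map_mul,
        map_pow, map_sub, hx, hβ', e1, e3, e5, hr']
    have hU : up (H.β j) r ≠ 0 := by
      intro h0
      have h1 : (vp (H.β j) r) ^ 2 = 1 ^ 2 * H.F := by
        rw [H.F_eq (H.β j) r hr, h0]; ring
      exact one_ne_zero (H.poly_aux _ 1 h1).2
    have hff : τ (H.y - H.ev (vp (H.β j) r)) * (H.y - H.ev (vp (H.β j) r))
        = - (H.xa (H.β j) * H.ev (up (H.β j) r) ^ 2) := by
      rw [map_sub, hy, hv, H.xa_eq, ← H.ev_pow, ← H.ev_mul]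
      have h1 : (X - C (H.β j)) * (up (H.β j) r) ^ 2 = H.F - (vp (H.β j) r) ^ 2 := by
        rw [H.F_eq (H.β j) r hr]; ring
      rw [h1, H.ev_sub, ← H.ysq, H.ev_pow]
      ring
    have hE2 : divMap τ hτ E + E = H.dv (H.ev (up (H.β j) r)) + Finsupp.single H.winf 4 := by
      apply two_smul_inj
      rw [smul_add, ← map_zsmul (divMap τ hτ), hE, map_add, map_sub, H.divMap_dv, divMap_single,
        divMap_single, H.w_fix τ hτ hx j hβ', H.winf_fix τ hτ hx]
      have h1 : H.dv (τ (H.y - H.ev (vp (H.β j) r))) + H.dv (H.y - H.ev (vp (H.β j) r))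
          = H.dv (H.xa (H.β j)) + (2 : ℤ) • H.dv (H.ev (up (H.β j) r)) := by
        rw [← H.dv_mul _ _ ((_root_.map_ne_zero _).2 (H.fv_ne _)) (H.fv_ne _), hff]
        ext P
        rw [H.dv_apply, P.ord_neg, P.ord_mul _ _ (H.xa_ne _) (pow_ne_zero 2 (H.ev_ne hU)),
          P.ord_pow _ (H.ev_ne hU), Finsupp.add_apply, Finsupp.smul_apply, H.dv_apply, H.dv_apply,
          smul_eq_mul]
        norm_num
      have h2 : H.dv (τ (H.y - H.ev (vp (H.β j) r))) = H.dv (H.xa (H.β j))
          + (2 : ℤ) • H.dv (H.ev (up (H.β j) r)) - H.dv (H.y - H.ev (vp (H.β j) r)) := by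
        rw [← h1]; abel
      rw [h2, H.dv_xa_ram, smul_add, Finsupp.smul_single]
      have h3 : (Finsupp.single (H.w j) (2 : ℤ)) = Finsupp.single (H.w j) 1
          + Finsupp.single (H.w j) 1 := by
        rw [← Finsupp.single_add]; rfl
      have h4 : (Finsupp.single H.winf ((2 : ℤ) • (4 : ℤ))) = Finsupp.single H.winf 5
          + Finsupp.single H.winf 5 - Finsupp.single H.winf 2 := by
        rw [← Finsupp.single_add, ← Finsupp.single_sub]; rfl
      rw [h3, h4]
      abel
    have h5 : divMap τ hτ (Finsupp.single H.winf 2 - E) + (Finsupp.single H.winf 2 - E)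
        = - H.dv (H.ev (up (H.β j) r)) := by
      rw [map_sub, divMap_single, H.winf_fix τ hτ hx]
      have h6 : divMap τ hτ E = H.dv (H.ev (up (H.β j) r)) + Finsupp.single H.winf 4 - E := by
        rw [← hE2]; abel
      have h7 : (Finsupp.single H.winf (4 : ℤ)) = Finsupp.single H.winf 2
          + Finsupp.single H.winf 2 := by
        rw [← Finsupp.single_add]; rfl
      rw [h6, h7]
      abel
    rw [h5]
    exact (Prin L K).neg_mem (H.dv_mem _ (H.ev_ne hU))

end Hyp

end Pool.Agent.W620.PO
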