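import Pool.Agent.W620.PO.Sextic
import Pool.Agent.W620.PO.Curve2
import Pool.Agent.W620.PO.Galois

/-! # The main theorem -/

set_option autoImplicit false
set_option linter.unusedSectionVars false
set_option linter.style.haveILetI false

open Polynomial

namespace Pool.Agent.W620.PO

theorem hom_ext_gen {L K : Type} [Field L] [Field K] [Algebra L K] (x y : K)
    (hgen : ∀ S : Subfield K, (∀ c : L, algebraMap L K c ∈ S) → x ∈ S → y ∈ S → S = ⊤)
    (f g : K →+* K) (h1 : ∀ c : L, f (algebraMap L K c) = g (algebraMap L K c)) (h2 : f x = g x)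
    (h3 : f y = g y) : f = g := by
  have h4 := hgen (f.eqLocusField g) h1 h2 h3
  ext z
  have : z ∈ f.eqLocusField g := by rw [h4]; trivial
  exact this

theorem exists_act {G L K : Type} [Group G] [Field L] [Field K] [Algebra L K] (x y : K)
    (hgen : ∀ S : Subfield K, (∀ c : L, algebraMap L K c ∈ S) → x ∈ S → y ∈ S → S = ⊤)
    (t : G → L → L) (h1 : ∀ c, t 1 c = c) (hmul : ∀ g h c, t (g * h) c = t g (t h c))
    (hφ : ∀ g, ∃ φ : K →+* K, (∀ c, φ (algebraMap L K c) = algebraMap L K (t g c)) ∧ φ x = x ∧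
      φ y = y) :
    ∃ act : G →* RingAut K, (∀ g c, act g (algebraMap L K c) = algebraMap L K (t g c)) ∧
      (∀ g, act g x = x) ∧ ∀ g, act g y = y := by
  choose φ hc hx hy using hφ
  have e1 : φ 1 = RingHom.id K := by
    refine hom_ext_gen x y hgen _ _ (fun c => ?_) ?_ ?_
    · rw [hc, h1]; rfl
    · rw [hx]; rfl
    · rw [hy]; rfl
  have e2 : ∀ g h, φ (g * h) = (φ g).comp (φ h) := by
    intro g h
    refine hom_ext_gen x y hgen _ _ (fun c => ?_) ?_ ?_
    · rw [hc, hmul, RingHom.comp_apply, hc, hc]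
    · rw [hx, RingHom.comp_apply, hx, hx]
    · rw [hy, RingHom.comp_apply, hy, hy]
  let a : G → RingAut K := fun g => RingEquiv.ofRingHom (φ g) (φ g⁻¹)
    (by rw [← e2, mul_inv_cancel, e1]) (by rw [← e2, inv_mul_cancel, e1])
  have ha : ∀ g z, a g z = φ g z := fun g z => rfl
  refine ⟨{ toFun := a, map_one' := ?_, map_mul' := ?_ }, hc, hx, hy⟩
  · apply RingEquiv.ext
    intro z
    rw [ha, e1]
    rfl
  · intro g h
    apply RingEquiv.ext
    intro z
    rw [ha, e2]
    rfl

theorem inj6 {L : Type} (α : Fin 6 → L) (h01 : α 0 ≠ α 1) (h02 : α 0 ≠ α 2) (h03 : α 0 ≠ α 3)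
    (h04 : α 0 ≠ α 4) (h05 : α 0 ≠ α 5) (h12 : α 1 ≠ α 2) (h13 : α 1 ≠ α 3) (h14 : α 1 ≠ α 4)
    (h15 : α 1 ≠ α 5) (h23 : α 2 ≠ α 3) (h24 : α 2 ≠ α 4) (h25 : α 2 ≠ α 5) (h34 : α 3 ≠ α 4)
    (h35 : α 3 ≠ α 5) (h45 : α 4 ≠ α 5) : Function.Injective α := by
  intro i j h
  fin_cases i <;> fin_cases j <;>
  first
  | rfl
  | exact absurd h h01 | exact absurd h h02 | exact absurd h h03 | exact absurd h h04
  | exact absurd h h05 | exact absurd h h12 | exact absurd h h13 | exact absurd h h14
  | exact absurd h h15 | exact absurd h h23 | exact absurd h h24 | exact absurd h h25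
  | exact absurd h h34 | exact absurd h h35 | exact absurd h h45
  | exact absurd h.symm h01 | exact absurd h.symm h02 | exact absurd h.symm h03
  | exact absurd h.symm h04
  | exact absurd h.symm h05 | exact absurd h.symm h12 | exact absurd h.symm h13
  | exact absurd h.symm h14
  | exact absurd h.symm h15 | exact absurd h.symm h23 | exact absurd h.symm h24
  | exact absurd h.symm h25
  | exact absurd h.symm h34 | exact absurd h.symm h35 | exact absurd h.symm h45

section

variable {E0 : Type} [Field E0] [CharZero E0]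

/-- The sextic polynomial `t (x² - u) (x² - v) (x² - u v)` over `E0(t)`. -/
noncomputable def sextic (u v : E0) : (RatFunc E0)[X] :=
  C RatFunc.X * (X ^ 2 - C (algebraMap E0 (RatFunc E0) u))
    * (X ^ 2 - C (algebraMap E0 (RatFunc E0) v)) * (X ^ 2 - C (algebraMap E0 (RatFunc E0) (u * v)))

theorem galApp_mul (g : GalGp (RatFunc E0)) (c d : AlgebraicClosure (RatFunc E0)) :
    galApp g (c * d) = galApp g c * galApp g d :=
  map_mul (F := Gal(AlgebraicClosure (RatFunc E0)/RatFunc E0)) g c d

theorem galApp_neg (g : GalGp (RatFunc E0)) (c : AlgebraicClosure (RatFunc E0)) :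
    galApp g (-c) = - galApp g c :=
  map_neg (F := Gal(AlgebraicClosure (RatFunc E0)/RatFunc E0)) g c

theorem main (i0 : ℂ →+* E0) (u v : E0) (hu : ∀ r : E0, r ^ 2 ≠ u) (hv : ∀ r : E0, r ^ 2 ≠ v)
    (huv : ∀ r : E0, r ^ 2 ≠ u * v) :
    ∃ Y : GenusTwoCurve (RatFunc E0), Y.f = sextic u v ∧ (∃! ζ : Y.H1, Y.IsPicOneClass ζ) ∧
      ∀ ζ : Y.H1, Y.IsPicOneClass ζ → ¬ ∃ η : Y.H1, ζ = η + η := by
  have hG : ∃ (A : Subfield (AlgebraicClosure (RatFunc E0))) (σ φ1 φ2 : GalGp (RatFunc E0))
      (a b s : AlgebraicClosure (RatFunc E0)),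
      a ^ 2 = algebraMap (RatFunc E0) (AlgebraicClosure (RatFunc E0)) (algebraMap E0 (RatFunc E0) u) ∧
      b ^ 2 = algebraMap (RatFunc E0) (AlgebraicClosure (RatFunc E0)) (algebraMap E0 (RatFunc E0) v) ∧
      s ^ 2 = algebraMap (RatFunc E0) (AlgebraicClosure (RatFunc E0)) RatFunc.X ∧ a ∈ A ∧ b ∈ A ∧
      (∀ c, c ^ 2 ∈ A → c ∈ A) ∧ (∀ c ∈ A, galApp σ c = c) ∧ galApp σ s = -s ∧
      galApp φ1 a = -a ∧ galApp φ1 b = b ∧ galApp φ2 a = a ∧ galApp φ2 b = -b ∧
      σ * φ1 = φ1 * σ ∧ σ * φ2 = φ2 * σ := exists_galois i0 u v hu hv huv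
  obtain ⟨A, σ, φ1, φ2, a, b, s, ha, hb, hs, haA, hbA, hsq, hσA, hσs, h1a, h1b, h2a, h2b, hc1,
    hc2⟩ := hG
  haveI cz : CharZero (RatFunc E0) := charZero_of_injective_algebraMap (algebraMap E0 (RatFunc E0)).injective
  haveI cz' : CharZero (AlgebraicClosure (RatFunc E0)) := charZero_of_injective_algebraMap (algebraMap (RatFunc E0) (AlgebraicClosure (RatFunc E0))).injective
  -- the roots
  let i1 : E0 →+* (AlgebraicClosure (RatFunc E0)) := (algebraMap (RatFunc E0) (AlgebraicClosure (RatFunc E0))).comp (algebraMap E0 (RatFunc E0))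
  have hi1 : ∀ c, i1 c = algebraMap (RatFunc E0) (AlgebraicClosure (RatFunc E0)) (algebraMap E0 (RatFunc E0) c) := fun c => rfl
  have i1inj : Function.Injective i1 := i1.injective
  rw [← hi1] at ha hb
  have u0 : u ≠ 0 := fun h => hu 0 (by rw [h]; ring)
  have v0 : v ≠ 0 := fun h => hv 0 (by rw [h]; ring)
  have u1 : u ≠ 1 := fun h => hu 1 (by rw [h]; ring)
  have v1 : v ≠ 1 := fun h => hv 1 (by rw [h]; ring)
  have uv : u ≠ v := fun h => huv u (by rw [← h]; ring)
  have a0 : a ≠ 0 := by
    rintro rfl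
    apply u0
    apply i1inj
    rw [← ha, map_zero]; ring
  have b0 : b ≠ 0 := by
    rintro rfl
    apply v0
    apply i1inj
    rw [← hb, map_zero]; ring
  have a1 : a ^ 2 ≠ 1 := by
    intro h
    apply u1
    apply i1inj
    rw [← ha, map_one, h]
  have b1 : b ^ 2 ≠ 1 := by
    intro h
    apply v1
    apply i1inj
    rw [← hb, map_one, h]
  have ab : a ^ 2 ≠ b ^ 2 := by
    intro h
    apply uv
    apply i1inj
    rw [← ha, ← hb, h]
  have n1 : ∀ z : (AlgebraicClosure (RatFunc E0)), z ≠ 0 → z ≠ -z := by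
    intro z hz h
    apply hz
    have : 2 * z = 0 := by linear_combination h
    simpa using this
  have n2 : a ^ 2 ≠ (a * b) ^ 2 := by
    intro h
    apply b1
    have h1 : a ^ 2 * (b ^ 2 - 1) = 0 := by linear_combination -h
    have h2 := (mul_eq_zero.1 h1).resolve_left (pow_ne_zero 2 a0)
    linear_combination h2
  have n3 : b ^ 2 ≠ (a * b) ^ 2 := by
    intro h
    apply a1
    have h1 : b ^ 2 * (a ^ 2 - 1) = 0 := by linear_combination -h
    have h2 := (mul_eq_zero.1 h1).resolve_left (pow_ne_zero 2 b0)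
    linear_combination h2
  let α : Fin 6 → (AlgebraicClosure (RatFunc E0)) := ![a, -a, b, -b, a * b, -(a * b)]
  have α0 : α 0 = a := rfl
  have α1 : α 1 = -a := rfl
  have α2 : α 2 = b := rfl
  have α3 : α 3 = -b := rfl
  have α4 : α 4 = a * b := rfl
  have α5 : α 5 = -(a * b) := rfl
  have hα : Function.Injective α := by
    apply inj6
    · exact n1 a a0
    · exact fun h => ab (by have h' : a = b := h; linear_combination (a + b) * h')
    · exact fun h => ab (by have h' : a = -b := h; linear_combination (a - b) * h')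
    · exact fun h => n2 (by have h' : a = a * b := h; linear_combination (a + a * b) * h')
    · exact fun h => n2 (by have h' : a = -(a * b) := h; linear_combination (a - a * b) * h')
    · exact fun h => ab (by have h' : -a = b := h; linear_combination (b - a) * h')
    · exact fun h => ab (by have h' : -a = -b := h; linear_combination (-b - a) * h')
    · exact fun h => n2 (by have h' : -a = a * b := h; linear_combination (a * b - a) * h')
    · exact fun h => n2 (by have h' : -a = -(a * b) := h; linear_combination (-(a * b) - a) * h')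
    · exact n1 b b0
    · exact fun h => n3 (by have h' : b = a * b := h; linear_combination (b + a * b) * h')
    · exact fun h => n3 (by have h' : b = -(a * b) := h; linear_combination (b - a * b) * h')
    · exact fun h => n3 (by have h' : -b = a * b := h; linear_combination (a * b - b) * h')
    · exact fun h => n3 (by have h' : -b = -(a * b) := h; linear_combination (-(a * b) - b) * h')
    · exact n1 (a * b) (mul_ne_zero a0 b0)
  have s0 : s ≠ 0 := by
    rintro rfl
    have h1 : (RatFunc.X : (RatFunc E0)) = 0 := by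
      apply (algebraMap (RatFunc E0) (AlgebraicClosure (RatFunc E0))).injective
      rw [← hs, map_zero]; ring
    exact RatFunc.X_ne_zero h1
  have hfmap : (sextic u v).map (algebraMap (RatFunc E0) (AlgebraicClosure (RatFunc E0))) = C (s ^ 2) * ∏ j, (X - C (α j)) := by
    unfold sextic
    simp only [Polynomial.map_mul, Polynomial.map_sub, Polynomial.map_pow, map_X, map_C]
    rw [← hs, ← hi1, ← hi1, ← hi1, map_mul i1, ← ha, ← hb, Fin.prod_univ_six, α0, α1, α2, α3, α4, α5]
    simp only [C_mul, C_neg, C_pow]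
    ring
  have hprod_sep : (∏ j, (X - C (α j))).Separable := separable_prod_X_sub_C_iff.2 hα
  have hsep : (sextic u v).Separable := by
    rw [← separable_map (algebraMap (RatFunc E0) (AlgebraicClosure (RatFunc E0))), hfmap]
    exact hprod_sep.unit_mul (isUnit_C.2 (isUnit_iff_ne_zero.2 (pow_ne_zero 2 s0)))
  have hdeg : (sextic u v).natDegree = 6 := by
    rw [← natDegree_map (algebraMap (RatFunc E0) (AlgebraicClosure (RatFunc E0))), hfmap, natDegree_C_mul (pow_ne_zero 2 s0),
      natDegree_prod_of_monic _ _ (fun i _ => monic_X_sub_C _)]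
    simp
  have hroot : ∀ z : (AlgebraicClosure (RatFunc E0)), ((sextic u v).map (algebraMap (RatFunc E0) (AlgebraicClosure (RatFunc E0)))).eval z = 0 ↔ ∃ j, z = α j := by
    intro z
    rw [hfmap, eval_mul, eval_C, eval_prod]
    constructor
    · intro h
      have h1 := (mul_eq_zero.1 h).resolve_left (pow_ne_zero 2 s0)
      obtain ⟨j, _, h2⟩ := Finset.prod_eq_zero_iff.1 h1
      refine ⟨j, ?_⟩
      rw [eval_sub, eval_X, eval_C] at h2
      exact sub_eq_zero.1 h2
    · rintro ⟨j, rfl⟩
      rw [Finset.prod_eq_zero (Finset.mem_univ j), mul_zero]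
      simp
  have hperm : ∀ (g : GalGp (RatFunc E0)) (i : Fin 6), ∃ j, galApp g (α i) = α j := by
    intro g0 i
    let g : Gal(AlgebraicClosure (RatFunc E0)/RatFunc E0) := g0
    change ∃ j, g (α i) = α j
    rw [← hroot, eval_map_algebraMap]
    have h1 : aeval (g (α i)) (sextic u v) = g (aeval (α i) (sextic u v)) :=
      aeval_algHom_apply g.toAlgHom (α i) _
    rw [h1, ← eval_map_algebraMap, (hroot _).2 ⟨i, rfl⟩, map_zero]
  -- the function field
  obtain ⟨K, fK, aK, x, y, htrans, hy, hgen, hhom⟩ := exists_model (AlgebraicClosure (RatFunc E0))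
    ((sextic u v).map (algebraMap (RatFunc E0) (AlgebraicClosure (RatFunc E0)))) (α 0) ((hroot _).2 ⟨0, rfl⟩) (by
      have h1 : ((sextic u v).map (algebraMap (RatFunc E0) (AlgebraicClosure (RatFunc E0)))).Separable := hsep.map
      exact h1.eval₂_derivative_ne_zero (RingHom.id (AlgebraicClosure (RatFunc E0))) ((hroot (α 0)).2 ⟨0, rfl⟩))
  obtain ⟨act, act_c, act_x, act_y⟩ := exists_act (G := GalGp (RatFunc E0)) x y hgen (fun g c => galApp g c)
    (fun c => rfl) (fun g h c => rfl) (fun g => by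
      let g' : Gal(AlgebraicClosure (RatFunc E0)/RatFunc E0) := g
      obtain ⟨φ, h1, h2, h3⟩ := hhom
        (g' : (AlgebraicClosure (RatFunc E0)) ≃+* (AlgebraicClosure (RatFunc E0))) 1 (by
        rw [Polynomial.map_map]
        congr 1
        ext c
        exact g'.commutes c) (one_pow 2)
      exact ⟨φ, h1, h2, by rw [h3, one_mul]⟩)
  obtain ⟨φι, hιc, hιx, hιy⟩ := hhom (RingEquiv.refl (AlgebraicClosure (RatFunc E0))) (-1) (by
    have : ((RingEquiv.refl (AlgebraicClosure (RatFunc E0)) : (AlgebraicClosure (RatFunc E0)) ≃+* (AlgebraicClosure (RatFunc E0))) : (AlgebraicClosure (RatFunc E0)) →+* (AlgebraicClosure (RatFunc E0))) = RingHom.id (AlgebraicClosure (RatFunc E0)) := rfl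
    rw [this, Polynomial.map_id]) (by ring)
  have hιι : φι.comp φι = RingHom.id K := by
    refine hom_ext_gen x y hgen _ _ (fun c => ?_) ?_ ?_
    · rw [RingHom.comp_apply, hιc, hιc]; rfl
    · rw [RingHom.comp_apply, hιx, hιx]; rfl
    · rw [RingHom.comp_apply, hιy, map_mul, map_neg, map_one, hιy]
      change _ = y
      ring
  let Y : GenusTwoCurve (RatFunc E0) :=
    { charZero := cz
      f := sextic u v
      natDegree_f := hdeg
      separable_f := hsep
      K := K
      x := x
      y := y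
      transcendental_x := by
        rintro ⟨p, hp, h⟩
        exact hp (htrans p h)
      equation := hy
      gen := fun S h1 h2 h3 z => by rw [hgen S h1 h2 h3]; trivial
      act := fun g z => act g z
      act_one := fun z => by rw [map_one]; rfl
      act_comp := fun g h z => by rw [map_mul]; rfl
      act_add := fun g z w => map_add (act g) z w
      act_mul := fun g z w => map_mul (act g) z w
      act_const := act_c
      act_x := act_x
      act_y := act_y }
  refine ⟨Y, rfl, ?_⟩
  obtain ⟨H, γ, hγ0, hγ, hHx, hHy, hHβ⟩ := exists_hyp x y α hα s s0 htrans (by rw [hy, hfmap]) hgen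
    (RingEquiv.ofRingHom φι φι hιι hιι) hιc hιx (by
      change φι y = -y
      rw [hιy]; ring)
  have hmap : ∀ (g : GalGp (RatFunc E0)) (i j : Fin 6), galApp g (α i) = α j →
      (Wp H i).map (Y.aut g) (Y.act_semi g) = Wp H j := by
    intro g i j hij
    rw [← Wp_iff H x α htrans hα hHx hHβ, Place.map_ord]
    have h1 : (Y.aut g).symm (x - algebraMap (AlgebraicClosure (RatFunc E0)) K (α j)) = x - algebraMap (AlgebraicClosure (RatFunc E0)) K (α i) := by
      rw [RingEquiv.symm_apply_eq, map_sub]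
      change _ = act g x - act g _
      rw [act_x, act_c, hij]
    rw [h1, Wp_iff H x α htrans hα hHx hHβ]
  have hαA : ∀ j, α j ∈ A := by
    intro j
    fin_cases j
    · exact haA
    · exact A.neg_mem haA
    · exact hbA
    · exact A.neg_mem hbA
    · exact A.mul_mem haA hbA
    · exact A.neg_mem (A.mul_mem haA hbA)
  have hβA : ∀ i, H.β i ∈ A := by
    intro i
    rw [hHβ]
    exact A.inv_mem (A.sub_mem (hαA _) (hαA _))
  have hγA : γ ∈ A := by
    apply hsq
    rw [hγ]
    exact A.prod_mem fun i _ => A.sub_mem (hαA _) (hαA _)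
  have hfix : ∀ c ∈ A, Y.aut σ (algebraMap (AlgebraicClosure (RatFunc E0)) K c) = algebraMap (AlgebraicClosure (RatFunc E0)) K c := by
    intro c hc
    change act σ _ = _
    rw [act_c, hσA c hc]
  have hσx : Y.aut σ H.x = H.x := by
    rw [hHx, map_inv₀, map_sub, hfix _ (hαA 0)]
    change (act σ x - _)⁻¹ = _
    rw [act_x]
  have hσy : Y.aut σ H.y = - H.y := by
    rw [hHy, map_mul, map_pow, ← hHx, hσx, map_div₀]
    change act σ y / act σ _ * _ = _
    rw [act_y, act_c, galApp_mul, hσs, hσA _ hγA]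
    rw [neg_mul, map_neg, div_neg, neg_mul]
  have hW : ∀ (g : GalGp (RatFunc E0)) (P : Place (AlgebraicClosure (RatFunc E0)) K), H.IsW P →
      H.IsW (P.map (Y.aut g) (Y.act_semi g)) := by
    intro g P hP
    obtain ⟨i, rfl⟩ := (isW_iff H P).1 hP
    obtain ⟨j, hj⟩ := hperm g i
    rw [hmap g i j hj]
    exact (isW_iff H _).2 ⟨j, rfl⟩
  constructor
  · classical
    obtain ⟨ζ, hζ⟩ := Y.exists_of H.winf (α 0)
      (fun z => if h : ∃ j, z = α j then Wp H h.choose else H.winf) (by
        intro g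
        have h := hperm g 0
        rw [dif_pos h]
        exact hmap g 0 _ h.choose_spec)
    exact ⟨ζ, hζ, fun ζ' hζ' => Y.picOne_unique _ _ hζ' hζ⟩
  · intro ζ hζ
    refine Y.not_div_of ?_ ζ hζ
    intro c hc D hD hcD
    exact H.core A hsq hβA (fun g => Y.aut g) (fun g => Y.act_semi g) (fun g h ξ => Y.picAct_mul g h ξ)
      σ φ1 φ2 hc1 hc2 c hc D hD hcD hσx hσy hfix (hW φ1) (hW φ2)
      (hmap φ1 0 1 (by rw [α0, α1, h1a])) (hmap φ1 2 2 (by rw [α2, h1b]))
      (hmap φ1 4 5 (by rw [α4, α5, galApp_mul, h1a, h1b, neg_mul]))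
      (hmap φ2 0 0 (by rw [α0, h2a])) (hmap φ2 2 3 (by rw [α2, α3, h2b]))

end

end Pool.Agent.W620.PO
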