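import Pool.Agent.W620.PO.PlaceDef

/-! # Lemmas on places; hyperelliptic function fields -/

set_option autoImplicit false
set_option linter.unusedSectionVars false

open Polynomial

namespace Pool.Agent.W620.PO

namespace Place

variable {L K : Type} [Field L] [Field K] [Algebra L K] (P : Place L K)

theorem ord_neg (a : K) : P.ord (-a) = P.ord a := by
  by_cases ha : a = 0
  · rw [ha, neg_zero]
  have h1 : P.ord (-1) = 0 := by
    have := P.ord_mul (-1) (-1) (by simp) (by simp)
    rw [neg_mul_neg, mul_one, P.ord_one] at this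
    linarith
  rw [← neg_one_mul, P.ord_mul _ _ (by simp) ha, h1, zero_add]

theorem ord_pow (a : K) (ha : a ≠ 0) (n : ℕ) : P.ord (a ^ n) = n * P.ord a := by
  induction n with
  | zero => simp [P.ord_one]
  | succ n ih =>
    rw [pow_succ, P.ord_mul _ _ (pow_ne_zero n ha) ha, ih]
    push_cast; ring

theorem ord_div (a b : K) (ha : a ≠ 0) (hb : b ≠ 0) : P.ord (a / b) = P.ord a - P.ord b := by
  rw [div_eq_mul_inv, P.ord_mul _ _ ha (inv_ne_zero hb), P.ord_inv b hb]
  ring

theorem add_ne_zero (a b : K) (ha : a ≠ 0) (h : P.ord a < P.ord b) : a + b ≠ 0 := by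
  intro h0
  have h1 : b = -a := by linear_combination h0
  rw [h1, P.ord_neg] at h
  exact lt_irrefl _ h

/-- The strict triangle inequality. -/
theorem ord_add_eq (a b : K) (ha : a ≠ 0) (hb : b = 0 ∨ P.ord a < P.ord b) :
    a + b ≠ 0 ∧ P.ord (a + b) = P.ord a := by
  rcases hb with hb | h
  · rw [hb, add_zero]
    exact ⟨ha, rfl⟩
  by_cases hb : b = 0
  · rw [hb, add_zero]
    exact ⟨ha, rfl⟩
  have h0 := P.add_ne_zero a b ha h
  refine ⟨h0, le_antisymm ?_ ?_⟩
  · by_contra h1
    push Not at h1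
    have h2 := P.ord_add (a + b) (-b) h0 (neg_ne_zero.2 hb) (by rw [add_neg_cancel_right]; exact ha)
    rw [add_neg_cancel_right, P.ord_neg] at h2
    exact absurd h2 (not_le.2 (lt_min h1 h))
  · have := P.ord_add a b ha hb h0
    rwa [min_eq_left h.le] at this

theorem le_ord_add (a b : K) (n : ℤ) (hab : a + b ≠ 0) (ha : a ≠ 0 → n ≤ P.ord a)
    (hb : b ≠ 0 → n ≤ P.ord b) : n ≤ P.ord (a + b) := by
  by_cases ha0 : a = 0
  · rw [ha0, zero_add] at hab ⊢
    exact hb hab
  by_cases hb0 : b = 0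
  · rw [hb0, add_zero] at hab ⊢
    exact ha hab
  exact (le_min (ha ha0) (hb hb0)).trans (P.ord_add a b ha0 hb0 hab)

theorem ord_multiset_prod (s : Multiset K) (hs : (0 : K) ∉ s) :
    P.ord s.prod = (s.map P.ord).sum := by
  induction s using Multiset.induction_on with
  | empty => simp [P.ord_one]
  | cons a s ih =>
    rw [Multiset.mem_cons, not_or] at hs
    rw [Multiset.prod_cons, Multiset.map_cons, Multiset.sum_cons,
      P.ord_mul _ _ (Ne.symm hs.1) (Multiset.prod_ne_zero hs.2), ih hs.2]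

end Place

/-- Data for the curve `y² = (x - β₀) ⋯ (x - β₄)` over the algebraically closed field `L`, with
function field `K`. -/
structure Hyp (L K : Type) [Field L] [Field K] [Algebra L K] where
  /-- the function `x` -/
  x : K
  /-- the function `y` -/
  y : K
  /-- the roots -/
  β : Fin 5 → L
  β_inj : Function.Injective β
  trans : ∀ p : L[X], aeval x p = 0 → p = 0
  y_sq : y ^ 2 = aeval x (∏ i, (X - C (β i)))
  gen : ∀ S : Subfield K, (∀ c : L, algebraMap L K c ∈ S) → x ∈ S → y ∈ S → S = ⊤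
  /-- the hyperelliptic involution -/
  ι : K ≃+* K
  ι_const : ∀ c : L, ι (algebraMap L K c) = algebraMap L K c
  ι_x : ι x = x
  ι_y : ι y = -y

namespace Hyp

variable {L K : Type} [Field L] [Field K] [Algebra L K] (H : Hyp L K)

/-- The polynomial `F`. -/
noncomputable def F : L[X] := ∏ i, (X - C (H.β i))

/-- Evaluation at `x`. -/
noncomputable def ev (p : L[X]) : K := aeval H.x p

theorem ev_ne {p : L[X]} (hp : p ≠ 0) : H.ev p ≠ 0 := fun h => hp (H.trans p h)

theorem ev_mul (p q : L[X]) : H.ev (p * q) = H.ev p * H.ev q := map_mul _ _ _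
theorem ev_add (p q : L[X]) : H.ev (p + q) = H.ev p + H.ev q := map_add _ _ _
theorem ev_sub (p q : L[X]) : H.ev (p - q) = H.ev p - H.ev q := map_sub _ _ _
theorem ev_pow (p : L[X]) (n : ℕ) : H.ev (p ^ n) = H.ev p ^ n := map_pow _ _ _
theorem ev_X : H.ev X = H.x := aeval_X _
theorem ev_C (c : L) : H.ev (C c) = algebraMap L K c := aeval_C _ _

theorem ysq : H.y ^ 2 = H.ev H.F := H.y_sq

theorem ι_ev (p : L[X]) : H.ι (H.ev p) = H.ev p := by
  have h : (H.ι : K →+* K).comp (aeval H.x : L[X] →ₐ[L] K).toRingHom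
      = (aeval H.x : L[X] →ₐ[L] K).toRingHom := by
    refine Polynomial.ringHom_ext (fun c => ?_) ?_
    · simpa using H.ι_const c
    · simpa using H.ι_x
  exact congrArg (fun f : L[X] →+* K => f p) h

theorem F_monic : H.F.Monic := monic_prod_of_monic _ _ fun i _ => monic_X_sub_C _

theorem F_natDegree : H.F.natDegree = 5 := by
  unfold F
  rw [natDegree_prod_of_monic _ _ fun i _ => monic_X_sub_C _]
  simp

theorem F_ne : H.F ≠ 0 := H.F_monic.ne_zero

theorem F_sep : H.F.Separable := by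
  unfold F
  exact separable_prod_X_sub_C_iff.2 H.β_inj

theorem y_ne : H.y ≠ 0 := by
  intro h
  have := H.ysq
  rw [h] at this
  exact H.ev_ne H.F_ne (by rw [← this]; ring)

theorem poly_aux (A B : L[X]) (h : A ^ 2 = B ^ 2 * H.F) : A = 0 ∧ B = 0 := by
  by_cases hB : B = 0
  · refine ⟨?_, hB⟩
    rw [hB] at h
    simpa using h
  · exfalso
    have h1 := congrArg natDegree h
    rw [natDegree_pow, natDegree_mul (pow_ne_zero 2 hB) H.F_ne, natDegree_pow, H.F_natDegree] at h1
    omega

theorem indep (A B : L[X]) (h : H.ev A + H.ev B * H.y = 0) : A = 0 ∧ B = 0 := by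
  apply H.poly_aux
  have h1 : H.ev (A ^ 2 - B ^ 2 * H.F) = 0 := by
    rw [H.ev_sub, H.ev_mul, H.ev_pow, H.ev_pow, ← H.ysq]
    linear_combination (H.ev A - H.ev B * H.y) * h
  exact sub_eq_zero.1 (H.trans _ h1)

theorem norm_ne (A B : L[X]) (h : A ≠ 0 ∨ B ≠ 0) : A ^ 2 - B ^ 2 * H.F ≠ 0 := by
  intro h0
  obtain ⟨h1, h2⟩ := H.poly_aux A B (sub_eq_zero.1 h0)
  rcases h with h | h
  · exact h h1
  · exact h h2

theorem conj_ne (A B : L[X]) (h : A ≠ 0 ∨ B ≠ 0) : H.ev A + H.ev B * H.y ≠ 0 := by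
  intro h0
  obtain ⟨h1, h2⟩ := H.indep A B h0
  rcases h with h | h
  · exact h h1
  · exact h h2

/-- The elements `(A + B y) / D`. -/
theorem gen' (h : K) : ∃ A B D : L[X], D ≠ 0 ∧ h * H.ev D = H.ev A + H.ev B * H.y := by
  let S : Subfield K :=
    { carrier := {h | ∃ A B D : L[X], D ≠ 0 ∧ h * H.ev D = H.ev A + H.ev B * H.y}
      mul_mem' := by
        rintro u v ⟨A, B, D, hD, h1⟩ ⟨A', B', D', hD', h2⟩
        refine ⟨A * A' + B * B' * H.F, A * B' + B * A', D * D', mul_ne_zero hD hD', ?_⟩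
        simp only [H.ev_mul, H.ev_add, ← H.ysq]
        linear_combination (v * H.ev D') * h1 + (H.ev A + H.ev B * H.y) * h2
      one_mem' := ⟨1, 0, 1, one_ne_zero, by simp [ev]⟩
      add_mem' := by
        rintro u v ⟨A, B, D, hD, h1⟩ ⟨A', B', D', hD', h2⟩
        refine ⟨A * D' + A' * D, B * D' + B' * D, D * D', mul_ne_zero hD hD', ?_⟩
        simp only [H.ev_mul, H.ev_add]
        linear_combination (H.ev D') * h1 + (H.ev D) * h2
      zero_mem' := ⟨0, 0, 1, one_ne_zero, by simp [ev]⟩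
      neg_mem' := by
        rintro u ⟨A, B, D, hD, h1⟩
        refine ⟨-A, -B, D, hD, ?_⟩
        have e1 : H.ev (-A) = - H.ev A := map_neg _ _
        have e2 : H.ev (-B) = - H.ev B := map_neg _ _
        rw [e1, e2]
        linear_combination -h1
      inv_mem' := by
        rintro u ⟨A, B, D, hD, h1⟩
        by_cases hu : u = 0
        · exact ⟨0, 0, 1, one_ne_zero, by simp [ev, hu]⟩
        have hAB : A ≠ 0 ∨ B ≠ 0 := by
          by_contra hc
          push Not at hc
          rw [hc.1, hc.2] at h1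
          have : u * H.ev D = 0 := by rw [h1]; simp [ev]
          rcases mul_eq_zero.1 this with h | h
          · exact hu h
          · exact H.ev_ne hD h
        refine ⟨D * A, -(D * B), A ^ 2 - B ^ 2 * H.F, H.norm_ne A B hAB, ?_⟩
        have e2 : H.ev (-(D * B)) = - H.ev (D * B) := map_neg _ _
        rw [e2]
        simp only [H.ev_mul, H.ev_sub, H.ev_pow, ← H.ysq]
        have h3 : u⁻¹ * (H.ev A + H.ev B * H.y) = H.ev D := by
          rw [← h1, inv_mul_cancel_left₀ hu]
        linear_combination (H.ev A - H.ev B * H.y) * h3 }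
  have hS : S = ⊤ := by
    refine H.gen S (fun c => ⟨C c, 0, 1, one_ne_zero, ?_⟩) ⟨X, 0, 1, one_ne_zero, ?_⟩
      ⟨0, 1, 1, one_ne_zero, ?_⟩
    · simp [ev]
    · simp [ev]
    · simp [ev]
  have : h ∈ S := by rw [hS]; trivial
  exact this

/-- Invariant elements are rational functions of `x`. -/
theorem inv_elt (h : K) (hh : H.ι h = h) (h2 : (2 : K) ≠ 0) :
    ∃ A D : L[X], D ≠ 0 ∧ h * H.ev D = H.ev A := by
  obtain ⟨A, B, D, hD, h1⟩ := H.gen' h
  have h3 := congrArg H.ι h1
  rw [map_mul, hh, H.ι_ev, map_add, map_mul, H.ι_ev, H.ι_ev, H.ι_y] at h3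
  have h4 : H.ev B * H.y = 0 := by
    have : 2 * (H.ev B * H.y) = 0 := by linear_combination h3 - h1
    exact (mul_eq_zero.1 this).resolve_left h2
  refine ⟨A, D, hD, ?_⟩
  rw [h1, h4, add_zero]

end Hyp

end Pool.Agent.W620.PO
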