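import Pool.Agent.W620.PO.Place

/-! # The places of a hyperelliptic function field: orders of polynomials -/

set_option autoImplicit false
set_option linter.unusedSectionVars false
set_option linter.unusedVariables false

open Polynomial

namespace Pool.Agent.W620.PO

theorem Place.ord_add_min {L K : Type} [Field L] [Field K] [Algebra L K] (P : Place L K) (a b : K)
    (ha : a ≠ 0) (hb : b ≠ 0) (h : P.ord a ≠ P.ord b) :
    a + b ≠ 0 ∧ P.ord (a + b) = min (P.ord a) (P.ord b) := by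
  rcases lt_or_gt_of_ne h with h | h
  · rw [min_eq_left h.le]
    exact P.ord_add_eq a b ha (Or.inr h)
  · rw [min_eq_right h.le, add_comm]
    exact P.ord_add_eq b a hb (Or.inr h)

namespace Hyp

variable {L K : Type} [Field L] [Field K] [Algebra L K] (H : Hyp L K)

/-- The function `x - a`. -/
noncomputable def xa (a : L) : K := H.x - algebraMap L K a

theorem xa_eq (a : L) : H.xa a = H.ev (X - C a) := by
  rw [H.ev_sub, H.ev_X, H.ev_C]; rfl

theorem xa_ne (a : L) : H.xa a ≠ 0 := by rw [xa_eq]; exact H.ev_ne (X_sub_C_ne_zero a)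

theorem const_ne {a : L} (ha : a ≠ 0) : algebraMap L K a ≠ 0 := by
  simpa using ha

section

variable [IsAlgClosed L] (P : Place L K)

theorem ev_roots (p : L[X]) :
    H.ev p = algebraMap L K p.leadingCoeff * (p.roots.map H.xa).prod := by
  conv_lhs => rw [(IsAlgClosed.splits p).eq_prod_roots]
  rw [H.ev_mul, H.ev_C]
  congr 1
  unfold ev
  rw [map_multiset_prod, Multiset.map_map]
  congr 1
  apply Multiset.map_congr rfl
  intro a _
  simp [xa]

theorem ord_ev (p : L[X]) (hp : p ≠ 0) :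
    P.ord (H.ev p) = (p.roots.map fun a => P.ord (H.xa a)).sum := by
  have h0 : (0 : K) ∉ p.roots.map H.xa := by
    rw [Multiset.mem_map]
    rintro ⟨a, _, ha⟩
    exact H.xa_ne a ha
  have hc : algebraMap L K p.leadingCoeff ≠ 0 := const_ne (leadingCoeff_ne_zero.2 hp)
  rw [H.ev_roots, P.ord_mul _ _ hc (Multiset.prod_ne_zero h0),
    P.ord_const _ (leadingCoeff_ne_zero.2 hp), zero_add, P.ord_multiset_prod _ h0,
    Multiset.map_map]
  rfl

theorem ord_xa_inf (h : P.ord H.x < 0) (a : L) : P.ord (H.xa a) = P.ord H.x := by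
  have hx : H.x ≠ 0 := by
    intro h0
    rw [h0, P.ord_zero] at h
    exact lt_irrefl _ h
  unfold xa
  rw [sub_eq_add_neg]
  refine (P.ord_add_eq _ _ hx ?_).2
  by_cases ha : a = 0
  · left; simp [ha]
  · right
    rw [P.ord_neg, P.ord_const a ha]
    exact h

theorem ord_xa_fin {a b : L} (h : 0 < P.ord (H.xa a)) (hab : b ≠ a) : P.ord (H.xa b) = 0 := by
  have h1 : H.xa b = algebraMap L K (a - b) + H.xa a := by
    unfold xa
    rw [map_sub]; ring
  have h2 : a - b ≠ 0 := sub_ne_zero.2 (Ne.symm hab)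
  rw [h1, (P.ord_add_eq _ _ (const_ne h2) (Or.inr (by rw [P.ord_const _ h2]; exact h))).2,
    P.ord_const _ h2]

theorem ord_ev_fin {a : L} (h : 0 < P.ord (H.xa a)) (p : L[X]) (hp : p ≠ 0) :
    P.ord (H.ev p) = p.rootMultiplicity a * P.ord (H.xa a) := by
  classical
  rw [H.ord_ev P p hp, Multiset.sum_map_eq_nsmul_single a, count_roots, nsmul_eq_mul]
  intro b hb _
  exact H.ord_xa_fin P h hb

theorem ord_ev_inf (h : P.ord H.x < 0) (p : L[X]) (hp : p ≠ 0) :
    P.ord (H.ev p) = p.natDegree * P.ord H.x := by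
  rw [H.ord_ev P p hp, (IsAlgClosed.splits p).natDegree_eq_card_roots,
    Multiset.map_congr rfl (fun a _ => H.ord_xa_inf P h a), Multiset.map_const',
    Multiset.sum_replicate, nsmul_eq_mul]

theorem ord_y2 : 2 * P.ord H.y = P.ord (H.ev H.F) := by
  rw [← H.ysq, P.ord_pow _ H.y_ne]
  norm_num

theorem ord_conj (A B : L[X]) (h : A ≠ 0 ∨ B ≠ 0) :
    P.ord (H.ev A + H.ev B * H.y) + P.ord (H.ev A - H.ev B * H.y)
      = P.ord (H.ev (A ^ 2 - B ^ 2 * H.F)) := by
  have h1 := H.conj_ne A B h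
  have h2 : H.ev A - H.ev B * H.y ≠ 0 := by
    have h3 := H.conj_ne A (-B) (h.imp id (fun h => neg_ne_zero.2 h))
    have e2 : H.ev (-B) = - H.ev B := map_neg _ _
    rwa [e2, neg_mul, ← sub_eq_add_neg] at h3
  rw [← P.ord_mul _ _ h1 h2]
  congr 1
  rw [H.ev_sub, H.ev_mul, H.ev_pow, H.ev_pow, ← H.ysq]
  ring

/-- Every place has a center on the `x`-line. -/
theorem dich : P.ord H.x < 0 ∨ ∃ a, 0 < P.ord (H.xa a) := by
  by_contra hc
  push Not at hc
  obtain ⟨h1, h2⟩ := hc
  have h3 : ∀ a, P.ord (H.xa a) = 0 := by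
    intro a
    refine le_antisymm (h2 a) ?_
    have h5 := H.xa_ne a
    unfold xa at h5 ⊢
    rw [sub_eq_add_neg] at h5 ⊢
    refine P.le_ord_add _ _ 0 h5 (fun _ => h1) (fun h => ?_)
    rw [P.ord_neg, P.ord_const]
    rintro rfl
    simp at h
  have h4 : ∀ p : L[X], p ≠ 0 → P.ord (H.ev p) = 0 := by
    intro p hp
    rw [H.ord_ev P p hp]
    simp [h3]
  have hy : P.ord H.y = 0 := by
    have := H.ord_y2 P
    rw [h4 _ H.F_ne] at this
    omega
  have h5 : ∀ A B : L[X], H.ev A + H.ev B * H.y ≠ 0 → 0 ≤ P.ord (H.ev A + H.ev B * H.y) := by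
    intro A B h
    refine P.le_ord_add _ _ 0 h (fun h => ?_) (fun h => ?_)
    · rw [h4 A]
      rintro rfl
      simp [ev] at h
    · have hB : B ≠ 0 := by
        rintro rfl
        simp [ev] at h
      rw [P.ord_mul _ _ (H.ev_ne hB) H.y_ne, h4 B hB, hy, zero_add]
  obtain ⟨u, hu, h1u⟩ := P.exists_one
  obtain ⟨A, B, D, hD, h⟩ := H.gen' u
  have hne : H.ev A + H.ev B * H.y ≠ 0 := by
    rw [← h]; exact mul_ne_zero hu (H.ev_ne hD)
  have hAB : A ≠ 0 ∨ B ≠ 0 := by
    by_contra hc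
    push Not at hc
    rw [hc.1, hc.2] at hne
    simp [ev] at hne
  have h6 := H.ord_conj P A B hAB
  rw [h4 _ (H.norm_ne A B hAB)] at h6
  have h7 := h5 A B hne
  have hne' : H.ev A + H.ev (-B) * H.y ≠ 0 :=
    H.conj_ne A (-B) (hAB.imp id (fun h => neg_ne_zero.2 h))
  have h8 := h5 A (-B) hne'
  have e2 : H.ev (-B) = - H.ev B := map_neg _ _
  rw [e2, neg_mul, ← sub_eq_add_neg] at h8
  have h9 : P.ord (u * H.ev D) = 1 := by
    rw [P.ord_mul _ _ hu (H.ev_ne hD), h4 D hD, h1u, add_zero]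
  rw [h] at h9
  omega

end

end Hyp

end Pool.Agent.W620.PO
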