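import Pool.Agent.W620.PO.Place2

/-! # The places of a hyperelliptic function field: classification -/

set_option autoImplicit false
set_option linter.unusedSectionVars false
set_option linter.unusedVariables false

open Polynomial

namespace Pool.Agent.W620.PO

theorem exists_coprime {L : Type} [Field L] (A B : L[X]) (h : A ≠ 0 ∨ B ≠ 0) :
    ∃ G A' B' : L[X], G ≠ 0 ∧ A = G * A' ∧ B = G * B' ∧ IsCoprime A' B' := by
  classical
  obtain ⟨A', hA'⟩ := EuclideanDomain.gcd_dvd_left A B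
  obtain ⟨B', hB'⟩ := EuclideanDomain.gcd_dvd_right A B
  have hG : EuclideanDomain.gcd A B ≠ 0 := by
    rw [Ne, EuclideanDomain.gcd_eq_zero_iff]
    rintro ⟨h1, h2⟩
    rcases h with h | h
    · exact h h1
    · exact h h2
  refine ⟨EuclideanDomain.gcd A B, A', B', hG, hA', hB', EuclideanDomain.gcdA A B,
    EuclideanDomain.gcdB A B, ?_⟩
  have h1 := EuclideanDomain.gcd_eq_gcd_ab A B
  generalize EuclideanDomain.gcd A B = G at *
  generalize EuclideanDomain.gcdA A B = u at *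
  generalize EuclideanDomain.gcdB A B = v at *
  have h2 : G * (u * A' + v * B') = G * 1 := by
    rw [mul_one]
    conv_rhs => rw [h1]
    rw [hA', hB']
    ring
  exact mul_left_cancel₀ hG h2

namespace Hyp

variable {L K : Type} [Field L] [Field K] [Algebra L K] (H : Hyp L K)
variable [IsAlgClosed L] (P Q : Place L K)

theorem ord_ev_nonneg {a : L} (h : 0 < P.ord (H.xa a)) (p : L[X]) (hp : p ≠ 0) :
    0 ≤ P.ord (H.ev p) := by
  rw [H.ord_ev_fin P h p hp]
  positivity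

theorem ord_y_nonneg {a : L} (h : 0 < P.ord (H.xa a)) : 0 ≤ P.ord H.y := by
  have h1 := H.ord_y2 P
  have h2 := H.ord_ev_nonneg P h _ H.F_ne
  omega

/-- If `p(a) = 0` then `p(x)` has positive order. -/
theorem ord_ev_pos {a : L} (h : 0 < P.ord (H.xa a)) (p : L[X]) (hp : p ≠ 0)
    (h0 : p.eval a = 0) : 0 < P.ord (H.ev p) := by
  rw [H.ord_ev_fin P h p hp]
  have : 0 < p.rootMultiplicity a := (rootMultiplicity_pos hp).2 h0
  positivity

/-- If `p(a) ≠ 0` then `p(x)` has order zero. -/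
theorem ord_ev_zero {a : L} (h : 0 < P.ord (H.xa a)) (p : L[X])
    (h0 : p.eval a ≠ 0) : P.ord (H.ev p) = 0 := by
  have hp : p ≠ 0 := by rintro rfl; simp at h0
  rw [H.ord_ev_fin P h p hp, rootMultiplicity_eq_zero h0]
  simp

/-- The function `y - b`. -/
noncomputable def yb (b : L) : K := H.y - algebraMap L K b

theorem yb_ne (b : L) : H.yb b ≠ 0 := by
  intro h
  have h1 : H.ev (C (-b)) + H.ev 1 * H.y = 0 := by
    have : H.ev 1 = 1 := map_one _
    rw [H.ev_C, this, map_neg]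
    unfold yb at h
    linear_combination h
  have := (H.indep _ _ h1).2
  exact one_ne_zero this

/-- Every finite place has a center. -/
theorem center {a : L} (h : 0 < P.ord (H.xa a)) :
    ∃ b, b ^ 2 = H.F.eval a ∧ 0 < P.ord (H.yb b) := by
  obtain ⟨b, hb⟩ := IsAlgClosed.exists_pow_nat_eq (H.F.eval a) (n := 2) two_pos
  have h1 : H.yb b * H.yb (-b) = H.ev (H.F - C (H.F.eval a)) := by
    rw [H.ev_sub, ← H.ysq, H.ev_C, ← hb]
    unfold yb
    rw [map_neg, map_pow]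
    ring
  have hne : H.F - C (H.F.eval a) ≠ 0 := by
    intro h0
    have := congrArg natDegree (sub_eq_zero.1 h0)
    rw [H.F_natDegree, natDegree_C] at this
    omega
  have h2 : 0 < P.ord (H.yb b * H.yb (-b)) := by
    rw [h1]
    exact H.ord_ev_pos P h _ hne (by simp)
  rw [P.ord_mul _ _ (H.yb_ne b) (H.yb_ne _)] at h2
  by_cases h3 : 0 < P.ord (H.yb b)
  · exact ⟨b, hb, h3⟩
  · refine ⟨-b, by rw [neg_sq, hb], ?_⟩
    omega

/-- The value of `A + B y` at a place with center `(a, b)`. -/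
theorem ord_val {a b : L} (ha : 0 < P.ord (H.xa a)) (hb : 0 < P.ord (H.yb b)) (A B : L[X])
    (hne : A.eval a + B.eval a * b ≠ 0) : P.ord (H.ev A + H.ev B * H.y) = 0 := by
  have h1 : H.ev A + H.ev B * H.y = algebraMap L K (A.eval a + B.eval a * b)
      + ((H.ev (A - C (A.eval a)) + H.ev (B - C (B.eval a)) * H.y)
        + algebraMap L K (B.eval a) * H.yb b) := by
    rw [H.ev_sub, H.ev_sub, H.ev_C, H.ev_C, map_add, map_mul]
    unfold yb
    ring
  have h2 : ∀ p : L[X], H.ev (p - C (p.eval a)) ≠ 0 → 0 < P.ord (H.ev (p - C (p.eval a))) := by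
    intro p hp
    refine H.ord_ev_pos P ha _ ?_ (by simp)
    intro h
    rw [h] at hp
    simp [ev] at hp
  rw [h1, (P.ord_add_eq _ _ (const_ne hne) ?_).2, P.ord_const _ hne]
  rw [P.ord_const _ hne]
  by_cases h0 : (H.ev (A - C (A.eval a)) + H.ev (B - C (B.eval a)) * H.y)
        + algebraMap L K (B.eval a) * H.yb b = 0
  · exact Or.inl h0
  · right
    have : (1 : ℤ) ≤ P.ord ((H.ev (A - C (A.eval a)) + H.ev (B - C (B.eval a)) * H.y)
        + algebraMap L K (B.eval a) * H.yb b) := by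
      refine P.le_ord_add _ _ 1 h0 (fun h => ?_) (fun h => ?_)
      · refine P.le_ord_add _ _ 1 h (fun h => ?_) (fun h => ?_)
        · exact h2 A h
        · rw [P.ord_mul _ _ (left_ne_zero_of_mul h) H.y_ne]
          have := h2 B (left_ne_zero_of_mul h)
          have := H.ord_y_nonneg P ha
          omega
      · rw [P.ord_mul _ _ (left_ne_zero_of_mul h) (H.yb_ne b), P.ord_const]
        · omega
        · rintro h3
          rw [h3] at h
          simp at h
    omega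

/-- The order of `A + B y` at a place with center `(a, b)`, `b ≠ 0`. -/
theorem ord_unr [CharZero L] {a b : L} (hb0 : b ≠ 0) (A B : L[X]) (hAB : A ≠ 0 ∨ B ≠ 0) :
    ∃ n : ℕ, ∀ P : Place L K, 0 < P.ord (H.xa a) → 0 < P.ord (H.yb b) →
      P.ord (H.ev A + H.ev B * H.y) = n * P.ord (H.xa a) := by
  obtain ⟨G, A', B', hG, hA, hB, hco⟩ := exists_coprime A B hAB
  have hAB' : A' ≠ 0 ∨ B' ≠ 0 := by
    rcases hAB with h | h
    · left
      rintro rfl
      exact h (by rw [hA, mul_zero])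
    · right
      rintro rfl
      exact h (by rw [hB, mul_zero])
  have key : ∃ n : ℕ, ∀ P : Place L K, 0 < P.ord (H.xa a) → 0 < P.ord (H.yb b) →
      P.ord (H.ev A' + H.ev B' * H.y) = n * P.ord (H.xa a) := by
    by_cases h1 : A'.eval a + B'.eval a * b = 0
    · have h2 : A'.eval a + (-B').eval a * b ≠ 0 := by
        intro h2
        rw [eval_neg] at h2
        obtain ⟨u, v, huv⟩ := hco
        have h3 := congrArg (eval a) huv
        rw [eval_add, eval_mul, eval_mul, eval_one] at h3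
        have h4 : A'.eval a = 0 := by
          have : 2 * A'.eval a = 0 := by linear_combination h1 + h2
          simpa using this
        have h5 : B'.eval a = 0 := by
          have : 2 * b * B'.eval a = 0 := by linear_combination h1 - h2
          simpa [hb0] using this
        rw [h4, h5] at h3
        simp at h3
      refine ⟨(A' ^ 2 - B' ^ 2 * H.F).rootMultiplicity a, fun P ha hb => ?_⟩
      have h3 := H.ord_val P ha hb A' (-B') h2
      have e2 : H.ev (-B') = - H.ev B' := map_neg _ _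
      rw [e2, neg_mul, ← sub_eq_add_neg] at h3
      rw [← H.ord_ev_fin P ha _ (H.norm_ne A' B' hAB'), ← H.ord_conj P A' B' hAB', h3, add_zero]
    · refine ⟨0, fun P ha hb => ?_⟩
      rw [H.ord_val P ha hb A' B' h1]
      simp
  obtain ⟨n, hn⟩ := key
  refine ⟨G.rootMultiplicity a + n, fun P ha hb => ?_⟩
  have h1 : H.ev A + H.ev B * H.y = H.ev G * (H.ev A' + H.ev B' * H.y) := by
    rw [hA, hB, H.ev_mul, H.ev_mul]
    ring
  rw [h1, P.ord_mul _ _ (H.ev_ne hG) (H.conj_ne A' B' hAB'), hn P ha hb, H.ord_ev_fin P ha G hG]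
  push_cast
  ring

theorem AB_ne {h : K} {A B D : L[X]} (hh : h ≠ 0) (hD : D ≠ 0)
    (e : h * H.ev D = H.ev A + H.ev B * H.y) : A ≠ 0 ∨ B ≠ 0 := by
  by_contra hc
  push Not at hc
  rw [hc.1, hc.2] at e
  have h0 : h * H.ev D = 0 := by rw [e]; simp [ev]
  exact mul_ne_zero hh (H.ev_ne hD) h0

theorem ord_gen {h : K} {A B D : L[X]} (hh : h ≠ 0) (hD : D ≠ 0)
    (e : h * H.ev D = H.ev A + H.ev B * H.y) :
    P.ord h = P.ord (H.ev A + H.ev B * H.y) - P.ord (H.ev D) := by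
  rw [← e, P.ord_mul _ _ hh (H.ev_ne hD)]
  ring

/-- Places with center `(a, b)`, `b ≠ 0`, are unramified. -/
theorem unr [CharZero L] {a b : L} (hb0 : b ≠ 0) (ha : 0 < P.ord (H.xa a))
    (hb : 0 < P.ord (H.yb b)) : P.ord (H.xa a) = 1 := by
  obtain ⟨u, hu, h1⟩ := P.exists_one
  obtain ⟨A, B, D, hD, e⟩ := H.gen' u
  have h2 := H.ord_gen P hu hD e
  obtain ⟨n, hn⟩ := H.ord_unr hb0 A B (H.AB_ne hu hD e)
  rw [h1, hn P ha hb, H.ord_ev_fin P ha D hD, ← sub_mul] at h2
  have h3 : P.ord (H.xa a) ∣ 1 := Dvd.intro_left _ h2.symm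
  exact Int.eq_one_of_dvd_one ha.le h3

/-- Uniqueness of the place with center `(a, b)`, `b ≠ 0`. -/
theorem ext_unr [CharZero L] {a b : L} (hb0 : b ≠ 0) (ha : 0 < P.ord (H.xa a))
    (hb : 0 < P.ord (H.yb b)) (ha' : 0 < Q.ord (H.xa a)) (hb' : 0 < Q.ord (H.yb b)) : P = Q := by
  apply Place.ext
  funext h
  by_cases hh : h = 0
  · rw [hh, P.ord_zero, Q.ord_zero]
  obtain ⟨A, B, D, hD, e⟩ := H.gen' h
  obtain ⟨n, hn⟩ := H.ord_unr hb0 A B (H.AB_ne hh hD e)
  rw [H.ord_gen P hh hD e, H.ord_gen Q hh hD e, hn P ha hb, hn Q ha' hb',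
    H.ord_ev_fin P ha D hD, H.ord_ev_fin Q ha' D hD, H.unr P hb0 ha hb, H.unr Q hb0 ha' hb']

open scoped Classical in
/-- The order of `A + B y` at a place where `x` and `y` have orders `2 e`-like and odd. -/
theorem ord_tot (e : ℤ) (f : L[X] → ℤ) (k : ℤ) (he : e ≠ 0) (hk : Odd k)
    (hf : ∀ p : L[X], p ≠ 0 → P.ord (H.ev p) = 2 * f p * e) (hy : P.ord H.y = k * e)
    (A B : L[X]) (hAB : A ≠ 0 ∨ B ≠ 0) :
    P.ord (H.ev A + H.ev B * H.y) = if A = 0 then (2 * f B + k) * e else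
      if B = 0 then 2 * f A * e else min (2 * f A * e) ((2 * f B + k) * e) := by
  by_cases hA : A = 0
  · have hB : B ≠ 0 := hAB.resolve_left (not_not.2 hA)
    rw [if_pos hA, hA]
    have : H.ev (0 : L[X]) = 0 := map_zero _
    rw [this, zero_add, P.ord_mul _ _ (H.ev_ne hB) H.y_ne, hf B hB, hy]
    ring
  by_cases hB : B = 0
  · rw [if_neg hA, if_pos hB, hB]
    have : H.ev (0 : L[X]) = 0 := map_zero _
    rw [this, zero_mul, add_zero, hf A hA]
  rw [if_neg hA, if_neg hB, ← hf A hA]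
  have h1 : P.ord (H.ev B * H.y) = (2 * f B + k) * e := by
    rw [P.ord_mul _ _ (H.ev_ne hB) H.y_ne, hf B hB, hy]
    ring
  rw [← h1]
  refine (P.ord_add_min _ _ (H.ev_ne hA) (mul_ne_zero (H.ev_ne hB) H.y_ne) ?_).2
  rw [h1, hf A hA]
  intro h2
  have h3 := mul_right_cancel₀ he h2
  obtain ⟨m, hm⟩ := hk
  omega

/-- At a totally ramified place, `e = ± 1`. -/
theorem tot_e (e : ℤ) (f : L[X] → ℤ) (k : ℤ) (he : e ≠ 0) (hk : Odd k)
    (hf : ∀ p : L[X], p ≠ 0 → P.ord (H.ev p) = 2 * f p * e) (hy : P.ord H.y = k * e) :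
    e ∣ 1 := by
  obtain ⟨u, hu, h1⟩ := P.exists_one
  obtain ⟨A, B, D, hD, h⟩ := H.gen' u
  have h2 := H.ord_gen P hu hD h
  rw [h1, H.ord_tot P e f k he hk hf hy A B (H.AB_ne hu hD h), hf D hD] at h2
  rw [h2]
  refine dvd_sub ?_ (Dvd.intro_left _ rfl)
  split_ifs
  · exact Dvd.intro_left _ rfl
  · exact Dvd.intro_left _ rfl
  · rcases min_choice (2 * f A * e) ((2 * f B + k) * e) with h3 | h3
    · rw [h3]; exact Dvd.intro_left _ rfl
    · rw [h3]; exact Dvd.intro_left _ rfl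

theorem tot_ext (e : ℤ) (f : L[X] → ℤ) (k : ℤ) (he : e ≠ 0) (hk : Odd k)
    (hf : ∀ p : L[X], p ≠ 0 → P.ord (H.ev p) = 2 * f p * e) (hy : P.ord H.y = k * e)
    (hf' : ∀ p : L[X], p ≠ 0 → Q.ord (H.ev p) = 2 * f p * e) (hy' : Q.ord H.y = k * e) :
    P = Q := by
  apply Place.ext
  funext h
  by_cases hh : h = 0
  · rw [hh, P.ord_zero, Q.ord_zero]
  obtain ⟨A, B, D, hD, h1⟩ := H.gen' h
  rw [H.ord_gen P hh hD h1, H.ord_gen Q hh hD h1,
    H.ord_tot P e f k he hk hf hy A B (H.AB_ne hh hD h1),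
    H.ord_tot Q e f k he hk hf' hy' A B (H.AB_ne hh hD h1), hf D hD, hf' D hD]

theorem F_eval_β (i : Fin 5) : H.F.eval (H.β i) = 0 := by
  unfold F
  rw [eval_prod]
  exact Finset.prod_eq_zero (Finset.mem_univ i) (by simp)

theorem F_eval_ne {a : L} (ha : ∀ i, a ≠ H.β i) : H.F.eval a ≠ 0 := by
  unfold F
  rw [eval_prod, Finset.prod_ne_zero_iff]
  intro i _
  rw [eval_sub, eval_X, eval_C]
  exact sub_ne_zero.2 (ha i)

theorem F_mult (i : Fin 5) : H.F.rootMultiplicity (H.β i) = 1 := by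
  have h1 := rootMultiplicity_le_one_of_separable H.F_sep (H.β i)
  have h2 : 0 < H.F.rootMultiplicity (H.β i) :=
    (rootMultiplicity_pos H.F_ne).2 (H.F_eval_β i)
  omega

theorem ram_aux {i : Fin 5} (h : 0 < P.ord (H.xa (H.β i))) :
    P.ord (H.xa (H.β i)) = 2 ∧ P.ord H.y = 1 := by
  have h1 := H.ord_y2 P
  rw [H.ord_ev_fin P h _ H.F_ne, H.F_mult i] at h1
  have h2 : P.ord (H.xa (H.β i)) = 2 * P.ord H.y := by
    rw [h1]; simp
  have hy : 0 < P.ord H.y := by omega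
  have h3 := H.tot_e P (P.ord H.y) (fun p => p.rootMultiplicity (H.β i)) 1 hy.ne' (by decide)
    (fun p hp => by rw [H.ord_ev_fin P h p hp, h2]; ring) (by ring)
  have h4 := Int.eq_one_of_dvd_one hy.le h3
  rw [h2, h4]
  exact ⟨by norm_num, rfl⟩

theorem ext_ram {i : Fin 5} (h : 0 < P.ord (H.xa (H.β i))) (h' : 0 < Q.ord (H.xa (H.β i))) :
    P = Q := by
  obtain ⟨h1, h2⟩ := H.ram_aux P h
  obtain ⟨h3, h4⟩ := H.ram_aux Q h'
  refine H.tot_ext P Q 1 (fun p => p.rootMultiplicity (H.β i)) 1 one_ne_zero (by decide)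
    (fun p hp => ?_) (by rw [h2]; norm_num) (fun p hp => ?_) (by rw [h4]; norm_num)
  · rw [H.ord_ev_fin P h p hp, h1]; ring
  · rw [H.ord_ev_fin Q h' p hp, h3]; ring

theorem inf_aux (h : P.ord H.x < 0) : P.ord H.x = -2 ∧ P.ord H.y = -5 := by
  have h1 := H.ord_y2 P
  rw [H.ord_ev_inf P h _ H.F_ne, H.F_natDegree] at h1
  push_cast at h1
  obtain ⟨e, he⟩ : ∃ e : ℤ, P.ord H.y = 5 * e ∧ P.ord H.x = 2 * e :=
    ⟨P.ord H.y - 2 * P.ord H.x, by omega, by omega⟩
  have h3 := H.tot_e P e (fun p => p.natDegree) 5 (by omega) (by decide)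
    (fun p hp => by rw [H.ord_ev_inf P h p hp, he.2]; ring) he.1
  have h4 : e = -1 := by
    rcases Int.isUnit_iff.1 (isUnit_of_dvd_one h3) with h | h <;> omega
  rw [he.1, he.2, h4]
  norm_num

theorem ext_inf (h : P.ord H.x < 0) (h' : Q.ord H.x < 0) : P = Q := by
  obtain ⟨h1, h2⟩ := H.inf_aux P h
  obtain ⟨h3, h4⟩ := H.inf_aux Q h'
  refine H.tot_ext P Q (-1) (fun p => p.natDegree) 5 (by norm_num) (by decide)
    (fun p hp => ?_) (by rw [h2]; norm_num) (fun p hp => ?_) (by rw [h4]; norm_num)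
  · rw [H.ord_ev_inf P h p hp, h1]; ring
  · rw [H.ord_ev_inf Q h' p hp, h3]; ring

/-- The orders at a place. -/
theorem cases (P : Place L K) :
    P.ord H.x < 0 ∨ (∃ i, 0 < P.ord (H.xa (H.β i))) ∨
      ∃ a b, (∀ i, a ≠ H.β i) ∧ b ≠ 0 ∧ b ^ 2 = H.F.eval a ∧ 0 < P.ord (H.xa a) ∧
        0 < P.ord (H.yb b) := by
  rcases H.dich P with h | ⟨a, h⟩
  · exact Or.inl h
  right
  by_cases ha : ∃ i, a = H.β i
  · obtain ⟨i, rfl⟩ := ha
    exact Or.inl ⟨i, h⟩
  · push Not at ha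
    right
    obtain ⟨b, hb, hb'⟩ := H.center P h
    refine ⟨a, b, ha, ?_, hb, h, hb'⟩
    rintro rfl
    exact H.F_eval_ne ha (by rw [← hb]; ring)

end Hyp

end Pool.Agent.W620.PO
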