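import Mathlib

/-! # Places, divisors and the Picard group of a function field -/

set_option autoImplicit false
set_option linter.unusedSectionVars false

open Polynomial

namespace Pool.Agent.W620.PO

/-- The normalised discrete valuations of the field `K` which are trivial on the subfield `L`. If
`L` is algebraically closed and `K` is the function field of a smooth projective curve over `L`, then
these are the points of the curve. (The value of `ord` at `0` is the junk value `0`.) -/
@[ext]
structure Place (L K : Type) [Field L] [Field K] [Algebra L K] where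
  /-- the valuation -/
  ord : K → ℤ
  ord_zero : ord 0 = 0
  ord_mul : ∀ a b : K, a ≠ 0 → b ≠ 0 → ord (a * b) = ord a + ord b
  ord_add : ∀ a b : K, a ≠ 0 → b ≠ 0 → a + b ≠ 0 → min (ord a) (ord b) ≤ ord (a + b)
  ord_const : ∀ c : L, c ≠ 0 → ord (algebraMap L K c) = 0
  exists_one : ∃ a : K, a ≠ 0 ∧ ord a = 1

namespace Place

variable {L K : Type} [Field L] [Field K] [Algebra L K] (P : Place L K)

theorem ord_one : P.ord 1 = 0 := by
  have := P.ord_mul 1 1 one_ne_zero one_ne_zero
  rw [mul_one] at this
  linarith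

theorem ord_inv (a : K) (ha : a ≠ 0) : P.ord a⁻¹ = - P.ord a := by
  have := P.ord_mul a a⁻¹ ha (inv_ne_zero ha)
  rw [mul_inv_cancel₀ ha, P.ord_one] at this
  linarith

end Place

section

variable (L K : Type) [Field L] [Field K] [Algebra L K]

/-- Divisors. -/
abbrev Div := Place L K →₀ ℤ

/-- Principal divisors. -/
def Prin : AddSubgroup (Div L K) where
  carrier := {D | ∃ h : K, h ≠ 0 ∧ ∀ P, D P = P.ord h}
  zero_mem' := ⟨1, one_ne_zero, fun P => by rw [P.ord_one]; rfl⟩
  add_mem' := by
    rintro D D' ⟨h, hh, h1⟩ ⟨h', hh', h2⟩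
    refine ⟨h * h', mul_ne_zero hh hh', fun P => ?_⟩
    rw [P.ord_mul _ _ hh hh', Finsupp.add_apply, h1, h2]
  neg_mem' := by
    rintro D ⟨h, hh, h1⟩
    refine ⟨h⁻¹, inv_ne_zero hh, fun P => ?_⟩
    rw [P.ord_inv _ hh, Finsupp.neg_apply, h1]

end

section

variable {L K : Type} [Field L] [Field K] [Algebra L K]

/-- An automorphism of `K` which preserves the field of constants. -/
def IsSemi (L : Type) {K : Type} [Field L] [Field K] [Algebra L K] (τ : K ≃+* K) : Prop :=
  (∀ c : L, ∃ c' : L, τ (algebraMap L K c) = algebraMap L K c') ∧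
    ∀ c : L, ∃ c' : L, τ.symm (algebraMap L K c) = algebraMap L K c'

theorem IsSemi.symm {τ : K ≃+* K} (h : IsSemi L τ) : IsSemi L τ.symm := ⟨h.2, h.1⟩

/-- The action of an automorphism on places: `(τ P)(h) = P (τ⁻¹ h)`. -/
def Place.map (τ : K ≃+* K) (hτ : IsSemi L τ) (P : Place L K) : Place L K where
  ord h := P.ord (τ.symm h)
  ord_zero := by rw [map_zero, P.ord_zero]
  ord_mul a b ha hb := by
    rw [map_mul, P.ord_mul _ _ ((_root_.map_ne_zero _).2 ha) ((_root_.map_ne_zero _).2 hb)]
  ord_add a b ha hb hab := by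
    rw [map_add]
    refine P.ord_add _ _ ((_root_.map_ne_zero _).2 ha) ((_root_.map_ne_zero _).2 hb) ?_
    rw [← map_add]
    exact (_root_.map_ne_zero _).2 hab
  ord_const c hc := by
    obtain ⟨c', hc'⟩ := hτ.2 c
    rw [hc', P.ord_const]
    rintro rfl
    rw [map_zero, map_eq_zero] at hc'
    exact hc (by simpa using hc')
  exists_one := by
    obtain ⟨a, ha, h1⟩ := P.exists_one
    refine ⟨τ a, (_root_.map_ne_zero _).2 ha, ?_⟩
    rw [RingEquiv.symm_apply_apply, h1]

theorem Place.map_ord (τ : K ≃+* K) (hτ : IsSemi L τ) (P : Place L K) (h : K) :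
    (P.map τ hτ).ord h = P.ord (τ.symm h) := rfl

/-- The action of an automorphism on places. -/
def placeEquiv (τ : K ≃+* K) (hτ : IsSemi L τ) : Place L K ≃ Place L K where
  toFun P := P.map τ hτ
  invFun P := P.map τ.symm hτ.symm
  left_inv P := by
    apply Place.ext
    funext h
    rw [Place.map_ord, Place.map_ord]
    simp
  right_inv P := by
    apply Place.ext
    funext h
    rw [Place.map_ord, Place.map_ord]
    simp

/-- The action of an automorphism on divisors. -/
noncomputable def divMap (τ : K ≃+* K) (hτ : IsSemi L τ) : Div L K ≃+ Div L K :=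
  Finsupp.domCongr (placeEquiv τ hτ)

theorem divMap_apply (τ : K ≃+* K) (hτ : IsSemi L τ) (D : Div L K) (P : Place L K) :
    divMap τ hτ D P = D (P.map τ.symm hτ.symm) := rfl

theorem divMap_single (τ : K ≃+* K) (hτ : IsSemi L τ) (P : Place L K) (n : ℤ) :
    divMap τ hτ (Finsupp.single P n) = Finsupp.single (P.map τ hτ) n := by
  unfold divMap
  rw [Finsupp.domCongr_apply, Finsupp.equivMapDomain_single]
  rfl

theorem degree_divMap (τ : K ≃+* K) (hτ : IsSemi L τ) (D : Div L K) :
    (divMap τ hτ D).degree = D.degree := by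
  unfold divMap
  rw [Finsupp.domCongr_apply, Finsupp.equivMapDomain_eq_mapDomain, Finsupp.degree_mapDomain]

theorem divMap_prin (τ : K ≃+* K) (hτ : IsSemi L τ) (D : Div L K) (hD : D ∈ Prin L K) :
    divMap τ hτ D ∈ Prin L K := by
  obtain ⟨h, hh, h1⟩ := hD
  refine ⟨τ h, (_root_.map_ne_zero _).2 hh, fun P => ?_⟩
  rw [divMap_apply, h1, Place.map_ord, RingEquiv.symm_symm]

end

section

variable (L K : Type) [Field L] [Field K] [Algebra L K]

/-- The Picard group: divisors modulo principal divisors. -/
def PicGp : Type := Div L K ⧸ Prin L K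

noncomputable instance : AddCommGroup (PicGp L K) :=
  QuotientAddGroup.Quotient.addCommGroup (Prin L K)

variable {L K}

/-- The class of a divisor. -/
noncomputable def cl : Div L K →+ PicGp L K := QuotientAddGroup.mk' (Prin L K)

/-- The action of an automorphism on the Picard group. -/
noncomputable def picMap (τ : K ≃+* K) (hτ : IsSemi L τ) : PicGp L K →+ PicGp L K :=
  QuotientAddGroup.map (Prin L K) (Prin L K) (divMap τ hτ).toAddMonoidHom
    (fun D hD => divMap_prin τ hτ D hD)

theorem picMap_cl (τ : K ≃+* K) (hτ : IsSemi L τ) (D : Div L K) :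
    picMap τ hτ (cl D) = cl (divMap τ hτ D) := rfl

theorem cl_zero (D : Div L K) : cl D = 0 ↔ D ∈ Prin L K :=
  QuotientAddGroup.eq_zero_iff D

theorem cl_eq (D D' : Div L K) : cl D = cl D' ↔ D - D' ∈ Prin L K := by
  rw [← cl_zero, map_sub, sub_eq_zero]

theorem cl_surj (ξ : PicGp L K) : ∃ D, cl D = ξ := QuotientAddGroup.mk'_surjective _ ξ

end

end Pool.Agent.W620.PO
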