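import Pool.Agent.W620.SB.Act

/-! # Rotations of Puiseux series -/

set_option autoImplicit false
set_option linter.unusedSectionVars false

open Polynomial

namespace Pool.Agent.W620.PO

open Pool.Agent.Helper165.P1 Pool.Agent.W620.SB

section

variable {Γ R : Type*} [AddCommGroup Γ] [LinearOrder Γ] [IsOrderedAddMonoid Γ] [Field R]

/-- The Hahn series with coefficient of `t ^ q` multiplied by `χ q`. -/
def tw0 (χ : Γ → R) (x : HahnSeries Γ R) : HahnSeries Γ R where
  coeff q := χ q * x.coeff q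
  isPWO_support' := x.isPWO_support.mono (fun q hq h => hq (by
    have : x.coeff q = 0 := h
    dsimp only
    rw [this, mul_zero]))

theorem tw0_coeff (χ : Γ → R) (x : HahnSeries Γ R) (q : Γ) :
    (tw0 χ x).coeff q = χ q * x.coeff q := rfl

/-- The twist of Hahn series by a character. -/
def tw (χ : Γ → R) (h0 : χ 0 = 1) (hadd : ∀ a b, χ (a + b) = χ a * χ b) :
    HahnSeries Γ R →+* HahnSeries Γ R where
  toFun := tw0 χ
  map_one' := by
    ext q
    rw [tw0_coeff, HahnSeries.coeff_one]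
    split_ifs with h
    · rw [h, h0, one_mul]
    · rw [mul_zero]
  map_zero' := by
    ext q
    rw [tw0_coeff]
    simp
  map_add' x y := by
    ext q
    rw [tw0_coeff, HahnSeries.coeff_add, HahnSeries.coeff_add, tw0_coeff, tw0_coeff, mul_add]
  map_mul' x y := by
    ext q
    rw [tw0_coeff, HahnSeries.coeff_mul, HahnSeries.coeff_mul, Finset.mul_sum]
    refine Eq.symm ?_
    have hsub : ∀ (z : HahnSeries Γ R) (i : Γ), (tw0 χ z).coeff i ≠ 0 → z.coeff i ≠ 0 := by
      intro z i h h1
      rw [tw0_coeff, h1, mul_zero] at h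
      exact h rfl
    have e : ∀ ij ∈ Finset.antidiagonal x.isPWO_support y.isPWO_support q,
        χ q * (x.coeff ij.1 * y.coeff ij.2) = (tw0 χ x).coeff ij.1 * (tw0 χ y).coeff ij.2 := by
      intro ij hij
      rw [Finset.mem_antidiagonal] at hij
      rw [tw0_coeff, tw0_coeff, ← hij.2.2, hadd]
      ring
    rw [Finset.sum_congr rfl e]
    refine Finset.sum_subset (fun ij hij => ?_) (fun ij hij hz => ?_)
    · rw [Finset.mem_antidiagonal] at hij ⊢
      exact ⟨hsub x _ hij.1, hsub y _ hij.2.1, hij.2.2⟩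
    · by_contra hne
      apply hz
      rw [Finset.mem_antidiagonal] at hij ⊢
      exact ⟨left_ne_zero_of_mul hne, right_ne_zero_of_mul hne, hij.2.2⟩

end

section

variable {E : Type*} [Field E] (χ : ℚ → E) (h0 : χ 0 = 1) (hadd : ∀ a b, χ (a + b) = χ a * χ b)

theorem tw_eHom (m : ℕ) (hm : 0 < m) (x : NP.LS E) :
    tw χ h0 hadd (eHom m hm x) = eHom m hm (tw0 (fun n : ℤ => χ ((n : ℚ) / m)) x) := by
  ext q
  change χ q * _ = _
  by_cases h : ∃ n : ℤ, (n : ℚ) / m = q
  · obtain ⟨n, rfl⟩ := h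
    rw [eHom_coeff, eHom_coeff, tw0_coeff]
  · push Not at h
    rw [eHom_coeff_of_ne m hm x q h, eHom_coeff_of_ne m hm _ q h, mul_zero]

theorem tw_mem (x : Pui E) : tw χ h0 hadd x ∈ Pui E := by
  obtain ⟨m, hm, y, hy⟩ := x.2
  refine ⟨m, hm, tw0 (fun n : ℤ => χ ((n : ℚ) / m)) y, ?_⟩
  rw [← tw_eHom (h0 := h0) (hadd := hadd), hy]

/-- The rotation of Puiseux series. -/
noncomputable def rot : Pui E →+* Pui E :=
  ((tw χ h0 hadd).comp (Pui E).subtype).codRestrict (Pui E) (tw_mem χ h0 hadd)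

theorem cf_rot (x : Pui E) (q : ℚ) : cf (rot χ h0 hadd x) q = χ q * cf x q := rfl

theorem cf_cst (a : E) (q : ℚ) : cf (cst a) q = if q = 0 then a else 0 := by
  unfold cf
  rw [cst_coe, HahnSeries.C_apply, HahnSeries.coeff_single]
  split_ifs <;> rfl

theorem cf_tt (q : ℚ) : cf (tt : Pui E) q = if q = 1 then 1 else 0 := by
  unfold cf
  rw [tt_coe, HahnSeries.coeff_single]
  split_ifs <;> rfl

theorem rot_cst (a : E) : rot χ h0 hadd (cst a) = cst a := by
  apply cf_ext
  intro q
  rw [cf_rot, cf_cst]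
  split_ifs with h
  · rw [h, h0, one_mul]
  · rw [mul_zero]

theorem rot_tt (h1 : χ 1 = 1) : rot χ h0 hadd (tt : Pui E) = tt := by
  apply cf_ext
  intro q
  rw [cf_rot, cf_tt]
  split_ifs with h
  · rw [h, h1, one_mul]
  · rw [mul_zero]

/-- The square root of the variable. -/
noncomputable def hh : Pui E := ⟨HahnSeries.single (1 / 2 : ℚ) (1 : E), by
  refine ⟨2, two_pos, HahnSeries.single (1 : ℤ) (1 : E), ?_⟩
  ext q
  by_cases h : ∃ n : ℤ, (n : ℚ) / (2 : ℕ) = q
  · obtain ⟨n, rfl⟩ := h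
    rw [eHom_coeff, HahnSeries.coeff_single, HahnSeries.coeff_single]
    have : (n : ℚ) / (2 : ℕ) = 1 / 2 ↔ n = 1 := by
      push_cast
      constructor
      · intro h
        field_simp at h
        exact_mod_cast h
      · rintro rfl
        norm_num
    simp only [this]
    split_ifs <;> rfl
  · push Not at h
    rw [eHom_coeff_of_ne 2 two_pos _ q h, HahnSeries.coeff_single]
    rw [if_neg]
    intro h1
    exact h 1 (by rw [h1]; norm_num)⟩

theorem cf_hh (q : ℚ) : cf (hh : Pui E) q = if q = 1 / 2 then 1 else 0 := by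
  unfold cf hh
  rw [HahnSeries.coeff_single]
  split_ifs <;> rfl

theorem hh_sq : (hh : Pui E) ^ 2 = tt := by
  apply Subtype.ext
  rw [sq]
  change HahnSeries.single (1 / 2 : ℚ) (1 : E) * HahnSeries.single (1 / 2 : ℚ) (1 : E)
    = HahnSeries.single (1 : ℚ) (1 : E)
  rw [HahnSeries.single_mul_single]
  norm_num

theorem rot_hh (h2 : χ (1 / 2) = -1) : rot χ h0 hadd (hh : Pui E) = -hh := by
  apply cf_ext
  intro q
  rw [cf_rot]
  have : cf (-hh : Pui E) q = - cf (hh : Pui E) q := rfl
  rw [this, cf_hh]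
  split_ifs with h
  · rw [h, h2]; ring
  · ring

theorem rot_act (φ : E →+* E) (hφ : ∀ q, φ (χ q) = χ q) (x : Pui E) :
    rot χ h0 hadd (act φ x) = act φ (rot χ h0 hadd x) := by
  apply cf_ext
  intro q
  rw [cf_rot, cf_act, cf_act, cf_rot, map_mul, hφ]

end

/-- `p(t)` has the expected coefficients. -/
theorem cf_eval {E E0 : Type*} [Field E] [Field E0] (i : E0 →+* E) (p : E0[X]) (n : ℕ) :
    cf (eval₂ ((cst (E := E)).comp i) tt p) (n : ℚ) = i (p.coeff n) := by
  induction p using Polynomial.induction_on' with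
  | add p q hp hq =>
    rw [eval₂_add, coeff_add, map_add, ← hp, ← hq]
    rfl
  | monomial m a =>
    rw [eval₂_monomial, coeff_monomial]
    have h1 : ((((cst (E := E)).comp i a * tt ^ m : Pui E)) : HQ E)
        = HahnSeries.single (m : ℚ) (i a) := by
      rw [Subfield.coe_mul, SubmonoidClass.coe_pow, tt_coe, HahnSeries.single_pow]
      change (HahnSeries.C (i a) : HQ E) * _ = _
      rw [HahnSeries.C_apply, HahnSeries.single_mul_single]
      simp
    unfold cf
    rw [h1, HahnSeries.coeff_single]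
    by_cases h : m = n
    · simp [h]
    · rw [if_neg h, if_neg, map_zero]
      intro h2
      exact h (by exact_mod_cast h2.symm)

end Pool.Agent.W620.PO
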