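import Pool.Agent.W620.PO.Core

/-! # From the sextic model to the quintic model -/

set_option autoImplicit false
set_option linter.unusedSectionVars false

open Polynomial

namespace Pool.Agent.W620.PO

variable {L K : Type} [Field L] [Field K] [Algebra L K] [IsAlgClosed L] [CharZero L]

/-- The quintic model of `y² = s² (x - α₀) ⋯ (x - α₅)`. -/
theorem exists_hyp (x y : K) (α : Fin 6 → L) (hα : Function.Injective α) (s : L) (hs : s ≠ 0)
    (htrans : ∀ p : L[X], aeval x p = 0 → p = 0)
    (hy : y ^ 2 = aeval x (C (s ^ 2) * ∏ j, (X - C (α j))))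
    (hgen : ∀ S : Subfield K, (∀ c : L, algebraMap L K c ∈ S) → x ∈ S → y ∈ S → S = ⊤)
    (ι : K ≃+* K) (hι : ∀ c : L, ι (algebraMap L K c) = algebraMap L K c) (hιx : ι x = x)
    (hιy : ι y = -y) :
    ∃ (H : Hyp L K) (γ : L), γ ≠ 0 ∧ γ ^ 2 = ∏ i : Fin 5, (α 0 - α i.succ) ∧
      H.x = (x - algebraMap L K (α 0))⁻¹ ∧
      H.y = y / algebraMap L K (s * γ) * ((x - algebraMap L K (α 0))⁻¹) ^ 3 ∧
      ∀ i, H.β i = (α i.succ - α 0)⁻¹ := by
  obtain ⟨γ, hγ⟩ := IsAlgClosed.exists_pow_nat_eq (∏ i : Fin 5, (α 0 - α i.succ)) (n := 2) two_pos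
  have hne : ∀ i : Fin 5, α 0 - α i.succ ≠ 0 := by
    intro i h
    have := hα (sub_eq_zero.1 h)
    exact (Fin.succ_ne_zero i) this.symm
  have hne' : ∀ i : Fin 5, α i.succ - α 0 ≠ 0 := by
    intro i h
    apply hne i
    rw [← neg_sub, h, neg_zero]
  have hγ0 : γ ≠ 0 := by
    rintro rfl
    have h1 : ∏ i : Fin 5, (α 0 - α i.succ) = 0 := by rw [← hγ]; ring
    obtain ⟨i, _, h2⟩ := Finset.prod_eq_zero_iff.1 h1
    exact hne i h2
  have hx0 : x - algebraMap L K (α 0) ≠ 0 := by
    intro h
    have h1 := htrans (X - C (α 0)) (by rw [map_sub, aeval_X, aeval_C, h])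
    exact X_sub_C_ne_zero _ h1
  have hc : ∀ c : L, c ≠ 0 → algebraMap L K c ≠ 0 := fun c hc => by simpa using hc
  have htr : Transcendental L x := by
    intro hx
    obtain ⟨p, hp, h⟩ := hx
    exact hp (htrans p h)
  refine ⟨{
      x := (x - algebraMap L K (α 0))⁻¹
      y := y / algebraMap L K (s * γ) * ((x - algebraMap L K (α 0))⁻¹) ^ 3
      β := fun i => (α i.succ - α 0)⁻¹
      β_inj := ?_
      trans := ?_
      y_sq := ?_
      gen := ?_
      ι := ι
      ι_const := hι
      ι_x := ?_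
      ι_y := ?_ }, γ, hγ0, hγ, rfl, rfl, fun i => rfl⟩
  · intro i j h
    have h1 := inv_injective h
    have h2 := hα (sub_left_injective h1)
    exact Fin.succ_injective _ h2
  · intro p hp
    by_contra hne
    apply htr
    have h1 : IsAlgebraic L (x - algebraMap L K (α 0))⁻¹ := ⟨p, hne, hp⟩
    have h2 := h1.inv
    rw [inv_inv] at h2
    have h3 := h2.add (isAlgebraic_algebraMap (α 0))
    rwa [sub_add_cancel] at h3
  · rw [map_prod]
    have h1 : ∀ i : Fin 5, aeval (x - algebraMap L K (α 0))⁻¹ (X - C (α i.succ - α 0)⁻¹)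
        = (x - algebraMap L K (α i.succ)) * ((algebraMap L K (α 0 - α i.succ))⁻¹
          * (x - algebraMap L K (α 0))⁻¹) := by
      intro i
      have h2 := hc _ (hne' i)
      have h3 := hc _ (hne i)
      rw [map_sub, aeval_X, aeval_C, map_inv₀]
      have h4 : algebraMap L K (α 0 - α i.succ) = - algebraMap L K (α i.succ - α 0) := by
        rw [← map_neg, neg_sub]
      rw [h4]
      field_simp
      rw [map_sub]
      ring
    rw [Finset.prod_congr rfl (fun i _ => h1 i), Finset.prod_mul_distrib, Finset.prod_mul_distrib,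
      Finset.prod_inv_distrib, ← map_prod, ← hγ, Finset.prod_const, Finset.card_univ,
      Fintype.card_fin]
    rw [mul_pow, div_pow, hy, Fin.prod_univ_succ, map_mul, map_mul, aeval_C, map_prod]
    have h5 : ∀ j, aeval x (X - C (α j)) = x - algebraMap L K (α j) := by
      intro j
      rw [map_sub, aeval_X, aeval_C]
    simp only [h5, map_mul, map_pow]
    have h6 := hc _ hγ0
    have h7 := hc _ hs
    field_simp
  · intro S h1 h2 h3
    have h4 : x - algebraMap L K (α 0) ∈ S := by
      have := S.inv_mem h2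
      rwa [inv_inv] at this
    have h5 : x ∈ S := by
      have := S.add_mem h4 (h1 (α 0))
      rwa [sub_add_cancel] at this
    refine hgen S h1 h5 ?_
    have h6 : y = (y / algebraMap L K (s * γ) * ((x - algebraMap L K (α 0))⁻¹) ^ 3)
        * (algebraMap L K (s * γ) * (x - algebraMap L K (α 0)) ^ 3) := by
      have h8 := hc _ (mul_ne_zero hs hγ0)
      field_simp
    rw [h6]
    exact S.mul_mem h3 (S.mul_mem (h1 _) (S.pow_mem h4 _))
  · rw [map_inv₀, map_sub, hιx, hι]
  · rw [map_mul, map_pow, map_inv₀, map_sub, hιx, hι, map_div₀, hιy, hι, neg_div, neg_mul]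

section

variable (H : Hyp L K) (x : K) (α : Fin 6 → L)

/-- The six Weierstrass places. -/
noncomputable def Wp (H : Hyp L K) : Fin 6 → Place L K := Fin.cons H.winf H.w

theorem Wp_zero : Wp H 0 = H.winf := rfl

theorem Wp_succ (i : Fin 5) : Wp H i.succ = H.w i := rfl

theorem isW_iff (P : Place L K) : H.IsW P ↔ ∃ j, P = Wp H j := by
  constructor
  · rintro (h | ⟨i, h⟩)
    · exact ⟨0, h⟩
    · exact ⟨i.succ, h⟩
  · rintro ⟨j, rfl⟩
    refine Fin.cases ?_ (fun i => ?_) j
    · exact Or.inl rfl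
    · exact Or.inr ⟨i, rfl⟩

theorem Wp_iff (htrans : ∀ p : L[X], aeval x p = 0 → p = 0) (hα : Function.Injective α)
    (hx : H.x = (x - algebraMap L K (α 0))⁻¹) (hβ : ∀ i, H.β i = (α i.succ - α 0)⁻¹)
    (P : Place L K) (j : Fin 6) : 0 < P.ord (x - algebraMap L K (α j)) ↔ P = Wp H j := by
  have hxa : ∀ a : L, x - algebraMap L K a ≠ 0 := by
    intro a h
    have h1 := htrans (X - C a) (by rw [map_sub, aeval_X, aeval_C, h])
    exact X_sub_C_ne_zero _ h1
  have h0 : P.ord H.x = - P.ord (x - algebraMap L K (α 0)) := by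
    rw [hx, P.ord_inv _ (hxa _)]
  refine Fin.cases ?_ (fun i => ?_) j
  · constructor
    · intro h
      apply H.winf_unique
      omega
    · rintro rfl
      have := H.winf_neg
      rw [Wp_zero] at h0 ⊢
      omega
  · have hne : α i.succ - α 0 ≠ 0 := by
      intro h
      exact (Fin.succ_ne_zero i) (hα (sub_eq_zero.1 h))
    have hc : ∀ c : L, c ≠ 0 → algebraMap L K c ≠ 0 := fun c hc => by simpa using hc
    have h1 : H.xa (H.β i) = - ((x - algebraMap L K (α i.succ))
        * ((algebraMap L K (α i.succ - α 0))⁻¹ * (x - algebraMap L K (α 0))⁻¹)) := by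
      unfold Hyp.xa
      rw [hx, hβ, map_inv₀]
      have h2 := hc _ hne
      have h3 := hxa (α 0)
      field_simp
      rw [map_sub]
      ring
    have h2 : P.ord (H.xa (H.β i)) = P.ord (x - algebraMap L K (α i.succ))
        - P.ord (x - algebraMap L K (α 0)) := by
      rw [h1, P.ord_neg, P.ord_mul _ _ (hxa _) (mul_ne_zero (inv_ne_zero (hc _ hne))
        (inv_ne_zero (hxa _))), P.ord_mul _ _ (inv_ne_zero (hc _ hne)) (inv_ne_zero (hxa _)),
        P.ord_inv _ (hc _ hne), P.ord_const _ hne, P.ord_inv _ (hxa _)]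
      ring
    constructor
    · intro h
      have h3 : P.ord (x - algebraMap L K (α 0)) = 0 := by
        have h4 : x - algebraMap L K (α 0) = algebraMap L K (α i.succ - α 0)
            + (x - algebraMap L K (α i.succ)) := by
          rw [map_sub]; ring
        rw [h4, (P.ord_add_eq _ _ (hc _ hne) (Or.inr (by rw [P.ord_const _ hne]; exact h))).2,
          P.ord_const _ hne]
      exact H.w_unique i P (by omega)
    · rintro rfl
      rw [Wp_succ] at h0 h2 ⊢
      have h3 := H.w_pos i
      have h4 : (H.w i).ord (H.xa 0) = 0 := by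
        refine H.ord_xa_fin _ h3 ?_
        rw [hβ]
        exact (inv_ne_zero hne).symm
      have h5 : H.xa 0 = H.x := by
        unfold Hyp.xa
        rw [map_zero, sub_zero]
      rw [h5] at h4
      omega

end

end Pool.Agent.W620.PO
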