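import Pool.Agent.W620.PO.Div

/-! # Two-torsion -/

set_option autoImplicit false
set_option linter.unusedSectionVars false
set_option linter.unusedVariables false

open Polynomial

namespace Pool.Agent.W620.PO

theorem poly_dec {L : Type} [Field L] [IsAlgClosed L] {n : ℕ} (β : Fin n → L) (d : ℕ) :
    ∀ p : L[X], p ≠ 0 → p.natDegree ≤ d →
      (∀ a, (∀ i, a ≠ β i) → Even (p.rootMultiplicity a)) →
      ∃ (m : Fin n → ℕ) (q : L[X]), q ≠ 0 ∧ p = (∏ i, (X - C (β i)) ^ (m i)) * q ^ 2 := by
  induction d with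
  | zero =>
    intro p hp hd _
    obtain ⟨c, rfl⟩ := natDegree_eq_zero.1 (Nat.le_zero.1 hd)
    obtain ⟨c', hc'⟩ := IsAlgClosed.exists_pow_nat_eq c (n := 2) two_pos
    refine ⟨fun _ => 0, C c', ?_, ?_⟩
    · intro h
      rw [C_eq_zero] at h
      apply hp
      rw [← hc', h]
      simp
    · simp [← hc']
  | succ d ih =>
    intro p hp hd hev
    by_cases h0 : p.natDegree = 0
    · exact ih p hp (by omega) hev
    obtain ⟨a, ha⟩ := IsAlgClosed.exists_root p (by
      intro h
      apply h0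
      exact natDegree_eq_of_degree_eq_some h)
    obtain ⟨p', hp'⟩ := dvd_iff_isRoot.2 ha
    have hp'0 : p' ≠ 0 := by
      rintro rfl
      exact hp (by rw [hp', mul_zero])
    have hdeg : p.natDegree = 1 + p'.natDegree := by
      rw [hp', natDegree_mul (X_sub_C_ne_zero a) hp'0, natDegree_X_sub_C]
    have hmul : ∀ b, p.rootMultiplicity b
        = (X - C a).rootMultiplicity b + p'.rootMultiplicity b := by
      intro b
      conv_lhs => rw [hp']
      rw [rootMultiplicity_mul (by rw [← hp']; exact hp)]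
    have hne : ∀ b, b ≠ a → (X - C a : L[X]).rootMultiplicity b = 0 := by
      intro b hb
      apply rootMultiplicity_eq_zero
      intro h
      rw [IsRoot.def, eval_sub, eval_X, eval_C] at h
      exact hb (sub_eq_zero.1 h)
    by_cases hβ : ∃ i, a = β i
    · obtain ⟨i, hi⟩ := hβ
      obtain ⟨m, q, hq, h1⟩ := ih p' hp'0 (by omega) (by
        intro b hb
        have := hev b hb
        rwa [hmul b, hne b (by rw [hi]; exact hb i), zero_add] at this)
      refine ⟨fun j => m j + if j = i then 1 else 0, q, hq, ?_⟩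
      rw [hp', h1]
      have h2 : ∏ j, (X - C (β j)) ^ (m j + if j = i then 1 else 0)
          = (∏ j, (X - C (β j)) ^ (m j)) * (X - C a) := by
        rw [← Finset.prod_congr rfl (fun j _ => (pow_add (X - C (β j)) (m j) _).symm),
          Finset.prod_mul_distrib]
        congr 1
        rw [Finset.prod_eq_single i]
        · rw [if_pos rfl, pow_one, hi]
        · intro j _ hj
          rw [if_neg hj, pow_zero]
        · intro h
          exact absurd (Finset.mem_univ i) h
      rw [h2]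
      ring
    · push Not at hβ
      have h1 := hev a hβ
      have h2 : (X - C a : L[X]).rootMultiplicity a = 1 := by
        have := rootMultiplicity_X_sub_C_self (x := a)
        exact this
      rw [hmul a, h2] at h1
      have h3 : p'.rootMultiplicity a ≠ 0 := by
        intro h
        rw [h] at h1
        exact absurd h1 (by decide)
      have h4 : IsRoot p' a := (rootMultiplicity_pos hp'0).1 (Nat.pos_of_ne_zero h3)
      obtain ⟨p'', hp''⟩ := dvd_iff_isRoot.2 h4
      have hp''0 : p'' ≠ 0 := by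
        rintro rfl
        exact hp'0 (by rw [hp'', mul_zero])
      have hdeg' : p'.natDegree = 1 + p''.natDegree := by
        rw [hp'', natDegree_mul (X_sub_C_ne_zero a) hp''0, natDegree_X_sub_C]
      obtain ⟨m, q, hq, h5⟩ := ih p'' hp''0 (by omega) (by
        intro b hb
        have h6 := hev b hb
        have h7 : p'.rootMultiplicity b = (X - C a).rootMultiplicity b + p''.rootMultiplicity b := by
          conv_lhs => rw [hp'']
          rw [rootMultiplicity_mul (by rw [← hp'']; exact hp'0)]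
        rw [hmul b, h7, ← add_assoc, Nat.even_add] at h6
        exact h6.1 (Even.add_self _))
      refine ⟨m, (X - C a) * q, mul_ne_zero (X_sub_C_ne_zero a) hq, ?_⟩
      rw [hp', hp'', h5]
      ring

theorem poly_sq {L : Type} [Field L] [IsAlgClosed L] (p : L[X]) (hp : p ≠ 0)
    (h : ∀ a, Even (p.rootMultiplicity a)) : ∃ q : L[X], q ≠ 0 ∧ p = q ^ 2 := by
  obtain ⟨m, q, hq, h1⟩ := poly_dec (n := 0) (fun i => i.elim0) p.natDegree p hp le_rfl
    (fun a _ => h a)
  exact ⟨q, hq, by simpa using h1⟩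

namespace Hyp

variable {L K : Type} [Field L] [Field K] [Algebra L K] (H : Hyp L K)
variable [IsAlgClosed L] [CharZero L]

theorem two_ne (H : Hyp L K) : (2 : K) ≠ 0 := by
  have h : algebraMap L K 2 ≠ 0 := const_ne (by norm_num)
  rwa [map_ofNat] at h

theorem ι_w (i : Fin 5) : (H.w i).map H.ι H.ι_semi = H.w i := by
  apply H.w_unique
  rw [H.ι_xa]
  exact H.w_pos i

theorem ι_winf : H.winf.map H.ι H.ι_semi = H.winf := by
  apply H.winf_unique
  rw [H.ι_x_ord]
  exact H.winf_neg

theorem ord_ι (P : Place L K) (h : K) : P.ord (H.ι h) = (P.map H.ι H.ι_semi).ord h := by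
  rw [Place.map_ord, H.ι_symm]

theorem inv_elt' (h : K) (hh : h ≠ 0) (hι : H.ι h = h) :
    ∃ p D : L[X], D ≠ 0 ∧ p ≠ 0 ∧ h * H.ev D ^ 2 = H.ev p := by
  obtain ⟨A, D, hD, e⟩ := H.inv_elt h hι H.two_ne
  have hA : A ≠ 0 := by
    rintro rfl
    have : H.ev (0 : L[X]) = 0 := map_zero _
    rw [this] at e
    exact mul_ne_zero hh (H.ev_ne hD) e
  refine ⟨A * D, D, hD, mul_ne_zero hA hD, ?_⟩
  rw [H.ev_mul, ← e]
  ring

/-- The class of `∑ nᵢ (wᵢ - w_∞)`. -/
noncomputable def ws (n : Fin 5 → ℤ) : Div L K :=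
  ∑ i, n i • (Finsupp.single (H.w i) 1 - Finsupp.single H.winf 1)

/-- Every 2-torsion class is a combination of the `wᵢ - w_∞`. -/
theorem two_torsion (D : Div L K) (h2 : (2 : ℤ) • D ∈ Prin L K) :
    ∃ n : Fin 5 → ℤ, D - H.ws n ∈ Prin L K := by
  obtain ⟨h, hh, h1⟩ := h2
  have hD : ∀ P, P.ord h = 2 * D P := fun P => by
    rw [← h1 P, Finsupp.smul_apply, smul_eq_mul]
  have hιh : H.ι h ≠ 0 := (_root_.map_ne_zero _).2 hh
  -- the norm is a square
  obtain ⟨p, D0, hD0, hp, e⟩ := H.inv_elt' (h * H.ι h) (mul_ne_zero hh hιh) (by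
    rw [map_mul, H.ι_ι, mul_comm])
  have hD0' := H.ev_ne hD0
  have hord : ∀ P, P.ord (H.ev p) = 2 * D P + 2 * D (P.map H.ι H.ι_semi) + 2 * P.ord (H.ev D0) := by
    intro P
    rw [← e, P.ord_mul _ _ (mul_ne_zero hh hιh) (pow_ne_zero 2 hD0'), P.ord_mul _ _ hh hιh,
      P.ord_pow _ hD0', hD, H.ord_ι, hD]
    norm_num
  obtain ⟨q, hq, hpq⟩ := poly_sq p hp (by
    intro a
    obtain ⟨P, hP⟩ := H.place_fin (K := K) a
    have h3 := hord P
    rw [H.ord_ev_fin P hP p hp, H.ord_ev_fin P hP D0 hD0] at h3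
    by_cases hβ : ∃ i, a = H.β i
    · obtain ⟨i, rfl⟩ := hβ
      rw [H.w_unique i P hP, H.ι_w, (H.ram_aux _ (H.w_pos i)).1] at h3
      rw [← Int.even_coe_nat]
      exact ⟨D (H.w i) + (D0.rootMultiplicity (H.β i) : ℤ), by linarith⟩
    · obtain ⟨b, hb, h4⟩ := H.center P hP
      have hb0 : b ≠ 0 := by
        rintro rfl
        exact hβ (H.exists_β (by rw [← hb]; ring))
      rw [H.unr P hb0 hP h4] at h3
      rw [← Int.even_coe_nat]
      exact ⟨D P + D (P.map H.ι H.ι_semi) + (D0.rootMultiplicity a : ℤ), by linarith⟩)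
  -- Hilbert 90
  obtain ⟨z, hz, hzz⟩ : ∃ z : K, z ≠ 0 ∧ h * H.ι z * H.ev D0 = H.ev q * z := by
    have hN : (h * H.ev D0) * H.ι (h * H.ev D0) = H.ev q * H.ev q := by
      rw [map_mul, H.ι_ev]
      have : H.ev p = H.ev q * H.ev q := by rw [hpq, sq, H.ev_mul]
      rw [← this, ← e]
      ring
    by_cases hu : H.ev q + h * H.ev D0 = 0
    · refine ⟨H.y, H.y_ne, ?_⟩
      rw [H.ι_y]
      linear_combination (-H.y) * hu
    · refine ⟨H.ev q + h * H.ev D0, hu, ?_⟩
      rw [map_add, H.ι_ev]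
      linear_combination hN
  have hιz : H.ι z ≠ 0 := (_root_.map_ne_zero _).2 hz
  -- the function `g = h / z²` is a function of `x`
  have hg0 : h / z ^ 2 ≠ 0 := div_ne_zero hh (pow_ne_zero 2 hz)
  have hg : H.ι (h / z ^ 2) = h / z ^ 2 := by
    have h5 : h / z ^ 2 = H.ev q / (H.ev D0 * (z * H.ι z)) := by
      rw [div_eq_div_iff (pow_ne_zero 2 hz) (mul_ne_zero hD0' (mul_ne_zero hz hιz))]
      linear_combination z * hzz
    rw [h5, map_div₀, map_mul, map_mul, H.ι_ev, H.ι_ev, H.ι_ι, mul_comm (H.ι z) z]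
  obtain ⟨p1, D1, hD1, hp1, e1⟩ := H.inv_elt' _ hg0 hg
  have hD1' := H.ev_ne hD1
  have hord1 : ∀ P, P.ord (H.ev p1) = 2 * (D P - P.ord z + P.ord (H.ev D1)) := by
    intro P
    rw [← e1, P.ord_mul _ _ hg0 (pow_ne_zero 2 hD1'), P.ord_div _ _ hh (pow_ne_zero 2 hz),
      P.ord_pow _ hD1', P.ord_pow _ hz, hD]
    push_cast
    ring
  obtain ⟨m, q1, hq1, hpq1⟩ := poly_dec H.β p1.natDegree p1 hp1 le_rfl (by
    intro a ha
    obtain ⟨P, hP⟩ := H.place_fin (K := K) a
    have h3 := hord1 P
    rw [H.ord_ev_fin P hP p1 hp1] at h3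
    obtain ⟨b, hb, h4⟩ := H.center P hP
    have hb0 : b ≠ 0 := by
      rintro rfl
      obtain ⟨i, hi⟩ := H.exists_β (a := a) (by rw [← hb]; ring)
      exact ha i hi
    rw [H.unr P hb0 hP h4] at h3
    rw [← Int.even_coe_nat]
    exact ⟨D P - P.ord z + P.ord (H.ev D1), by linarith⟩)
  refine ⟨fun i => m i, ?_⟩
  have hq1' := H.ev_ne hq1
  have hfin : D - H.ws (fun i => m i) = H.dv z - H.dv (H.ev D1) + H.dv (H.ev q1) := by
    have h6 : (2 : ℤ) • (D - H.ws (fun i => m i))
        = (2 : ℤ) • (H.dv z - H.dv (H.ev D1) + H.dv (H.ev q1)) := by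
      have h7 : H.dv (H.ev p1) = (2 : ℤ) • H.ws (fun i => m i) + (2 : ℤ) • H.dv (H.ev q1) := by
        rw [hpq1, H.ev_mul, H.dv_mul _ _ ?_ ?_, H.ev_pow, sq, H.dv_mul _ _ hq1' hq1',
          ← two_smul ℤ (H.dv (H.ev q1))]
        · congr 1
          unfold ws
          rw [Finset.smul_sum]
          have h8 : ∀ s : Finset (Fin 5), H.dv (H.ev (∏ i ∈ s, (X - C (H.β i)) ^ m i))
              = ∑ i ∈ s, (2 : ℤ) • ((m i : ℤ) • (Finsupp.single (H.w i) 1
                - Finsupp.single H.winf 1)) := by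
            intro s
            induction s using Finset.induction_on with
            | empty =>
              rw [Finset.prod_empty, Finset.sum_empty]
              have : H.ev (1 : L[X]) = algebraMap L K 1 := by simp [ev]
              rw [this, H.dv_const _ one_ne_zero]
            | insert i s hi ih =>
              rw [Finset.prod_insert hi, Finset.sum_insert hi, H.ev_mul, H.dv_mul _ _ ?_ ?_, ih]
              · congr 1
                ext P
                rw [H.dv_apply, H.ev_pow, ← H.xa_eq, P.ord_pow _ (H.xa_ne _), ← H.dv_apply,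
                  H.dv_xa_ram]
                simp only [Finsupp.sub_apply, Finsupp.smul_apply, smul_eq_mul]
                have h9 : ∀ Q : Place L K, (Finsupp.single Q (2 : ℤ)) P
                    = 2 * (Finsupp.single Q (1 : ℤ)) P := by
                  intro Q
                  classical
                  rw [Finsupp.single_apply, Finsupp.single_apply]
                  split_ifs <;> simp
                rw [h9, h9]
                ring
              · exact H.ev_ne (pow_ne_zero _ (X_sub_C_ne_zero _))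
              · exact H.ev_ne (Finset.prod_ne_zero_iff.2 fun j _ =>
                  pow_ne_zero _ (X_sub_C_ne_zero _))
          exact h8 Finset.univ
        · exact H.ev_ne (Finset.prod_ne_zero_iff.2 fun j _ =>
                  pow_ne_zero _ (X_sub_C_ne_zero _))
        · exact H.ev_ne (pow_ne_zero 2 hq1)
      have h10 : H.dv (H.ev p1) = (2 : ℤ) • (D - H.dv z + H.dv (H.ev D1)) := by
        ext P
        rw [H.dv_apply, hord1 P, Finsupp.smul_apply, Finsupp.add_apply, Finsupp.sub_apply,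
          H.dv_apply, H.dv_apply, smul_eq_mul]
      rw [smul_sub, smul_add, smul_sub]
      rw [h10, smul_add, smul_sub] at h7
      rw [← sub_eq_zero] at h7 ⊢
      rw [← h7]
      abel
    ext P
    have h11 := congrArg (fun f : Div L K => f P) h6
    simp only [Finsupp.smul_apply, smul_eq_mul] at h11
    omega
  rw [hfin]
  exact (Prin L K).add_mem ((Prin L K).sub_mem (H.dv_mem z hz) (H.dv_mem _ hD1'))
    (H.dv_mem _ hq1')

/-- `P` is one of the six Weierstrass places. -/
def IsW (P : Place L K) : Prop := P = H.winf ∨ ∃ i, P = H.w i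

theorem ι_W {P : Place L K} (hP : H.IsW P) : P.map H.ι H.ι_semi = P := by
  rcases hP with rfl | ⟨i, rfl⟩
  · exact H.ι_winf
  · exact H.ι_w i

theorem even_W {P : Place L K} (hP : H.IsW P) (p : L[X]) (hp : p ≠ 0) :
    Even (P.ord (H.ev p)) := by
  rcases hP with rfl | ⟨i, rfl⟩
  · rw [H.ord_ev_inf _ H.winf_neg p hp, (H.inf_aux _ H.winf_neg).1]
    exact ⟨-p.natDegree, by ring⟩
  · rw [H.ord_ev_fin _ (H.w_pos i) p hp, (H.ram_aux _ (H.w_pos i)).1]
    exact ⟨p.rootMultiplicity (H.β i), by ring⟩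

theorem odd_W {P : Place L K} (hP : H.IsW P) : Odd (P.ord H.y) := by
  rcases hP with rfl | ⟨i, rfl⟩
  · rw [(H.inf_aux _ H.winf_neg).2]
    decide
  · rw [(H.ram_aux _ (H.w_pos i)).2]
    decide

theorem even_of_inv {P : Place L K} (hP : H.IsW P) (h : K) (hh : h ≠ 0) (hι : H.ι h = h) :
    Even (P.ord h) := by
  obtain ⟨p, D, hD, hp, e⟩ := H.inv_elt' h hh hι
  have h1 : P.ord h + 2 * P.ord (H.ev D) = P.ord (H.ev p) := by
    rw [← e, P.ord_mul _ _ hh (pow_ne_zero 2 (H.ev_ne hD)), P.ord_pow _ (H.ev_ne hD)]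
    norm_num
  obtain ⟨k, hk⟩ := H.even_W hP p hp
  exact ⟨k - P.ord (H.ev D), by linarith⟩

theorem odd_of_anti {P : Place L K} (hP : H.IsW P) (h : K) (hh : h ≠ 0) (hι : H.ι h = -h) :
    Odd (P.ord h) := by
  obtain ⟨k, hk⟩ := H.even_of_inv hP (h / H.y) (div_ne_zero hh H.y_ne) (by
    rw [map_div₀, hι, H.ι_y, neg_div_neg_eq])
  obtain ⟨l, hl⟩ := H.odd_W hP
  rw [P.ord_div _ _ hh H.y_ne] at hk
  exact ⟨k + l, by linarith⟩

theorem eq_zero_of_nonneg (D : Div L K) (h0 : ∀ P, 0 ≤ D P) (hd : D.degree = 0) : D = 0 := by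
  rw [Finsupp.degree_apply, Finset.sum_eq_zero_iff_of_nonneg (fun P _ => h0 P)] at hd
  ext P
  by_cases hP : P ∈ D.support
  · exact hd P hP
  · exact Finsupp.notMem_support_iff.1 hP

/-- Functions whose divisor is invariant under the involution. -/
theorem inv_or_anti (h : K) (hh : h ≠ 0) (hι : ∀ P : Place L K, P.ord (H.ι h) = P.ord h) :
    H.ι h = h ∨ H.ι h = -h := by
  by_contra hc
  push Not at hc
  obtain ⟨h1, h2⟩ := hc
  have hιh : H.ι h ≠ 0 := (_root_.map_ne_zero _).2 hh
  have hz : h + H.ι h ≠ 0 := by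
    intro h3
    exact h2 (by linear_combination h3)
  have hz' : h - H.ι h ≠ 0 := by
    intro h3
    exact h1 (by linear_combination -h3)
  have key : ∀ z : K, z ≠ 0 → (∀ P : Place L K, P.ord h ≤ P.ord z) →
      ∀ P : Place L K, P.ord z = P.ord h := by
    intro z hz h3 P
    have h4 : H.dv z - H.dv h = 0 := by
      apply eq_zero_of_nonneg
      · intro P
        rw [Finsupp.sub_apply, H.dv_apply, H.dv_apply]
        linarith [h3 P]
      · rw [map_sub, H.degree_dv z hz, H.degree_dv h hh, sub_zero]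
    have h5 := congrArg (fun D : Div L K => D P) h4
    simp only [Finsupp.sub_apply, H.dv_apply, Finsupp.coe_zero, Pi.zero_apply] at h5
    linarith
  have h3 := key _ hz (fun P => P.le_ord_add _ _ _ hz (fun _ => le_rfl) (fun _ => (hι P).ge))
    H.winf
  have h4 := key _ hz' (fun P => by
    rw [sub_eq_add_neg] at hz' ⊢
    exact P.le_ord_add _ _ _ hz' (fun _ => le_rfl) (fun _ => by rw [P.ord_neg]; exact (hι P).ge))
    H.winf
  have h5 := H.even_of_inv (P := H.winf) (Or.inl rfl) _ hz (by rw [map_add, H.ι_ι, add_comm])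
  have h6 := H.odd_of_anti (P := H.winf) (Or.inl rfl) _ hz' (by rw [map_sub, H.ι_ι]; ring)
  rw [h3] at h5
  rw [h4] at h6
  exact (Int.not_even_iff_odd.2 h6) h5

/-- A principal divisor supported on the Weierstrass places has coefficients of the same parity. -/
theorem same_parity (D : Div L K) (hD : D ∈ Prin L K) (hsupp : ∀ P, ¬ H.IsW P → D P = 0)
    (P Q : Place L K) (hP : H.IsW P) (hQ : H.IsW Q) : Even (D P) ↔ Even (D Q) := by
  obtain ⟨h, hh, h1⟩ := hD
  have h2 : ∀ P : Place L K, P.ord (H.ι h) = P.ord h := by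
    intro P
    rw [H.ord_ι]
    by_cases hP : H.IsW P
    · rw [H.ι_W hP]
    · rw [← h1, ← h1, hsupp P hP, hsupp]
      intro h3
      apply hP
      have h4 := H.ι_W h3
      have h5 : (P.map H.ι H.ι_semi).map H.ι H.ι_semi = P := by
        apply Place.ext
        funext g
        rw [Place.map_ord, Place.map_ord, H.ι_symm, H.ι_symm, H.ι_ι]
      rw [h5] at h4
      rw [h4]
      exact h3
  rw [h1, h1]
  rcases H.inv_or_anti h hh h2 with h3 | h3
  · exact ⟨fun _ => H.even_of_inv hQ h hh h3, fun _ => H.even_of_inv hP h hh h3⟩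
  · have h4 := Int.not_even_iff_odd.2 (H.odd_of_anti hP h hh h3)
    have h5 := Int.not_even_iff_odd.2 (H.odd_of_anti hQ h hh h3)
    exact ⟨fun h => absurd h h4, fun h => absurd h h5⟩

end Hyp

end Pool.Agent.W620.PO
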